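import Pool.Agent.H41.Hyper

/-! Every pair of crossing hyperplanes has at least two boundary squares. -/

namespace Pool.Agent.H41

open Set

theorem third (i j l : Fin 3) (hij : i ≠ j) (hil : i ≠ l) (hjl : j ≠ l) (m : Fin 3) :
    m = i ∨ m = j ∨ m = l := by
  revert i j l m; decide

theorem exists_third {i j : Fin 3} (hij : i ≠ j) : ∃ l, i ≠ l ∧ j ≠ l := by
  revert i j; decide

namespace CubeComplex

variable {ι : Type} {K : CubeComplex ι}

section

variable (hK : IsCAT0 K.dist) (o : K.Vtx) [Finite ι] [Nonempty ι]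

/-- The corners at which two given hyperplanes cross, on the base side of both. -/
def Zset (H H' : Set K.Vtx) : Set K.Vtx :=
  {x | x ∉ H ∧ x ∉ H' ∧ (∃ h, K.Adj x h ∧ h ∈ H) ∧ (∃ k, K.Adj x k ∧ k ∈ H')}

/-- At each corner of `Zset` there is a cube realizing both hyperplanes. -/
theorem Zset_cube {H H' : Set K.Vtx} (hc : (crs hK o).Adj H H') {y : K.Vtx}
    (hy : y ∈ Zset H H') : ∃ c w i j l, i ≠ j ∧ i ≠ l ∧ j ≠ l ∧ K.vx c w = y ∧
      Hc hK o c i = H ∧ Hc hK o c j = H' := by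
  have M := med hK
  obtain ⟨yH, yH', ⟨h, ah, hh⟩, ⟨k, ak, hk⟩⟩ := hy
  obtain ⟨c0, i0, j0, hij0, rfl, rfl⟩ := hc
  have hf := isHalf_Hc hK o c0 i0
  have hf' := isHalf_Hc hK o c0 j0
  have e1 : Hc hK o c0 i0 = Ws (gr hK) h y := hf.cross M (show (gr hK).Adj h y from ah.symm) hh yH
  have e2 : Hc hK o c0 j0 = Ws (gr hK) k y := hf'.cross M (show (gr hK).Adj k y from ak.symm) hk yH'
  have hne : h ≠ k := by
    rintro rfl
    exact Hc_ne hK o c0 hij0 (e1.trans e2.symm)
  obtain ⟨p, p1, p2⟩ := quadrant hK o c0 hij0 true true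
  rw [side_true] at p1 p2
  have p1' := p1
  have p2' := p2
  rw [e1, mem_Ws_iff M (show (gr hK).Adj h y from ah.symm)] at p1
  rw [e2, mem_Ws_iff M (show (gr hK).Adj k y from ak.symm)] at p2
  obtain ⟨z, hz, _⟩ := quad M (x := p) (show (gr hK).Adj h y from ah.symm)
    (show (gr hK).Adj k y from ak.symm) hne p1.symm p2.symm
  obtain ⟨c, w, i, j, hij, hy, hh', hz', hk'⟩ := hz
  obtain ⟨l, hil, hjl⟩ := exists_third hij
  have same : ∀ (H : Set K.Vtx) (hH : IsHalf (gr hK) H) (m : Fin 3), o ∉ H →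
      y ∉ H → K.vx c (fl w m) ∈ H → Hc hK o c m = H := by
    intro H hH m oH yH hm
    subst hy
    have hadj : (gr hK).Adj (K.vx c w) (K.vx c (fl w m)) := ⟨c, w, m, rfl, rfl⟩
    have e3 : H = Ws (gr hK) (K.vx c (fl w m)) (K.vx c w) := hH.cross M hadj.symm hm yH
    have hHc := isHalf_Hc hK o c m
    by_cases hw : K.vx c w ∈ Hc hK o c m
    · exfalso
      have hn : K.vx c (fl w m) ∉ Hc hK o c m := by
        rw [mem_Hc] at hw ⊢
        rw [fl_same, hw]
        cases sgn hK o c m <;> simp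
      have e4 : Hc hK o c m = Ws (gr hK) (K.vx c w) (K.vx c (fl w m)) := hHc.cross M hadj hw hn
      have := o_not_mem hK o c m
      rw [e4, not_mem_Ws M hadj, ← e3] at this
      exact oH this
    · have hn : K.vx c (fl w m) ∈ Hc hK o c m := by
        rw [mem_Hc] at hw ⊢
        rw [fl_same]
        cases h1 : w m <;> cases h2 : sgn hK o c m <;> simp_all
      rw [hHc.cross M hadj.symm hn hw, e3]
  refine ⟨c, w, i, j, l, hij, hil, hjl, hy.symm, ?_, ?_⟩
  · exact same _ hf i (o_not_mem hK o c0 i0) yH (by rw [← hh']; exact hh)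
  · exact same _ hf' j (o_not_mem hK o c0 j0) yH' (by rw [← hk']; exact hk)

/-- Membership in `Zset` in terms of a cube. -/
theorem mem_Zset_of {H H' : Set K.Vtx} {c : ι} {w : Fin 3 → Bool} {i j : Fin 3}
    (h1 : Hc hK o c i = H) (h2 : Hc hK o c j = H') (h3 : w i ≠ sgn hK o c i)
    (h4 : w j ≠ sgn hK o c j) : K.vx c w ∈ Zset H H' := by
  refine ⟨?_, ?_, ⟨K.vx c (fl w i), ⟨c, w, i, rfl, rfl⟩, ?_⟩,
    ⟨K.vx c (fl w j), ⟨c, w, j, rfl, rfl⟩, ?_⟩⟩
  · rw [← h1, mem_Hc]; exact h3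
  · rw [← h2, mem_Hc]; exact h4
  · rw [← h1, mem_Hc, fl_same]
    cases h5 : w i <;> cases h6 : sgn hK o c i <;> simp_all
  · rw [← h2, mem_Hc, fl_same]
    cases h5 : w j <;> cases h6 : sgn hK o c j <;> simp_all

theorem sgn_ne_of {H : Set K.Vtx} {c : ι} {w : Fin 3 → Bool} {i : Fin 3}
    (h1 : Hc hK o c i = H) (h2 : K.vx c w ∉ H) : w i ≠ sgn hK o c i := by
  rw [← h1, mem_Hc] at h2
  exact h2

/-- A point of a square that is a vertex is a corner of it. -/
theorem corner_of_mem_square {c c' : ι} {w : Fin 3 → Bool} {l' : Fin 3} {ε' : Bool}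
    (h : K.pt c (corner w) ∈ K.square (c', l', ε')) :
    ∃ w', K.vx c w = K.vx c' w' ∧ w' l' = ε' := by
  obtain ⟨x, hx, hp⟩ := h
  simp only at hx
  obtain ⟨g, hg, _⟩ := K.pt_glue hp
  rw [act_corner] at hg
  refine ⟨g.actB w, ?_, ?_⟩
  · apply Subtype.ext
    show K.pt c (corner w) = K.pt c' (corner (g.actB w))
    rw [hg]; exact hp
  · rw [← hg, corner_apply] at hx
    cases h1 : g.actB w l' <;> cases ε' <;> simp_all

theorem corner_mem_square (c : ι) (w : Fin 3 → Bool) (l : Fin 3) (ε : Bool) (h : w l = ε) :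
    K.pt c (corner w) ∈ K.square (c, l, ε) :=
  ⟨corner w, by rw [corner_apply, h], rfl⟩

/-- The square at an extremal corner is a boundary square. -/
theorem square_bdry {H H' : Set K.Vtx} {x0 : K.Vtx} {c : ι}
    {w : Fin 3 → Bool} {i j l : Fin 3} (hij : i ≠ j) (hil : i ≠ l) (hjl : j ≠ l)
    (hy : K.vx c w ∈ Zset H H') (h1 : Hc hK o c i = H) (h2 : Hc hK o c j = H')
    (hmax : ∀ z ∈ Zset H H', (gr hK).dist x0 z ≤ (gr hK).dist x0 (K.vx c w)) :
    K.square (c, l, w l) ∈ K.boundarySquares := by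
  have M := med hK
  refine ⟨(c, l, w l), rfl, ?_⟩
  rintro ⟨c', l', ε'⟩ heq
  -- the corners of the square in the cube `c'`
  have m0 : K.pt c (corner w) ∈ K.square (c', l', ε') := by
    rw [← heq]; exact corner_mem_square c w l _ rfl
  have m1 : K.pt c (corner (fl w i)) ∈ K.square (c', l', ε') := by
    rw [← heq]; exact corner_mem_square c (fl w i) l _ (fl_ne w hil.symm)
  have m2 : K.pt c (corner (fl w j)) ∈ K.square (c', l', ε') := by
    rw [← heq]; exact corner_mem_square c (fl w j) l _ (fl_ne w hjl.symm)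
  obtain ⟨w', e0, f0⟩ := corner_of_mem_square m0
  obtain ⟨u', e1, f1⟩ := corner_of_mem_square m1
  obtain ⟨v', e2, f2⟩ := corner_of_mem_square m2
  obtain ⟨g, g1, g2, _⟩ := cell_glue' hK e0 e1
  obtain ⟨g', g1', g2', _⟩ := cell_glue' hK e0 e2
  rw [actB_fl, g1] at g2
  rw [actB_fl, g1'] at g2'
  set i1 := g.perm.symm i with hi1
  set j1 := g'.perm.symm j with hj1
  subst g2 g2'
  have hi1l : i1 ≠ l' := by
    intro h
    rw [← h, fl_same] at f1
    rw [← h] at f0
    rw [f0] at f1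
    cases ε' <;> simp at f1
  have hj1l : j1 ≠ l' := by
    intro h
    rw [← h, fl_same] at f2
    rw [← h] at f0
    rw [f0] at f2
    cases ε' <;> simp at f2
  have hij1 : i1 ≠ j1 := by
    intro h
    rw [← h, ← e1] at e2
    exact hij (fl_inj (vx_inj hK e2)).symm
  -- squares in the two cubes
  have s_ij : K.Sq (K.vx c w) (K.vx c (fl w i)) (K.vx c (fl (fl w i) j)) (K.vx c (fl w j)) :=
    ⟨c, w, i, j, hij, rfl, rfl, rfl, rfl⟩
  have s_il : K.Sq (K.vx c w) (K.vx c (fl w i)) (K.vx c (fl (fl w i) l)) (K.vx c (fl w l)) :=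
    ⟨c, w, i, l, hil, rfl, rfl, rfl, rfl⟩
  have s_jl : K.Sq (K.vx c w) (K.vx c (fl w j)) (K.vx c (fl (fl w j) l)) (K.vx c (fl w l)) :=
    ⟨c, w, j, l, hjl, rfl, rfl, rfl, rfl⟩
  have t_il : K.Sq (K.vx c w) (K.vx c (fl w i)) (K.vx c' (fl (fl w' i1) l'))
      (K.vx c' (fl w' l')) := ⟨c', w', i1, l', hi1l, e0, e1, rfl, rfl⟩
  have t_jl : K.Sq (K.vx c w) (K.vx c (fl w j)) (K.vx c' (fl (fl w' j1) l'))
      (K.vx c' (fl w' l')) := ⟨c', w', j1, l', hj1l, e0, e2, rfl, rfl⟩
  have hy' := hy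
  obtain ⟨yH, yH', _, _⟩ := hy'
  have n1 := sgn_ne_of hK o h1 yH
  have n2 := sgn_ne_of hK o h2 yH'
  have z1 : K.vx c (fl w l) ∈ Zset H H' :=
    mem_Zset_of hK o h1 h2 (by rw [fl_ne w hil]; exact n1) (by rw [fl_ne w hjl]; exact n2)
  by_cases hyy : K.vx c (fl w l) = K.vx c' (fl w' l')
  · -- the two cubes coincide
    have hcc : c = c' := by
      apply cube_uniq hK e0 (fun m => if m = i then i1 else if m = j then j1 else l')
      intro m
      rcases third i j l hij hil hjl m with rfl | rfl | rfl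
      · simp only [if_true]; exact e1
      · simp only [hij.symm, if_true, if_false]; exact e2
      · simp only [hil.symm, hjl.symm, if_false]; exact hyy
    subst hcc
    have hww := vx_inj hK e0
    subst hww
    have hll := fl_inj (vx_inj hK hyy)
    subst hll
    rw [f0]
  · exfalso
    -- the corner across the square in `c'` is also in `Zset`
    have ad1 : (gr hK).Adj (K.vx c w) (K.vx c (fl w l)) := ⟨c, w, l, rfl, rfl⟩
    have ad2 : (gr hK).Adj (K.vx c w) (K.vx c' (fl w' l')) := ⟨c', w', l', e0, rfl⟩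
    have z2 : K.vx c' (fl w' l') ∈ Zset H H' := by
      have hH := isHalf_Hc hK o c i
      have hH' := isHalf_Hc hK o c j
      rw [h1] at hH
      rw [h2] at hH'
      have iH : K.vx c (fl w i) ∈ H := by
        rw [← h1, mem_Hc, fl_same]
        cases h5 : w i <;> cases h6 : sgn hK o c i <;> simp_all
      have jH : K.vx c (fl w j) ∈ H' := by
        rw [← h2, mem_Hc, fl_same]
        cases h5 : w j <;> cases h6 : sgn hK o c j <;> simp_all
      have q1 : (gr hK).Adj (K.vx c w) (K.vx c (fl w i)) := ⟨c, w, i, rfl, rfl⟩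
      have q2 : (gr hK).Adj (K.vx c w) (K.vx c (fl w j)) := ⟨c, w, j, rfl, rfl⟩
      -- half-spaces are preserved in squares
      have r1 := Ws_sq M t_il.rev.rot.rot.rot
      have r2 := Ws_sq M t_jl.rev.rot.rot.rot
      have k1 : H = Ws (gr hK) (K.vx c (fl w i)) (K.vx c w) := hH.cross M q1.symm iH yH
      have k2 : H' = Ws (gr hK) (K.vx c (fl w j)) (K.vx c w) := hH'.cross M q2.symm jH yH'
      have p1 : K.Adj (K.vx c' (fl w' l')) (K.vx c' (fl (fl w' i1) l')) :=
        ⟨c', fl w' l', i1, rfl, by rw [fl_comm]⟩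
      have p2 : K.Adj (K.vx c' (fl w' l')) (K.vx c' (fl (fl w' j1) l')) :=
        ⟨c', fl w' l', j1, rfl, by rw [fl_comm]⟩
      have p1' : (gr hK).Adj (K.vx c' (fl (fl w' i1) l')) (K.vx c' (fl w' l')) := p1.symm
      have p2' : (gr hK).Adj (K.vx c' (fl (fl w' j1) l')) (K.vx c' (fl w' l')) := p2.symm
      refine ⟨?_, ?_, ⟨_, p1, ?_⟩, ⟨_, p2, ?_⟩⟩
      · rw [k1, r1]; exact right_not_mem M p1'
      · rw [k2, r2]; exact right_not_mem M p2'
      · rw [k1, r1]; exact left_mem M p1'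
      · rw [k2, r2]; exact left_mem M p2'
    have b1 := bip M x0 ad1
    have b2 := bip M x0 ad2
    have d1 := hmax _ z1
    have d2 := hmax _ z2
    obtain ⟨z, hz, _⟩ := quad M (x := x0) ad1.symm ad2.symm hyy (by omega) (by omega)
    exact no_four hK s_ij s_jl hz s_il t_jl t_il

/-- The label of a square: its two hyperplanes. -/
noncomputable def lab (f : ι × Fin 3 × Bool) : Sym2 (Set K.Vtx) :=
  s(Hc hK o f.1 (f.2.1 + 1), Hc hK o f.1 (f.2.1 + 2))

theorem lab_eq {c : ι} {i j l : Fin 3} {ε : Bool} (hij : i ≠ j) (hil : i ≠ l) (hjl : j ≠ l) :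
    lab hK o (c, l, ε) = s(Hc hK o c i, Hc hK o c j) := by
  unfold lab
  have : (i = l + 1 ∧ j = l + 2) ∨ (i = l + 2 ∧ j = l + 1) := by
    revert i j l; decide
  rcases this with ⟨rfl, rfl⟩ | ⟨rfl, rfl⟩
  · rfl
  · exact Sym2.eq_swap

/-- Every pair of crossing hyperplanes has two different boundary squares. -/
theorem two_bdry {H H' : Set K.Vtx} (hc : (crs hK o).Adj H H') :
    ∃ f f' : ι × Fin 3 × Bool, f ≠ f' ∧ K.square f ∈ K.boundarySquares ∧
      K.square f' ∈ K.boundarySquares ∧ lab hK o f = s(H, H') ∧ lab hK o f' = s(H, H') := by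
  have M := med hK
  -- a starting point
  obtain ⟨c0, i0, j0, hij0, h1, h2⟩ := hc
  have hc : (crs hK o).Adj H H' := ⟨c0, i0, j0, hij0, h1, h2⟩
  have hz0 : K.vx c0 (bc hK o c0) ∈ Zset H H' := by
    apply mem_Zset_of hK o h1 h2
    · unfold bc; cases sgn hK o c0 i0 <;> simp
    · unfold bc; cases sgn hK o c0 j0 <;> simp
  have hfar : ∀ x0 : K.Vtx, ∃ y ∈ Zset H H',
      ∀ z ∈ Zset H H', (gr hK).dist x0 z ≤ (gr hK).dist x0 y := by
    intro x0
    obtain ⟨y, hy, hmax⟩ := Set.exists_max_image (Zset H H') (fun z => (gr hK).dist x0 z)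
      (Set.toFinite _) ⟨_, hz0⟩
    exact ⟨y, hy, hmax⟩
  obtain ⟨y, hy, hmax⟩ := hfar (K.vx c0 (bc hK o c0))
  obtain ⟨y', hy', hmax'⟩ := hfar y
  obtain ⟨c, w, i, j, l, hij, hil, hjl, rfl, k1, k2⟩ := Zset_cube hK o hc hy
  obtain ⟨c', w', i', j', l', hij', hil', hjl', hyy, k1', k2'⟩ := Zset_cube hK o hc hy'
  subst hyy
  refine ⟨(c, l, w l), (c', l', w' l'), ?_, square_bdry hK o hij hil hjl hy k1 k2 hmax,
    square_bdry hK o hij' hil' hjl' hy' k1' k2' hmax', ?_, ?_⟩
  · intro heq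
    simp only [Prod.mk.injEq] at heq
    obtain ⟨rfl, rfl, hll⟩ := heq
    -- the two corners coincide
    have ei : i = i' := by
      by_contra h
      exact Hc_ne hK o c h (k1.trans k1'.symm)
    have ej : j = j' := by
      by_contra h
      exact Hc_ne hK o c h (k2.trans k2'.symm)
    subst ei ej
    have a1 := sgn_ne_of hK o k1 hy.1
    have a2 := sgn_ne_of hK o k2 hy.2.1
    have a1' := sgn_ne_of hK o k1 hy'.1
    have a2' := sgn_ne_of hK o k2 hy'.2.1
    have hww : w = w' := by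
      funext m
      rcases third i j l hij hil hjl m with rfl | rfl | rfl
      · cases h5 : w m <;> cases h6 : w' m <;> cases h7 : sgn hK o c m <;> simp_all
      · cases h5 : w m <;> cases h6 : w' m <;> cases h7 : sgn hK o c m <;> simp_all
      · exact hll
    subst hww
    have z1 : K.vx c (fl w l) ∈ Zset H H' :=
      mem_Zset_of hK o k1 k2 (by rw [fl_ne w hil]; exact a1) (by rw [fl_ne w hjl]; exact a2)
    have := hmax' _ z1
    rw [SimpleGraph.dist_self] at this
    have h0 : (gr hK).dist (K.vx c w) (K.vx c (fl w l)) = 0 := by omega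
    have := M.conn.dist_eq_zero_iff.1 h0
    exact fl_ne_self w l (vx_inj hK this).symm
  · rw [lab_eq hK o hij hil hjl, k1, k2]
  · rw [lab_eq hK o hij' hil' hjl', k1', k2']

end

end CubeComplex

end Pool.Agent.H41
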