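import Pool.Agent.H41.CubeDefs

/-! Basic consequences of the CAT(0) property for an abstract distance function. -/

namespace Pool.Agent.H41

/-- The axioms of a pseudometric for a bare distance function. -/
structure IsMet {X : Type} (d : X → X → ℝ) : Prop where
  self : ∀ x, d x x = 0
  symm : ∀ x y, d x y = d y x
  tri : ∀ x y z, d x z ≤ d x y + d y z
  nonneg : ∀ x y, 0 ≤ d x y

abbrev E2 : Type := EuclideanSpace ℝ (Fin 2)

/-- Stewart's formula in an inner product space. -/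
theorem dist_lineMap_sq {V : Type} [NormedAddCommGroup V] [InnerProductSpace ℝ V]
    (p q r : V) (s : ℝ) :
    dist (AffineMap.lineMap p q s) r ^ 2 =
      (1 - s) * dist p r ^ 2 + s * dist q r ^ 2 - s * (1 - s) * dist p q ^ 2 := by
  have h1 : AffineMap.lineMap p q s - r = (1 - s) • (p - r) + s • (q - r) := by
    rw [AffineMap.lineMap_apply]
    simp only [vsub_eq_sub, vadd_eq_add]
    module
  have h2 : p - q = (p - r) - (q - r) := by abel
  rw [dist_eq_norm, dist_eq_norm, dist_eq_norm, dist_eq_norm, h1, h2]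
  generalize p - r = u
  generalize q - r = v
  rw [norm_add_sq_real, norm_sub_sq_real, norm_smul, norm_smul, real_inner_smul_left,
    real_inner_smul_right]
  simp only [mul_pow, Real.norm_eq_abs, sq_abs]
  ring

theorem dist_lineMap_lineMap_same {V : Type} [NormedAddCommGroup V] [InnerProductSpace ℝ V]
    (p q r : V) {s : ℝ} (hs : 0 ≤ s) :
    dist (AffineMap.lineMap p q s) (AffineMap.lineMap p r s) = s * dist q r := by
  rw [dist_eq_norm, dist_eq_norm]
  have h1 : (AffineMap.lineMap p q s : V) - AffineMap.lineMap p r s = s • (q - r) := by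
    rw [AffineMap.lineMap_apply, AffineMap.lineMap_apply]
    simp only [vsub_eq_sub, vadd_eq_add]
    module
  rw [h1, norm_smul, Real.norm_eq_abs, abs_of_nonneg hs]

/-- Existence of comparison triangles. -/
theorem exists_comparison {a b c : ℝ} (ha : 0 ≤ a) (hb : 0 ≤ b) (hc : 0 ≤ c)
    (h1 : a ≤ b + c) (h2 : b ≤ a + c) (h3 : c ≤ a + b) :
    ∃ p q r : E2, dist p q = a ∧ dist p r = b ∧ dist q r = c := by
  rcases eq_or_lt_of_le ha with h0 | h0
  · subst h0
    have hbc : b = c := by linarith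
    refine ⟨!₂[0, 0], !₂[0, 0], !₂[b, 0], ?_, ?_, ?_⟩
    · simp
    · rw [EuclideanSpace.dist_eq]
      simp [Real.sqrt_sq_eq_abs, abs_of_nonneg hb]
    · rw [EuclideanSpace.dist_eq]
      simp [Real.sqrt_sq_eq_abs, hbc, abs_of_nonneg hc]
  · set x : ℝ := (a ^ 2 + b ^ 2 - c ^ 2) / (2 * a) with hx
    have hax : 2 * a * x = a ^ 2 + b ^ 2 - c ^ 2 := by
      rw [hx]; field_simp
    have hx2 : x ^ 2 ≤ b ^ 2 := by
      have hu : x ≤ b := by
        have : 2 * a * x ≤ 2 * a * b := by nlinarith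
        exact le_of_mul_le_mul_left this (by positivity)
      have hl : -b ≤ x := by
        have : 2 * a * (-b) ≤ 2 * a * x := by nlinarith
        exact le_of_mul_le_mul_left this (by positivity)
      nlinarith
    have hy : 0 ≤ b ^ 2 - x ^ 2 := by linarith
    refine ⟨!₂[0, 0], !₂[a, 0], !₂[x, Real.sqrt (b ^ 2 - x ^ 2)], ?_, ?_, ?_⟩
    · rw [EuclideanSpace.dist_eq]
      simp [Real.sqrt_sq_eq_abs, abs_of_nonneg ha]
    · rw [EuclideanSpace.dist_eq]
      have : (x ^ 2 + Real.sqrt (b ^ 2 - x ^ 2) ^ 2) = b ^ 2 := by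
        rw [Real.sq_sqrt hy]; ring
      simp only [Fin.sum_univ_two, Real.dist_eq, sq_abs]
      simp only [Matrix.cons_val_zero, Matrix.cons_val_one, zero_sub, neg_sq]
      simp [this, Real.sqrt_sq_eq_abs, abs_of_nonneg hb]
    · rw [EuclideanSpace.dist_eq]
      have : ((a - x) ^ 2 + Real.sqrt (b ^ 2 - x ^ 2) ^ 2) = c ^ 2 := by
        rw [Real.sq_sqrt hy]; nlinarith
      simp only [Fin.sum_univ_two, Real.dist_eq, sq_abs]
      simp only [Matrix.cons_val_zero, Matrix.cons_val_one, zero_sub, neg_sq]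
      simp [this, Real.sqrt_sq_eq_abs, abs_of_nonneg hc]

section

variable {X : Type} {d : X → X → ℝ}

theorem IsCAT0.eq_of_dist (h : IsCAT0 d) {p q : X} (hpq : d p q = 0) : p = q := by
  obtain ⟨γ, h1, h2, _⟩ := h.1 p q
  rw [hpq] at h2
  rw [← h1, ← h2]

/-- The vertex form of the CAT(0) inequality. -/
theorem IsCAT0.cn (h : IsCAT0 d) (hd : IsMet d) {p q : X} {γ : ℝ → X}
    (hγ : IsGeodesic d p q γ) (r : X) {s : ℝ} (hs : s ∈ Set.Icc (0 : ℝ) 1) :
    d (γ (s * d p q)) r ^ 2 ≤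
      (1 - s) * d p r ^ 2 + s * d q r ^ 2 - s * (1 - s) * d p q ^ 2 := by
  obtain ⟨δ, hδ⟩ := h.1 p r
  obtain ⟨p', q', r', e1, e2, e3⟩ := exists_comparison (hd.nonneg p q) (hd.nonneg p r)
    (hd.nonneg q r) (by linarith [hd.tri p r q, hd.symm r q])
    (by linarith [hd.tri p q r]) (by linarith [hd.tri q p r, hd.symm q p])
  have key := h.2 p q r γ δ hγ hδ p' q' r' e1 e2 e3 s hs 1 ⟨zero_le_one, le_rfl⟩
  rw [one_mul, hδ.2.1, AffineMap.lineMap_apply_one] at key
  have h2 := dist_lineMap_sq p' q' r' s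
  rw [e1, e2, e3] at h2
  rw [← h2]
  exact pow_le_pow_left₀ (hd.nonneg _ _) key 2

/-- Points with prescribed distances to the endpoints of a segment are unique. -/
theorem IsCAT0.eq_geod (h : IsCAT0 d) (hd : IsMet d) {p q : X} {γ : ℝ → X}
    (hγ : IsGeodesic d p q γ) {m : X} {s : ℝ} (hs : s ∈ Set.Icc (0 : ℝ) 1)
    (h1 : d p m = s * d p q) (h2 : d q m = (1 - s) * d p q) : m = γ (s * d p q) := by
  have key := h.cn hd hγ m hs
  rw [h1, h2] at key
  have : d (γ (s * d p q)) m ^ 2 ≤ 0 := by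
    refine key.trans (le_of_eq ?_)
    ring
  have h0 : d (γ (s * d p q)) m = 0 := by
    have := hd.nonneg (γ (s * d p q)) m
    nlinarith
  exact (h.eq_of_dist h0).symm

theorem IsCAT0.unique (h : IsCAT0 d) (hd : IsMet d) {p q m m' : X} {s : ℝ}
    (hs : s ∈ Set.Icc (0 : ℝ) 1)
    (h1 : d p m = s * d p q) (h2 : d q m = (1 - s) * d p q)
    (h1' : d p m' = s * d p q) (h2' : d q m' = (1 - s) * d p q) : m = m' := by
  obtain ⟨γ, hγ⟩ := h.1 p q
  rw [h.eq_geod hd hγ hs h1 h2, h.eq_geod hd hγ hs h1' h2']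

/-- The CN inequality for a point dividing a segment in the ratio `s : 1 - s`. -/
theorem IsCAT0.cn' (h : IsCAT0 d) (hd : IsMet d) {p q m : X} {s : ℝ}
    (hs : s ∈ Set.Icc (0 : ℝ) 1)
    (h1 : d p m = s * d p q) (h2 : d q m = (1 - s) * d p q) (r : X) :
    d m r ^ 2 ≤ (1 - s) * d p r ^ 2 + s * d q r ^ 2 - s * (1 - s) * d p q ^ 2 := by
  obtain ⟨γ, hγ⟩ := h.1 p q
  rw [h.eq_geod hd hγ hs h1 h2]
  exact h.cn hd hγ r hs

/-- Existence of points dividing a segment. -/
theorem IsCAT0.exists_between (h : IsCAT0 d) (hd : IsMet d) (p q : X) {s : ℝ}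
    (hs : s ∈ Set.Icc (0 : ℝ) 1) : ∃ m, d p m = s * d p q ∧ d q m = (1 - s) * d p q := by
  obtain ⟨γ, h1, h2, h3⟩ := h.1 p q
  have hl := hd.nonneg p q
  have ha : s * d p q ∈ Set.Icc 0 (d p q) :=
    ⟨mul_nonneg hs.1 hl, by nlinarith [hs.2]⟩
  refine ⟨γ (s * d p q), ?_, ?_⟩
  · have := h3 0 ⟨le_rfl, hl⟩ _ ha
    rw [h1] at this
    rw [this, zero_sub, abs_neg, abs_of_nonneg ha.1]
  · have := h3 _ ⟨hl, le_rfl⟩ _ ha
    rw [h2] at this
    rw [this, abs_of_nonneg (by linarith [ha.2])]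
    ring

/-- Local geodesics are geodesics, in discrete form with constant step. -/
theorem IsCAT0.local_to_global (h : IsCAT0 d) (hd : IsMet d) (x : ℕ → X) (n : ℕ) {e : ℝ}
    (h1 : ∀ i, i + 1 ≤ n → d (x i) (x (i + 1)) = e)
    (h2 : ∀ i, i + 2 ≤ n → d (x i) (x (i + 2)) = 2 * e) :
    ∀ k, k ≤ n → d (x 0) (x k) = k * e := by
  have key : ∀ k, k + 1 ≤ n → d (x 0) (x k) = k * e ∧ d (x 0) (x (k + 1)) = (k + 1) * e := by
    intro k
    induction k with
    | zero =>
      intro hk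
      refine ⟨by simp [hd.self], by simpa using h1 0 hk⟩
    | succ k ih =>
      intro hk
      obtain ⟨ih1, ih2⟩ := ih (by omega)
      refine ⟨by push_cast; exact ih2, ?_⟩
      have e1 : d (x k) (x (k + 1)) = (1 / 2) * d (x k) (x (k + 2)) := by
        rw [h1 k (by omega), h2 k (by omega)]; ring
      have e2 : d (x (k + 2)) (x (k + 1)) = (1 - 1 / 2) * d (x k) (x (k + 2)) := by
        rw [hd.symm, h1 (k + 1) (by omega), h2 k (by omega)]; ring
      have := h.cn' hd (s := 1 / 2) ⟨by norm_num, by norm_num⟩ e1 e2 (x 0)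
      rw [hd.symm (x (k + 1)), hd.symm (x k), hd.symm (x (k + 2)) (x 0), h2 k (by omega),
        ih1, ih2] at this
      have hD := hd.nonneg (x 0) (x (k + 2))
      have hle : d (x 0) (x (k + 2)) ≤ (k + 2) * e := by
        have := hd.tri (x 0) (x (k + 1)) (x (k + 2))
        rw [ih2, h1 (k + 1) (by omega)] at this
        linarith
      have hge : ((k : ℝ) + 2) * e ≤ d (x 0) (x (k + 2)) := by
        have hk0 : (0 : ℝ) ≤ k := Nat.cast_nonneg k
        have h5 : (((k : ℝ) + 2) * e) ^ 2 ≤ d (x 0) (x (k + 2)) ^ 2 := by nlinarith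
        exact (abs_le_of_sq_le_sq' h5 hD).2
      push_cast
      linarith
  intro k hk
  rcases Nat.eq_zero_or_pos k with h0 | h0
  · subst h0; simp [hd.self]
  · obtain ⟨j, rfl⟩ : ∃ j, k = j + 1 := ⟨k - 1, by omega⟩
    have := (key j hk).2
    push_cast
    exact this

/-- Contraction towards a base point does not increase distances. -/
theorem IsCAT0.contract (h : IsCAT0 d) (hd : IsMet d) {p q r m m' : X} {s : ℝ}
    (hs : s ∈ Set.Icc (0 : ℝ) 1)
    (h1 : d p m = s * d p q) (h2 : d q m = (1 - s) * d p q)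
    (h1' : d p m' = s * d p r) (h2' : d r m' = (1 - s) * d p r) :
    d m m' ≤ s * d q r := by
  obtain ⟨γ, hγ⟩ := h.1 p q
  obtain ⟨δ, hδ⟩ := h.1 p r
  obtain ⟨p', q', r', e1, e2, e3⟩ := exists_comparison (hd.nonneg p q) (hd.nonneg p r)
    (hd.nonneg q r) (by linarith [hd.tri p r q, hd.symm r q])
    (by linarith [hd.tri p q r]) (by linarith [hd.tri q p r, hd.symm q p])
  have key := h.2 p q r γ δ hγ hδ p' q' r' e1 e2 e3 s hs s hs
  rw [← h.eq_geod hd hγ hs h1 h2, ← h.eq_geod hd hδ hs h1' h2',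
    dist_lineMap_lineMap_same p' q' r' hs.1, e3] at key
  exact key

end

end Pool.Agent.H41
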