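import Pool.Agent.H41.CubeMetric

/-! Corners of cubes, vertices and squares of a CAT(0) cube complex. -/

namespace Pool.Agent.H41

open Set

/-- The corner of the unit cube with coordinates `1` where `w` is true. -/
noncomputable def corner (w : Fin 3 → Bool) : unitCube :=
  ⟨WithLp.toLp 2 (fun i => if w i then 1 else 0), by
    intro i
    show 0 ≤ (if w i then (1 : ℝ) else 0) ∧ (if w i then (1 : ℝ) else 0) ≤ 1
    split_ifs <;> norm_num⟩

theorem corner_apply (w : Fin 3 → Bool) (i : Fin 3) :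
    (corner w).1 i = if w i then 1 else 0 := rfl

theorem corner_inj {w w' : Fin 3 → Bool} (h : corner w = corner w') : w = w' := by
  ext i
  have h1 := congrArg (fun x : unitCube => x.1 i) h
  simp only [corner_apply] at h1
  cases hw : w i <;> cases hw' : w' i <;> simp_all

/-- Change the `i`-th coordinate of a corner. -/
def fl (w : Fin 3 → Bool) (i : Fin 3) : Fin 3 → Bool := Function.update w i (!w i)

theorem fl_same (w : Fin 3 → Bool) (i : Fin 3) : fl w i i = !w i := by simp [fl]

theorem fl_ne (w : Fin 3 → Bool) {i k : Fin 3} (h : k ≠ i) : fl w i k = w k := by simp [fl, h]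

theorem fl_apply (w : Fin 3 → Bool) (i k : Fin 3) :
    fl w i k = if k = i then !w k else w k := by
  by_cases h : k = i
  · subst h; simp [fl]
  · simp [fl, h]

theorem fl_fl (w : Fin 3 → Bool) (i : Fin 3) : fl (fl w i) i = w := by
  funext k
  rw [fl_apply, fl_apply]
  split_ifs <;> simp

theorem fl_comm (w : Fin 3 → Bool) (i j : Fin 3) : fl (fl w i) j = fl (fl w j) i := by
  funext k
  simp only [fl_apply]
  split_ifs <;> simp

theorem fl_ne_self (w : Fin 3 → Bool) (i : Fin 3) : fl w i ≠ w := by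
  intro h
  have := congrFun h i
  rw [fl_same] at this
  cases hw : w i <;> simp_all

theorem fl_inj {w : Fin 3 → Bool} {i j : Fin 3} (h : fl w i = fl w j) : i = j := by
  by_contra hne
  have := congrFun h i
  rw [fl_same, fl_ne w hne] at this
  cases hw : w i <;> simp_all

/-- The action of a symmetry on corners. -/
def CubeSym.actB (g : CubeSym) (w : Fin 3 → Bool) : Fin 3 → Bool :=
  fun i => xor (g.refl i) (w (g.perm i))

theorem act_corner (g : CubeSym) (w : Fin 3 → Bool) :
    g.act (corner w) = corner (g.actB w) := by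
  apply Subtype.ext
  ext i
  rw [act_apply, corner_apply, corner_apply, CubeSym.actB]
  cases g.refl i <;> cases w (g.perm i) <;> simp

theorem actB_fl (g : CubeSym) (w : Fin 3 → Bool) (i : Fin 3) :
    g.actB (fl w i) = fl (g.actB w) (g.perm.symm i) := by
  funext k
  simp only [CubeSym.actB, fl_apply]
  by_cases h : g.perm k = i
  · have h' : k = g.perm.symm i := by rw [← h]; simp
    rw [if_pos h, if_pos h']
    cases g.refl k <;> cases w (g.perm k) <;> rfl
  · have h' : k ≠ g.perm.symm i := by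
      intro h2; apply h; rw [h2]; simp
    rw [if_neg h, if_neg h']

/-- The half-way point of two corners. -/
noncomputable def mid (u v : Fin 3 → Bool) : unitCube := seg (corner u) (corner v) (1 / 2)

theorem half_mem : (1 / 2 : ℝ) ∈ Icc (0 : ℝ) 1 := ⟨by norm_num, by norm_num⟩

theorem mid_apply (u v : Fin 3 → Bool) (i : Fin 3) :
    (mid u v).1 i = (1 - 1 / 2) * (if u i then 1 else 0) + 1 / 2 * (if v i then 1 else 0) := by
  rw [mid, seg_apply _ _ half_mem, corner_apply, corner_apply]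

/-- Corners in the smallest face containing `u` and `v`. -/
theorem inFace_mid {u v w : Fin 3 → Bool} (h : ∀ k, u k = v k → w k = u k) :
    InFace (mid u v) (corner w) := by
  intro i
  rw [mid_apply, corner_apply]
  have := h i
  cases hu : u i <;> cases hv : v i <;> cases hw : w i <;> simp_all [show (1:ℝ) - 2⁻¹ ≠ 0 by norm_num]

theorem dist_corner_corner_ne {u v : Fin 3 → Bool} (h : u ≠ v) :
    0 < Dist.dist (corner u).1 (corner v).1 := by
  rw [dist_pos]
  intro h'
  exact h (corner_inj (Subtype.ext h'))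

namespace CubeComplex

variable {ι : Type} {K : CubeComplex ι}

theorem pt_corner_inj (hK : IsCAT0 K.dist) {c : ι} {u v : Fin 3 → Bool}
    (h : K.pt c (corner u) = K.pt c (corner v)) : u = v :=
  corner_inj (pt_inj hK h)

/-- Two cubes sharing two corners share the smallest face containing both. -/
theorem cell_glue (hK : IsCAT0 K.dist) {c c' : ι} {u v u' v' : Fin 3 → Bool}
    (hu : K.pt c (corner u) = K.pt c' (corner u'))
    (hv : K.pt c (corner v) = K.pt c' (corner v')) :
    ∃ g : CubeSym, g.actB u = u' ∧ g.actB v = v' ∧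
      ∀ w, (∀ k, u k = v k → w k = u k) →
        K.pt c (corner w) = K.pt c' (corner (g.actB w)) := by
  have h1 := pt_seg hK hu hv half_mem
  obtain ⟨g, _, hg2⟩ := K.pt_glue h1
  refine ⟨g, ?_, ?_, ?_⟩
  · have := hg2 (corner u) (inFace_mid (fun k _ => rfl))
    rw [hu, act_corner] at this
    exact (pt_corner_inj hK this).symm
  · have := hg2 (corner v) (inFace_mid (fun k hk => hk.symm))
    rw [hv, act_corner] at this
    exact (pt_corner_inj hK this).symm
  · intro w hw
    have := hg2 (corner w) (inFace_mid hw)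
    rwa [act_corner] at this

variable (K)

/-- The vertices of the complex. -/
def Vtx : Type := {p : K.Point // ∃ c w, K.pt c (corner w) = p}

/-- The vertex of the complex at a corner of a cube. -/
noncomputable def vx (c : ι) (w : Fin 3 → Bool) : K.Vtx := ⟨K.pt c (corner w), c, w, rfl⟩

variable {K}

theorem exists_vx (v : K.Vtx) : ∃ c w, K.vx c w = v := by
  obtain ⟨p, c, w, h⟩ := v
  exact ⟨c, w, Subtype.ext h⟩

theorem vx_inj (hK : IsCAT0 K.dist) {c : ι} {u v : Fin 3 → Bool}
    (h : K.vx c u = K.vx c v) : u = v :=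
  pt_corner_inj hK (congrArg Subtype.val h)

instance [Finite ι] : Finite K.Vtx :=
  Finite.of_surjective (fun a : ι × (Fin 3 → Bool) => K.vx a.1 a.2)
    (fun v => by obtain ⟨c, w, h⟩ := exists_vx v; exact ⟨(c, w), h⟩)

/-- Version of `cell_glue` for vertices. -/
theorem cell_glue' (hK : IsCAT0 K.dist) {c c' : ι} {u v u' v' : Fin 3 → Bool}
    (hu : K.vx c u = K.vx c' u') (hv : K.vx c v = K.vx c' v') :
    ∃ g : CubeSym, g.actB u = u' ∧ g.actB v = v' ∧
      ∀ w, (∀ k, u k = v k → w k = u k) → K.vx c w = K.vx c' (g.actB w) := by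
  obtain ⟨g, h1, h2, h3⟩ := cell_glue hK (congrArg Subtype.val hu) (congrArg Subtype.val hv)
  exact ⟨g, h1, h2, fun w hw => Subtype.ext (h3 w hw)⟩

variable (K)

/-- Adjacency of vertices. -/
def Adj (a b : K.Vtx) : Prop := ∃ c w i, a = K.vx c w ∧ b = K.vx c (fl w i)

/-- `Sq a b e d`: the vertices `a, b, e, d` are the vertices of a square, in cyclic order. -/
def Sq (a b e d : K.Vtx) : Prop :=
  ∃ c w i j, i ≠ j ∧ a = K.vx c w ∧ b = K.vx c (fl w i) ∧ e = K.vx c (fl (fl w i) j) ∧
    d = K.vx c (fl w j)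

variable {K}

theorem Adj.symm {a b : K.Vtx} (h : K.Adj a b) : K.Adj b a := by
  obtain ⟨c, w, i, rfl, rfl⟩ := h
  exact ⟨c, fl w i, i, rfl, by rw [fl_fl]⟩

theorem Sq.adj {a b e d : K.Vtx} (h : K.Sq a b e d) : K.Adj a b := by
  obtain ⟨c, w, i, j, _, rfl, rfl, _, _⟩ := h
  exact ⟨c, w, i, rfl, rfl⟩

theorem Sq.rot {a b e d : K.Vtx} (h : K.Sq a b e d) : K.Sq b e d a := by
  obtain ⟨c, w, i, j, hij, rfl, rfl, rfl, rfl⟩ := h
  refine ⟨c, fl w i, j, i, hij.symm, rfl, rfl, ?_, ?_⟩
  · rw [fl_comm w i j, fl_fl]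
  · rw [fl_fl]

theorem Sq.rev {a b e d : K.Vtx} (h : K.Sq a b e d) : K.Sq a d e b := by
  obtain ⟨c, w, i, j, hij, rfl, rfl, rfl, rfl⟩ := h
  exact ⟨c, w, j, i, hij.symm, rfl, rfl, by rw [fl_comm], rfl⟩

theorem Adj.ne (hK : IsCAT0 K.dist) {a b : K.Vtx} (h : K.Adj a b) : a ≠ b := by
  obtain ⟨c, w, i, rfl, rfl⟩ := h
  intro h
  exact fl_ne_self w i (vx_inj hK h).symm

theorem Sq.ne (hK : IsCAT0 K.dist) {a b e d : K.Vtx} (h : K.Sq a b e d) : a ≠ e := by
  obtain ⟨c, w, i, j, hij, rfl, rfl, rfl, rfl⟩ := h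
  intro h
  have := congrFun (vx_inj hK h) i
  rw [fl_ne _ hij, fl_same] at this
  cases hw : w i <;> simp_all

theorem Sq.uniq (hK : IsCAT0 K.dist) {a b e e' d : K.Vtx} (h : K.Sq a b e d)
    (h' : K.Sq a b e' d) : e = e' := by
  obtain ⟨c, w, i, j, hij, ha, hb, he, hd⟩ := h
  obtain ⟨c', w', i', j', hij', ha', hb', he', hd'⟩ := h'
  obtain ⟨g, h1, h2, h3⟩ := cell_glue' hK (hb.symm.trans hb') (hd.symm.trans hd')
  have hw : K.vx c w = K.vx c' (g.actB w) := by
    apply h3
    intro k hk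
    by_cases h4 : k = i
    · subst h4; rw [fl_same, fl_ne w hij] at hk; cases hw : w k <;> simp_all
    · rw [fl_ne w h4]
  have hw2 : g.actB w = w' := by
    apply vx_inj hK (c := c')
    rw [← hw, ← ha, ha']
  have he2 : K.vx c (fl (fl w i) j) = K.vx c' (g.actB (fl (fl w i) j)) := by
    apply h3
    intro k hk
    by_cases h4 : k = j
    · subst h4; rw [fl_same, fl_ne w hij.symm] at hk; cases hw : w k <;> simp_all
    · rw [fl_ne _ h4]
  rw [he, he2, he', actB_fl, actB_fl, hw2]
  rw [actB_fl, hw2] at h1 h2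
  rw [fl_inj h1, fl_inj h2]

/-- The antipode of a corner. -/
def anti (w : Fin 3 → Bool) : Fin 3 → Bool := fun k => !w k

theorem anti_eq (w : Fin 3 → Bool) {i j k : Fin 3} (hij : i ≠ j) (hik : i ≠ k) (hjk : j ≠ k) :
    fl (fl (fl w i) j) k = anti w := by
  funext l
  simp only [fl_apply, anti]
  have : l = i ∨ l = j ∨ l = k := by
    revert i j k l; decide
  rcases this with h | h | h
  · subst h; simp [hij, hik]
  · subst h; simp [hij.symm, hjk]
  · subst h; simp [hik.symm, hjk.symm]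

/-- Two cubes with a common corner and the same neighbours of this corner coincide. -/
theorem cube_uniq (hK : IsCAT0 K.dist) {c c' : ι} {w w' : Fin 3 → Bool}
    (h : K.vx c w = K.vx c' w') (σ : Fin 3 → Fin 3)
    (hσ : ∀ i, K.vx c (fl w i) = K.vx c' (fl w' (σ i))) : c = c' := by
  have hinj : Function.Injective σ := by
    intro i j hij
    have : K.vx c (fl w i) = K.vx c (fl w j) := by rw [hσ, hσ, hij]
    exact fl_inj (vx_inj hK this)
  have h2 : ∀ i j, i ≠ j → K.vx c (fl (fl w i) j) = K.vx c' (fl (fl w' (σ i)) (σ j)) := by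
    intro i j hij
    have s1 : K.Sq (K.vx c w) (K.vx c (fl w i)) (K.vx c (fl (fl w i) j)) (K.vx c (fl w j)) :=
      ⟨c, w, i, j, hij, rfl, rfl, rfl, rfl⟩
    have s2 : K.Sq (K.vx c' w') (K.vx c' (fl w' (σ i))) (K.vx c' (fl (fl w' (σ i)) (σ j)))
      (K.vx c' (fl w' (σ j))) :=
      ⟨c', w', σ i, σ j, hinj.ne hij, rfl, rfl, rfl, rfl⟩
    rw [← h, ← hσ i, ← hσ j] at s2
    exact s1.uniq hK s2
  have h3 : K.vx c (anti w) = K.vx c' (anti w') := by
    have e1 : K.Sq (K.vx c (fl w 0)) (K.vx c (fl (fl w 0) 1)) (K.vx c (anti w))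
      (K.vx c (fl (fl w 0) 2)) :=
      ⟨c, fl w 0, 1, 2, by decide, rfl, rfl,
        by rw [anti_eq w (by decide) (by decide) (by decide)], rfl⟩
    have e2 : K.Sq (K.vx c' (fl w' (σ 0))) (K.vx c' (fl (fl w' (σ 0)) (σ 1)))
      (K.vx c' (anti w')) (K.vx c' (fl (fl w' (σ 0)) (σ 2))) :=
      ⟨c', fl w' (σ 0), σ 1, σ 2, hinj.ne (by decide), rfl, rfl,
        by rw [anti_eq w' (hinj.ne (by decide)) (hinj.ne (by decide)) (hinj.ne (by decide))],
        rfl⟩
    rw [← hσ 0, ← h2 0 1 (by decide), ← h2 0 2 (by decide)] at e2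
    exact e1.uniq hK e2
  have h4 := pt_seg hK (congrArg Subtype.val h) (congrArg Subtype.val h3) half_mem
  refine K.distinct c _ c' _ ?_ (K.pt_eq_iff.1 h4)
  intro i
  rw [seg_apply _ _ half_mem, corner_apply, corner_apply, anti]
  cases w i <;> simp <;> norm_num

end CubeComplex

end Pool.Agent.H41
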