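import Mathlib

/-! Edge paths in square complexes with the cube condition, modulo flips of squares. -/

namespace Pool.Agent.H41

/-- The local axioms of the squares of a nonpositively curved cube complex. -/
structure SqAx {W : Type} (Sq : W → W → W → W → Prop) : Prop where
  rot : ∀ {a b c d}, Sq a b c d → Sq b c d a
  rev : ∀ {a b c d}, Sq a b c d → Sq a d c b
  ne : ∀ {a b c d}, Sq a b c d → a ≠ c
  uniq : ∀ {a b c c' d}, Sq a b c d → Sq a b c' d → c = c'
  cube : ∀ {a b1 b2 b3 c12 c23 c31}, Sq a b1 c12 b2 → Sq a b2 c23 b3 → Sq a b3 c31 b1 →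
    ∃ x, Sq b1 c12 x c31 ∧ Sq b2 c12 x c23 ∧ Sq b3 c31 x c23

section

variable {W : Type} (Sq : W → W → W → W → Prop)

/-- Elementary flips of paths. -/
inductive Flip : List W → List W → Prop
  | here (a b c d : W) (r : List W) : Sq a b c d → Flip (c :: b :: a :: r) (c :: d :: a :: r)
  | cons (x : W) (l l' : List W) : Flip l l' → Flip (x :: l) (x :: l')

/-- Equivalence of paths under flips. -/
def Eqv (l l' : List W) : Prop := Relation.EqvGen (Flip Sq) l l'

variable {Sq}

theorem Eqv.refl (l : List W) : Eqv Sq l l := Relation.EqvGen.refl l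

theorem Eqv.symm {l l' : List W} (h : Eqv Sq l l') : Eqv Sq l' l := Relation.EqvGen.symm _ _ h

theorem Eqv.trans {l l' l'' : List W} (h : Eqv Sq l l') (h' : Eqv Sq l' l'') : Eqv Sq l l'' :=
  Relation.EqvGen.trans _ _ _ h h'

theorem Eqv.flip {l l' : List W} (h : Flip Sq l l') : Eqv Sq l l' := Relation.EqvGen.rel _ _ h

theorem Eqv.cons {l l' : List W} (x : W) (h : Eqv Sq l l') : Eqv Sq (x :: l) (x :: l') := by
  induction h with
  | rel l l' h => exact Eqv.flip (Flip.cons x l l' h)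
  | refl l => exact Eqv.refl _
  | symm l l' _ ih => exact ih.symm
  | trans l l' l'' _ _ ih1 ih2 => exact ih1.trans ih2

theorem Eqv.sq {a b c d : W} (r : List W) (h : Sq a b c d) :
    Eqv Sq (c :: b :: a :: r) (c :: d :: a :: r) := Eqv.flip (Flip.here a b c d r h)

theorem Flip.length {l l' : List W} (h : Flip Sq l l') : l.length = l'.length := by
  induction h with
  | here a b c d r h => simp
  | cons x l l' _ ih => simp [ih]

theorem Eqv.length {l l' : List W} (h : Eqv Sq l l') : l.length = l'.length := by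
  induction h with
  | rel l l' h => exact h.length
  | refl l => rfl
  | symm l l' _ ih => exact ih.symm
  | trans l l' l'' _ _ ih1 ih2 => exact ih1.trans ih2

/-- The conclusion of the main lemma. -/
def DD (Sq : W → W → W → W → Prop) (v u : W) (p : List W) (u' : W) (q : List W) : Prop :=
  (u = u' ∧ Eqv Sq (u :: p) (u' :: q)) ∨
  (u ≠ u' ∧ ∃ z r, Sq v u z u' ∧ Eqv Sq (u :: p) (u :: z :: r) ∧
    Eqv Sq (u' :: q) (u' :: z :: r))

theorem DD.symm (ax : SqAx Sq) {v u : W} {p : List W} {u' : W} {q : List W}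
    (h : DD Sq v u p u' q) : DD Sq v u' q u p := by
  rcases h with ⟨h1, h2⟩ | ⟨h1, z, r, h2, h3, h4⟩
  · exact Or.inl ⟨h1.symm, h2.symm⟩
  · exact Or.inr ⟨h1.symm, z, r, ax.rev h2, h4, h3⟩

theorem DD.trans (ax : SqAx Sq) {n : ℕ}
    (IH : ∀ m, m < n → ∀ (v u : W) (p : List W) (u' : W) (q : List W), p.length = m →
      Eqv Sq (v :: u :: p) (v :: u' :: q) → DD Sq v u p u' q)
    {v u1 u2 u3 : W} {p1 p2 p3 : List W} (hn : p1.length = n)
    (h12 : DD Sq v u1 p1 u2 p2) (h23 : DD Sq v u2 p2 u3 p3) : DD Sq v u1 p1 u3 p3 := by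
  rcases h12 with ⟨rfl, e12⟩ | ⟨n12, z1, r1, s1, a1, a2⟩
  · rcases h23 with ⟨rfl, e23⟩ | ⟨n23, z2, r2, s2, b1, b2⟩
    · exact Or.inl ⟨rfl, e12.trans e23⟩
    · exact Or.inr ⟨n23, z2, r2, s2, e12.trans b1, b2⟩
  · rcases h23 with ⟨rfl, e23⟩ | ⟨n23, z2, r2, s2, b1, b2⟩
    · exact Or.inr ⟨n12, z1, r1, s1, a1, e23.symm.trans a2⟩
    · have hlen : r1.length < n := by
        have := a1.length
        simp at this
        omega
      have h := IH r1.length hlen u2 z1 r1 z2 r2 rfl (a2.symm.trans b1)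
      rcases h with ⟨rfl, e⟩ | ⟨nz, y, s, t, c1, c2⟩
      · -- the squares coincide
        have q1 : Sq u2 v u1 z1 := ax.rot (ax.rot (ax.rot s1))
        have q2 : Sq u2 v u3 z1 := ax.rev (ax.rot s2)
        have hu : u1 = u3 := ax.uniq q1 q2
        subst hu
        exact Or.inl ⟨rfl, a1.trans ((e.cons u1).trans b2.symm)⟩
      · -- there is a cube
        have q1 : Sq u2 v u1 z1 := ax.rot (ax.rot (ax.rot s1))
        have q2 : Sq u2 z2 u3 v := ax.rot s2
        obtain ⟨x, k1, k2, k3⟩ := ax.cube q1 t q2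
        -- k1 : Sq v u1 x u3, k2 : Sq z1 u1 x y, k3 : Sq z2 u3 x y
        have nu : u1 ≠ u3 := ax.ne (ax.rot k1)
        refine Or.inr ⟨nu, x, y :: s, k1, ?_, ?_⟩
        · refine a1.trans ((c1.cons u1).trans ?_)
          exact Eqv.sq s (ax.rot (ax.rot (ax.rot k2)) |> fun h => ax.rev (ax.rev h))
        · refine b2.trans ((c2.cons u3).trans ?_)
          exact Eqv.sq s (ax.rot (ax.rot (ax.rot k3)))

theorem Flip.symm {l l' : List W} (ax : SqAx Sq) (h : Flip Sq l l') : Flip Sq l' l := by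
  induction h with
  | here a b c d r h => exact Flip.here a d c b r (ax.rev h)
  | cons x l l' _ ih => exact Flip.cons x _ _ ih

/-- Shape of flips of lists with at least two elements. -/
theorem Flip.shape (ax : SqAx Sq) {v u : W} {p l' : List W} (h : Flip Sq (v :: u :: p) l') :
    ∃ u' q, l' = v :: u' :: q ∧ q.length = p.length ∧ DD Sq v u p u' q := by
  cases h with
  | here a b c d r h =>
    refine ⟨d, a :: r, rfl, rfl, Or.inr ⟨ax.ne (ax.rot h), a, r, ?_, Eqv.refl _, Eqv.refl _⟩⟩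
    exact ax.rev (ax.rot (ax.rot h))
  | cons x l l' h =>
    cases h with
    | here a b c d r h =>
      exact ⟨u, d :: a :: r, rfl, rfl, Or.inl ⟨rfl, Eqv.sq r h⟩⟩
    | cons x l l' h =>
      exact ⟨u, l', rfl, h.length.symm, Or.inl ⟨rfl, Eqv.flip (Flip.cons u _ _ h)⟩⟩

theorem dlemma (ax : SqAx Sq) : ∀ n, ∀ (v u : W) (p : List W) (u' : W) (q : List W),
    p.length = n → Eqv Sq (v :: u :: p) (v :: u' :: q) → DD Sq v u p u' q := by
  intro n
  induction n using Nat.strong_induction_on with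
  | _ n IH =>
    have key : ∀ l l', Eqv Sq l l' →
        (∀ v u p, l = v :: u :: p → p.length = n →
          ∃ u' q, l' = v :: u' :: q ∧ q.length = n ∧ DD Sq v u p u' q) ∧
        (∀ v u p, l' = v :: u :: p → p.length = n →
          ∃ u' q, l = v :: u' :: q ∧ q.length = n ∧ DD Sq v u p u' q) := by
      intro l l' h
      induction h with
      | rel l l' h =>
        constructor
        · rintro v u p rfl hp
          obtain ⟨u', q, h1, h2, h3⟩ := h.shape ax
          exact ⟨u', q, h1, h2.trans hp, h3⟩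
        · rintro v u p rfl hp
          obtain ⟨u', q, h1, h2, h3⟩ := (h.symm ax).shape ax
          exact ⟨u', q, h1, h2.trans hp, h3⟩
      | refl l =>
        constructor <;>
        · rintro v u p rfl hp
          exact ⟨u, p, rfl, hp, Or.inl ⟨rfl, Eqv.refl _⟩⟩
      | symm l l' _ ih => exact ⟨ih.2, ih.1⟩
      | trans l l' l'' _ _ ih1 ih2 =>
        constructor
        · intro v u p hl hp
          obtain ⟨u1, q1, h1, h2, h3⟩ := ih1.1 v u p hl hp
          obtain ⟨u2, q2, k1, k2, k3⟩ := ih2.1 v u1 q1 h1 h2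
          exact ⟨u2, q2, k1, k2, h3.trans ax IH hp k3⟩
        · intro v u p hl hp
          obtain ⟨u1, q1, h1, h2, h3⟩ := ih2.2 v u p hl hp
          obtain ⟨u2, q2, k1, k2, k3⟩ := ih1.2 v u1 q1 h1 h2
          exact ⟨u2, q2, k1, k2, h3.trans ax IH hp k3⟩
    intro v u p u' q hp h
    obtain ⟨u1, q1, h1, h2, h3⟩ := (key _ _ h).1 v u p rfl hp
    simp only [List.cons.injEq, true_and] at h1
    obtain ⟨rfl, rfl⟩ := h1
    exact h3

theorem Eqv.dd (ax : SqAx Sq) {v u : W} {p : List W} {u' : W} {q : List W}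
    (h : Eqv Sq (v :: u :: p) (v :: u' :: q)) : DD Sq v u p u' q :=
  dlemma ax _ v u p u' q rfl h

theorem Flip.head {l l' : List W} (h : Flip Sq l l') : l.head? = l'.head? := by
  cases h <;> rfl

theorem Eqv.head {l l' : List W} (h : Eqv Sq l l') : l.head? = l'.head? := by
  induction h with
  | rel l l' h => exact h.head
  | refl l => rfl
  | symm l l' _ ih => exact ih.symm
  | trans l l' l'' _ _ ih1 ih2 => exact ih1.trans ih2

theorem Eqv.head_eq {v v' : W} {p q : List W} (h : Eqv Sq (v :: p) (v' :: q)) : v = v' := by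
  have := h.head
  simpa using this

theorem Eqv.shape {v u : W} {p l' : List W} (h : Eqv Sq (v :: u :: p) l') :
    ∃ u' q, l' = v :: u' :: q ∧ q.length = p.length := by
  have h1 := h.length
  have h2 := h.head
  match l', h1, h2 with
  | [], h1, _ => simp at h1
  | [a], h1, _ => simp at h1
  | a :: b :: q, h1, h2 =>
    simp at h1 h2
    exact ⟨b, q, by rw [h2], h1.symm⟩

/-- Cancellation. -/
theorem Eqv.cancel (ax : SqAx Sq) {v u : W} {p q : List W}
    (h : Eqv Sq (v :: u :: p) (v :: u :: q)) : Eqv Sq (u :: p) (u :: q) := by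
  rcases h.dd ax with ⟨_, h⟩ | ⟨h, _⟩
  · exact h
  · exact absurd rfl h

/-- The path contains a backtrack. -/
inductive HasBT : List W → Prop
  | here (a b : W) (r : List W) : HasBT (a :: b :: a :: r)
  | cons (x : W) (l : List W) : HasBT l → HasBT (x :: l)

/-- Irreducible paths: no equivalent path has a backtrack. -/
def Irr (Sq : W → W → W → W → Prop) (l : List W) : Prop := ∀ l', Eqv Sq l l' → ¬ HasBT l'

theorem Irr.of_eqv {l l' : List W} (h : Irr Sq l) (e : Eqv Sq l l') : Irr Sq l' :=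
  fun l'' h' => h l'' (e.trans h')

theorem Irr.tail {x : W} {l : List W} (h : Irr Sq (x :: l)) : Irr Sq l :=
  fun l' h' hb => h (x :: l') (h'.cons x) (HasBT.cons x l' hb)

theorem not_irr {l : List W} (h : ¬ Irr Sq l) : ∃ l', Eqv Sq l l' ∧ HasBT l' := by
  unfold Irr at h
  push Not at h
  exact h

theorem not_irr_bt (a b : W) (r : List W) : ¬ Irr Sq (a :: b :: a :: r) :=
  fun h => h _ (Eqv.refl _) (HasBT.here a b r)

theorem irr_single (v : W) : Irr Sq [v] := by
  intro l' h hb
  have h1 := h.length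
  cases hb with
  | here a b r => simp at h1
  | cons x l hb =>
    simp at h1
    subst h1
    cases hb

theorem exchange (ax : SqAx Sq) : ∀ n, ∀ (v u : W) (p : List W), p.length = n →
    Irr Sq (u :: p) → ¬ Irr Sq (v :: u :: p) → ∃ q, Eqv Sq (u :: p) (u :: v :: q) := by
  intro n
  induction n using Nat.strong_induction_on with
  | _ n IH =>
    intro v u p hp hirr hred
    obtain ⟨l', hl', hbt⟩ := not_irr hred
    obtain ⟨u', q', rfl, hlen⟩ := hl'.shape
    have hdd := hl'.dd ax
    cases hbt with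
    | here a b r =>
      rcases hdd with ⟨rfl, e⟩ | ⟨hne, z, s, hs, e1, e2⟩
      · exact ⟨r, e⟩
      · exfalso
        rcases e2.dd ax with ⟨h, _⟩ | ⟨hvz, y, t, hy, f1, f2⟩
        · exact ax.ne hs h
        · -- hs : Sq v u z u', hy : Sq u' v y z
          have : y = u := ax.uniq hy (ax.rot (ax.rot (ax.rot hs)))
          subst this
          exact hirr (y :: z :: y :: t) (e1.trans (f2.cons y)) (HasBT.here y z t)
    | cons x l hb =>
      rcases hdd with ⟨rfl, e⟩ | ⟨hne, z, s, hs, e1, e2⟩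
      · exact absurd hb (hirr _ e)
      · have hzs : Irr Sq (z :: s) := (hirr.of_eqv e1).tail
        have hred' : ¬ Irr Sq (u' :: z :: s) := fun h => h _ e2.symm hb
        have hl1 := e1.length
        simp at hl1
        obtain ⟨t, ht⟩ := IH s.length (by omega) u' z s rfl hzs hred'
        refine ⟨u' :: t, ?_⟩
        refine e1.trans ((ht.cons u).trans ?_)
        -- u :: z :: u' :: t ~ u :: v :: u' :: t
        exact Eqv.sq t (ax.rot (ax.rot (ax.rot hs)) |> fun h => ax.rev h)

/-- The class of a path. -/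
def cls (Sq : W → W → W → W → Prop) (l : List W) : Set (List W) := {l' | Eqv Sq l l'}

theorem cls_eq_iff {l l' : List W} : cls Sq l = cls Sq l' ↔ Eqv Sq l l' := by
  constructor
  · intro h
    have : l' ∈ cls Sq l' := Eqv.refl l'
    rw [← h] at this
    exact this
  · intro h
    ext m
    exact ⟨fun hm => h.symm.trans hm, fun hm => h.trans hm⟩

/-- One step of the action of paths on classes of irreducible paths. -/
def step (Sq : W → W → W → W → Prop) (ξ : Set (List W)) (v : W) : Set (List W) :=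
  {l' | (∃ l ∈ ξ, Irr Sq (v :: l) ∧ Eqv Sq (v :: l) l') ∨
    (∃ l ∈ ξ, ¬ Irr Sq (v :: l) ∧ ∃ u r, Eqv Sq l (u :: v :: r) ∧ Eqv Sq (v :: r) l')}

theorem step_irr {u v : W} {p : List W} (h : Irr Sq (v :: u :: p)) :
    step Sq (cls Sq (u :: p)) v = cls Sq (v :: u :: p) := by
  ext l'
  constructor
  · rintro (⟨l, hl, h1, h2⟩ | ⟨l, hl, h1, _⟩)
    · exact (Eqv.cons v hl).trans h2
    · exact absurd (h.of_eqv (Eqv.cons v hl)) h1
  · intro hl'
    exact Or.inl ⟨u :: p, Eqv.refl _, h, hl'⟩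

theorem step_red (ax : SqAx Sq) {u v : W} {p q : List W} (_h0 : Irr Sq (u :: p))
    (h : Eqv Sq (u :: p) (u :: v :: q)) : step Sq (cls Sq (u :: p)) v = cls Sq (v :: q) := by
  have hred : ¬ Irr Sq (v :: u :: p) := by
    intro hi
    exact (hi.of_eqv (h.cons v)) _ (Eqv.refl _) (HasBT.here v u q)
  ext l'
  constructor
  · rintro (⟨l, hl, h1, h2⟩ | ⟨l, hl, h1, u1, r, h2, h3⟩)
    · exact absurd (h1.of_eqv (Eqv.cons v hl).symm) hred
    · have e : Eqv Sq (u :: v :: q) (u1 :: v :: r) := h.symm.trans (Eqv.trans hl h2)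
      have hu := e.head_eq
      subst hu
      exact (e.cancel ax).trans h3
  · intro hl'
    exact Or.inr ⟨u :: p, Eqv.refl _, hred, u, q, h, hl'⟩

theorem step_cases (ax : SqAx Sq) {u : W} {p : List W} (h0 : Irr Sq (u :: p)) (v : W) :
    (Irr Sq (v :: u :: p) ∧ step Sq (cls Sq (u :: p)) v = cls Sq (v :: u :: p)) ∨
    (¬ Irr Sq (v :: u :: p) ∧ ∃ q, Eqv Sq (u :: p) (u :: v :: q) ∧ Irr Sq (v :: q) ∧
      step Sq (cls Sq (u :: p)) v = cls Sq (v :: q)) := by
  by_cases h : Irr Sq (v :: u :: p)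
  · exact Or.inl ⟨h, step_irr h⟩
  · obtain ⟨q, hq⟩ := exchange ax _ v u p rfl h0 h
    exact Or.inr ⟨h, q, hq, (h0.of_eqv hq).tail, step_red ax h0 hq⟩

/-- `Over Sq ξ v`: the class `ξ` consists of irreducible paths ending at `v`. -/
def Over (Sq : W → W → W → W → Prop) (ξ : Set (List W)) (v : W) : Prop :=
  ∃ p, ξ = cls Sq (v :: p) ∧ Irr Sq (v :: p)

theorem Over.next (ax : SqAx Sq) {ξ : Set (List W)} {u : W} (h : Over Sq ξ u) (v : W) :
    Over Sq (step Sq ξ v) v := by
  obtain ⟨p, rfl, hp⟩ := h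
  rcases step_cases ax hp v with ⟨h1, h2⟩ | ⟨_, q, _, h2, h3⟩
  · exact ⟨_, h2, h1⟩
  · exact ⟨_, h3, h2⟩

theorem Over.back (ax : SqAx Sq) {ξ : Set (List W)} {u : W} (h : Over Sq ξ u) (v : W) :
    step Sq (step Sq ξ v) u = ξ := by
  obtain ⟨p, rfl, hp⟩ := h
  rcases step_cases ax hp v with ⟨h1, h2⟩ | ⟨_, q, hq, h2, h3⟩
  · rw [h2]
    exact step_red ax h1 (Eqv.refl _)
  · rw [h3]
    have : Irr Sq (u :: v :: q) := hp.of_eqv hq
    rw [step_irr this]
    exact (cls_eq_iff.2 hq).symm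

theorem Over.sq (ax : SqAx Sq) {ξ : Set (List W)} {a b c d : W} (h : Over Sq ξ a)
    (hs : Sq a b c d) : step Sq (step Sq ξ b) c = step Sq (step Sq ξ d) c := by
  obtain ⟨p, rfl, hp⟩ := h
  -- the case where `b` extends and `c` reduces
  have case2 : ∀ b d : W, Sq a b c d → Irr Sq (b :: a :: p) → ¬ Irr Sq (c :: b :: a :: p) →
      step Sq (step Sq (cls Sq (a :: p)) b) c = step Sq (step Sq (cls Sq (a :: p)) d) c := by
    intro b d hs h1 h2
    obtain ⟨q, hq⟩ := exchange ax _ c b (a :: p) rfl h1 h2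
    rcases hq.dd ax with ⟨h, _⟩ | ⟨hac, z, r, hz, e1, e2⟩
    · exact absurd h (ax.ne hs)
    · have hzd : z = d := ax.uniq hz (ax.rev (ax.rot hs))
      subst hzd
      rw [step_irr h1, step_red ax h1 hq, step_red ax hp e1]
      have hcq : Irr Sq (c :: q) := (h1.of_eqv hq).tail
      have hcz : Irr Sq (c :: z :: r) := hcq.of_eqv e2
      rw [step_irr hcz]
      exact cls_eq_iff.2 e2
  by_cases hb : Irr Sq (b :: a :: p)
  · by_cases hc : Irr Sq (c :: b :: a :: p)
    · have e : Eqv Sq (c :: b :: a :: p) (c :: d :: a :: p) := Eqv.sq p hs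
      have hc' : Irr Sq (c :: d :: a :: p) := hc.of_eqv e
      rw [step_irr hb, step_irr hc, step_irr hc'.tail, step_irr hc']
      exact cls_eq_iff.2 e
    · exact case2 b d hs hb hc
  · by_cases hd : Irr Sq (d :: a :: p)
    · by_cases hc : Irr Sq (c :: d :: a :: p)
      · exact absurd (hc.of_eqv (Eqv.sq p (ax.rev hs))).tail hb
      · exact (case2 d b (ax.rev hs) hd hc).symm
    · obtain ⟨q, hq⟩ := exchange ax _ b a p rfl hp hb
      obtain ⟨q', hq'⟩ := exchange ax _ d a p rfl hp hd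
      rw [step_red ax hp hq, step_red ax hp hq']
      rcases (hq.symm.trans hq').dd ax with ⟨h, _⟩ | ⟨_, z, r, hz, e1, e2⟩
      · exact absurd h (ax.ne (ax.rot hs))
      · have hzc : z = c := ax.uniq hz hs
        subst hzc
        rw [step_red ax (hp.of_eqv hq).tail e1, step_red ax (hp.of_eqv hq').tail e2]

end

end Pool.Agent.H41
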