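import Pool.Agent.H41.Flag2
import Pool.Agent.H41.Paths

/-! Uniqueness of irreducible edge paths in a CAT(0) cube complex. -/

namespace Pool.Agent.H41

open Set

namespace CubeComplex

variable {ι : Type} {K : CubeComplex ι}

theorem sqAx (hK : IsCAT0 K.dist) : SqAx K.Sq where
  rot h := h.rot
  rev h := h.rev
  ne h := h.ne hK
  uniq h h' := h.uniq hK h'
  cube h12 h23 h31 := cube_cond hK h12 h23 h31

section Transport

variable (K)

/-- A move along an edge of the cube `c`. -/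
def mv (c : ι) (i : Fin 3) (s : (Fin 3 → Bool) × Set (List K.Vtx)) :
    (Fin 3 → Bool) × Set (List K.Vtx) :=
  (fl s.1 i, step K.Sq s.2 (K.vx c (fl s.1 i)))

/-- A conditional move towards the corner `u`. -/
def cm (c : ι) (u : Fin 3 → Bool) (i : Fin 3) (s : (Fin 3 → Bool) × Set (List K.Vtx)) :
    (Fin 3 → Bool) × Set (List K.Vtx) :=
  if s.1 i = u i then s else K.mv c i s

/-- Transport inside the cube `c` towards the corner `u`. -/
def tr (c : ι) (u : Fin 3 → Bool) (s : (Fin 3 → Bool) × Set (List K.Vtx)) :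
    (Fin 3 → Bool) × Set (List K.Vtx) :=
  K.cm c u 2 (K.cm c u 1 (K.cm c u 0 s))

/-- Validity of a pair. -/
def Val (c : ι) (s : (Fin 3 → Bool) × Set (List K.Vtx)) : Prop := Over K.Sq s.2 (K.vx c s.1)

variable {K}

theorem Val.mv (hK : IsCAT0 K.dist) {c : ι} {s : (Fin 3 → Bool) × Set (List K.Vtx)}
    (h : K.Val c s) (i : Fin 3) : K.Val c (K.mv c i s) :=
  Over.next (sqAx hK) h _

theorem Val.cm (hK : IsCAT0 K.dist) {c : ι} {s : (Fin 3 → Bool) × Set (List K.Vtx)}
    (h : K.Val c s) (u : Fin 3 → Bool) (i : Fin 3) : K.Val c (K.cm c u i s) := by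
  unfold CubeComplex.cm
  split_ifs
  · exact h
  · exact h.mv hK i

theorem mv_mv (hK : IsCAT0 K.dist) {c : ι} {s : (Fin 3 → Bool) × Set (List K.Vtx)}
    (h : K.Val c s) (i : Fin 3) : K.mv c i (K.mv c i s) = s := by
  apply Prod.ext
  · exact fl_fl _ _
  · show step K.Sq (step K.Sq s.2 (K.vx c (fl s.1 i))) (K.vx c (fl (fl s.1 i) i)) = s.2
    rw [fl_fl]
    exact Over.back (sqAx hK) h _

theorem mv_comm (hK : IsCAT0 K.dist) {c : ι} {s : (Fin 3 → Bool) × Set (List K.Vtx)}
    (h : K.Val c s) {i j : Fin 3} (hij : i ≠ j) :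
    K.mv c j (K.mv c i s) = K.mv c i (K.mv c j s) := by
  apply Prod.ext
  · exact fl_comm _ _ _
  · show step K.Sq (step K.Sq s.2 (K.vx c (fl s.1 i))) (K.vx c (fl (fl s.1 i) j)) =
      step K.Sq (step K.Sq s.2 (K.vx c (fl s.1 j))) (K.vx c (fl (fl s.1 j) i))
    rw [fl_comm s.1 j i]
    exact Over.sq (sqAx hK) h ⟨c, s.1, i, j, hij, rfl, rfl, rfl, rfl⟩

theorem cm_mv_same (hK : IsCAT0 K.dist) {c : ι} {s : (Fin 3 → Bool) × Set (List K.Vtx)}
    (h : K.Val c s) (u : Fin 3 → Bool) (i : Fin 3) :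
    K.cm c u i (K.mv c i s) = K.cm c u i s := by
  unfold CubeComplex.cm
  have e : (K.mv c i s).1 i = !s.1 i := fl_same _ _
  rw [e]
  by_cases h1 : s.1 i = u i
  · rw [if_pos h1, if_neg, mv_mv hK h]
    rw [h1]; cases u i <;> simp
  · rw [if_neg h1, if_pos]
    cases h2 : s.1 i <;> cases h3 : u i <;> simp_all

theorem cm_mv_ne (hK : IsCAT0 K.dist) {c : ι} {s : (Fin 3 → Bool) × Set (List K.Vtx)}
    (h : K.Val c s) (u : Fin 3 → Bool) {i j : Fin 3} (hij : i ≠ j) :
    K.cm c u j (K.mv c i s) = K.mv c i (K.cm c u j s) := by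
  unfold CubeComplex.cm
  have e : (K.mv c i s).1 j = s.1 j := fl_ne _ hij.symm
  rw [e]
  by_cases h1 : s.1 j = u j
  · rw [if_pos h1, if_pos h1]
  · rw [if_neg h1, if_neg h1, mv_comm hK h hij]

theorem tr_mv (hK : IsCAT0 K.dist) {c : ι} {s : (Fin 3 → Bool) × Set (List K.Vtx)}
    (h : K.Val c s) (u : Fin 3 → Bool) (i : Fin 3) : K.tr c u (K.mv c i s) = K.tr c u s := by
  unfold tr
  have h0 := h.cm hK u 0
  have h1 := h0.cm hK u 1
  fin_cases i
  · show K.cm c u 2 (K.cm c u 1 (K.cm c u 0 (K.mv c 0 s))) = _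
    rw [cm_mv_same hK h]
  · show K.cm c u 2 (K.cm c u 1 (K.cm c u 0 (K.mv c 1 s))) = _
    rw [cm_mv_ne hK h u (by decide), cm_mv_same hK h0]
  · show K.cm c u 2 (K.cm c u 1 (K.cm c u 0 (K.mv c 2 s))) = _
    rw [cm_mv_ne hK h u (by decide), cm_mv_ne hK h0 u (by decide), cm_mv_same hK h1]

theorem cm_self (c : ι) {u : Fin 3 → Bool} {s : (Fin 3 → Bool) × Set (List K.Vtx)}
    (h : s.1 = u) (i : Fin 3) : K.cm c u i s = s := by
  unfold CubeComplex.cm
  rw [if_pos (by rw [h])]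

theorem tr_self (c : ι) {u : Fin 3 → Bool} {s : (Fin 3 → Bool) × Set (List K.Vtx)}
    (h : s.1 = u) : K.tr c u s = s := by
  unfold tr
  rw [cm_self c h, cm_self c h, cm_self c h]

theorem tr_self' (c : ι) (u : Fin 3 → Bool) (ξ : Set (List K.Vtx)) :
    K.tr c u (u, ξ) = (u, ξ) := tr_self c rfl

theorem cm_fst (c : ι) (u : Fin 3 → Bool) (i : Fin 3)
    (s : (Fin 3 → Bool) × Set (List K.Vtx)) (k : Fin 3) :
    (K.cm c u i s).1 k = if k = i then u k else s.1 k := by
  unfold CubeComplex.cm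
  by_cases h : s.1 i = u i
  · rw [if_pos h]
    by_cases hk : k = i
    · subst hk; rw [if_pos rfl, h]
    · rw [if_neg hk]
  · rw [if_neg h]
    show fl s.1 i k = _
    rw [fl_apply]
    by_cases hk : k = i
    · subst hk; rw [if_pos rfl, if_pos rfl]
      cases h2 : s.1 k <;> cases h3 : u k <;> simp_all
    · rw [if_neg hk, if_neg hk]

theorem tr_fst (c : ι) (u : Fin 3 → Bool) (s : (Fin 3 → Bool) × Set (List K.Vtx)) :
    (K.tr c u s).1 = u := by
  funext k
  unfold tr
  rw [cm_fst, cm_fst, cm_fst]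
  fin_cases k <;> simp

theorem Val.tr (hK : IsCAT0 K.dist) {c : ι} {s : (Fin 3 → Bool) × Set (List K.Vtx)}
    (h : K.Val c s) (u : Fin 3 → Bool) : K.Val c (K.tr c u s) :=
  ((h.cm hK u 0).cm hK u 1).cm hK u 2

theorem tr_cm (hK : IsCAT0 K.dist) {c : ι} {s : (Fin 3 → Bool) × Set (List K.Vtx)}
    (h : K.Val c s) (u v : Fin 3 → Bool) (i : Fin 3) :
    K.tr c v (K.cm c u i s) = K.tr c v s := by
  unfold CubeComplex.cm
  split_ifs
  · rfl
  · exact tr_mv hK h v i

theorem tr_tr (hK : IsCAT0 K.dist) {c : ι} {s : (Fin 3 → Bool) × Set (List K.Vtx)}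
    (h : K.Val c s) (u v : Fin 3 → Bool) : K.tr c v (K.tr c u s) = K.tr c v s := by
  have h0 := h.cm hK u 0
  have h1 := h0.cm hK u 1
  rw [show K.tr c u s = K.cm c u 2 (K.cm c u 1 (K.cm c u 0 s)) from rfl, tr_cm hK h1,
    tr_cm hK h0, tr_cm hK h]

/-- Transport does not depend on the cube. -/
theorem tr_glue (hK : IsCAT0 K.dist) {c c' : ι} (g : CubeSym) {w u : Fin 3 → Bool}
    (hg : ∀ z, (∀ k, w k = u k → z k = w k) → K.vx c z = K.vx c' (g.actB z)) :
    ∀ (n : ℕ) (z : Fin 3 → Bool) (ξ : Set (List K.Vtx)),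
      (Finset.univ.filter (fun k => z k ≠ u k)).card = n →
      (∀ k, w k = u k → z k = w k) → Over K.Sq ξ (K.vx c z) →
      (K.tr c u (z, ξ)).2 = (K.tr c' (g.actB u) (g.actB z, ξ)).2 := by
  intro n
  induction n with
  | zero =>
    intro z ξ hn hz hξ
    have hzu : z = u := by
      funext k
      by_contra hne
      have : k ∈ Finset.univ.filter (fun k => z k ≠ u k) := by simp [hne]
      rw [Finset.card_eq_zero.1 hn] at this
      simp at this
    subst hzu
    rw [tr_self', tr_self']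
  | succ n ih =>
    intro z ξ hn hz hξ
    obtain ⟨i, hi⟩ : ∃ i, i ∈ Finset.univ.filter (fun k => z k ≠ u k) := by
      apply Finset.Nonempty.exists_mem
      rw [← Finset.card_pos]; omega
    have hi' : z i ≠ u i := by simpa using hi
    have hz' : ∀ k, w k = u k → fl z i k = w k := by
      intro k hk
      have h1 := hz k hk
      have : k ≠ i := by rintro rfl; exact hi' (h1.trans hk)
      rw [fl_ne z this]; exact h1
    have hcard : (Finset.univ.filter (fun k => fl z i k ≠ u k)).card = n := by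
      have : Finset.univ.filter (fun k => fl z i k ≠ u k) =
          (Finset.univ.filter (fun k => z k ≠ u k)).erase i := by
        ext k
        simp only [Finset.mem_filter, Finset.mem_univ, true_and, Finset.mem_erase]
        by_cases hk : k = i
        · subst hk
          rw [fl_same]
          cases h2 : z k <;> cases h3 : u k <;> simp_all
        · rw [fl_ne z hk]; simp [hk]
      rw [this, Finset.card_erase_of_mem hi, hn]; rfl
    have hv : K.Val c (z, ξ) := hξ
    have hv' : K.Val c' (g.actB z, ξ) := by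
      show Over K.Sq ξ (K.vx c' (g.actB z))
      rw [← hg z hz]; exact hξ
    have h1 := tr_mv hK hv u i
    have h2 := tr_mv hK hv' (g.actB u) (g.perm.symm i)
    have h3 : K.mv c i (z, ξ) = (fl z i, step K.Sq ξ (K.vx c (fl z i))) := rfl
    have h4 : K.mv c' (g.perm.symm i) (g.actB z, ξ) =
        (g.actB (fl z i), step K.Sq ξ (K.vx c (fl z i))) := by
      rw [hg _ hz', actB_fl]; rfl
    rw [← h1, ← h2, h3, h4]
    exact ih (fl z i) _ hcard hz' (Over.next (sqAx hK) hξ _)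

open Classical in
/-- Transport between two vertices of a common cube. -/
noncomputable def TT (K : CubeComplex ι) (u v : K.Vtx) (ξ : Set (List K.Vtx)) :
    Set (List K.Vtx) :=
  if h : ∃ a : ι × (Fin 3 → Bool) × (Fin 3 → Bool), K.vx a.1 a.2.1 = u ∧ K.vx a.1 a.2.2 = v then
    (K.tr h.choose.1 h.choose.2.2 (h.choose.2.1, ξ)).2
  else ξ

theorem TT_eq (hK : IsCAT0 K.dist) {c : ι} {w w' : Fin 3 → Bool} {ξ : Set (List K.Vtx)}
    (hξ : Over K.Sq ξ (K.vx c w)) :
    K.TT (K.vx c w) (K.vx c w') ξ = (K.tr c w' (w, ξ)).2 := by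
  have h : ∃ a : ι × (Fin 3 → Bool) × (Fin 3 → Bool),
      K.vx a.1 a.2.1 = K.vx c w ∧ K.vx a.1 a.2.2 = K.vx c w' := ⟨(c, w, w'), rfl, rfl⟩
  unfold TT
  rw [dif_pos h]
  obtain ⟨h1, h2⟩ := h.choose_spec
  obtain ⟨g, g1, g2, g3⟩ := cell_glue' hK h1 h2
  have := tr_glue hK g g3 _ h.choose.2.1 ξ rfl (fun k _ => rfl) (by rw [h1]; exact hξ)
  rw [this, g1, g2]

end Transport

/-! ### Supports and nearest vertices -/

/-- The vertex `v` is a vertex of the support of the point `x`. -/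
def InSupp (K : CubeComplex ι) (x : K.Point) (v : K.Vtx) : Prop :=
  ∃ c y w, K.pt c y = x ∧ K.vx c w = v ∧ InFace y (corner w)

theorem InSupp.rep {x : K.Point} {v : K.Vtx} (h : K.InSupp x v) {c : ι} {y : unitCube}
    (hy : K.pt c y = x) : ∃ w, K.vx c w = v := by
  obtain ⟨c', y', w', h1, h2, h3⟩ := h
  obtain ⟨g, _, hg⟩ := K.pt_glue (h1.trans hy.symm)
  refine ⟨g.actB w', ?_⟩
  rw [← h2]
  apply Subtype.ext
  show K.pt c (corner (g.actB w')) = K.pt c' (corner w')
  rw [← act_corner, ← hg _ h3]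

theorem TT_cocycle (hK : IsCAT0 K.dist) {x : K.Point} {u v z : K.Vtx} (hu : K.InSupp x u)
    (hv : K.InSupp x v) (hz : K.InSupp x z) {ξ : Set (List K.Vtx)} (hξ : Over K.Sq ξ u) :
    K.TT v z (K.TT u v ξ) = K.TT u z ξ := by
  obtain ⟨c, y, hy⟩ := K.exists_rep x
  obtain ⟨wu, rfl⟩ := hu.rep hy
  obtain ⟨wv, rfl⟩ := hv.rep hy
  obtain ⟨wz, rfl⟩ := hz.rep hy
  have hV : K.Val c (wu, ξ) := hξ
  have h1 : K.tr c wv (wu, ξ) = (wv, (K.tr c wv (wu, ξ)).2) := by
    apply Prod.ext
    · exact tr_fst _ _ _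
    · rfl
  have h2 : Over K.Sq (K.tr c wv (wu, ξ)).2 (K.vx c wv) := by
    have := hV.tr hK wv
    unfold Val at this
    rw [tr_fst] at this
    exact this
  rw [TT_eq hK hξ, TT_eq hK h2, TT_eq hK hξ, ← h1, tr_tr hK hV]

theorem TT_over (hK : IsCAT0 K.dist) {x : K.Point} {u v : K.Vtx} (hu : K.InSupp x u)
    (hv : K.InSupp x v) {ξ : Set (List K.Vtx)} (hξ : Over K.Sq ξ u) :
    Over K.Sq (K.TT u v ξ) v := by
  obtain ⟨c, y, hy⟩ := K.exists_rep x
  obtain ⟨wu, rfl⟩ := hu.rep hy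
  obtain ⟨wv, rfl⟩ := hv.rep hy
  have hV : K.Val c (wu, ξ) := hξ
  rw [TT_eq hK hξ]
  have := hV.tr hK wv
  unfold Val at this
  rw [tr_fst] at this
  exact this

theorem TT_self (hK : IsCAT0 K.dist) {u : K.Vtx} {ξ : Set (List K.Vtx)}
    (hξ : Over K.Sq ξ u) : K.TT u u ξ = ξ := by
  obtain ⟨c, w, rfl⟩ := exists_vx u
  rw [TT_eq hK hξ, tr_self']

theorem TT_adj (hK : IsCAT0 K.dist) {u v : K.Vtx} (h : K.Adj u v) {ξ : Set (List K.Vtx)}
    (hξ : Over K.Sq ξ u) : K.TT u v ξ = step K.Sq ξ v := by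
  obtain ⟨c, w, i, rfl, rfl⟩ := h
  have hV : K.Val c (w, ξ) := hξ
  rw [TT_eq hK hξ, ← tr_mv hK hV (fl w i) i]
  have : K.mv c i (w, ξ) = (fl w i, step K.Sq ξ (K.vx c (fl w i))) := rfl
  rw [this, tr_self']

theorem exists_near (x : K.Point) : ∃ c y w, K.pt c y = x ∧
    ∀ i, |y.1 i - (corner w).1 i| ≤ 1 / 2 := by
  classical
  obtain ⟨c, y, hy⟩ := K.exists_rep x
  refine ⟨c, y, fun i => decide (1 / 2 ≤ y.1 i), hy, ?_⟩
  intro i
  have := y.2 i
  rw [corner_apply, abs_le]
  by_cases h : 1 / 2 ≤ y.1 i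
  · simp only [h, decide_true, if_true]
    constructor <;> linarith [this.1, this.2]
  · simp only [h, decide_false]
    push Not at h
    constructor <;> simp <;> linarith [this.1, this.2]

/-- A nearest vertex. -/
noncomputable def nu (x : K.Point) : K.Vtx :=
  K.vx (exists_near x).choose (exists_near x).choose_spec.choose_spec.choose

theorem nu_spec (x : K.Point) : ∃ c y w, K.pt c y = x ∧
    (∀ i, |y.1 i - (corner w).1 i| ≤ 1 / 2) ∧ K.vx c w = nu x :=
  ⟨_, _, _, (exists_near x).choose_spec.choose_spec.choose_spec.1,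
    (exists_near x).choose_spec.choose_spec.choose_spec.2, rfl⟩

theorem inFace_of_sup {y : unitCube} {w : Fin 3 → Bool}
    (h : ∀ i, |y.1 i - (corner w).1 i| < 1) : InFace y (corner w) := by
  intro i
  have := h i
  rw [corner_apply] at this ⊢
  cases hw : w i
  · simp only [hw] at this ⊢
    constructor
    · intro _; simp
    · intro h1; rw [h1] at this; simp at this
  · simp only [hw] at this ⊢
    constructor
    · intro h1; rw [h1] at this; simp at this
    · intro _; simp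

theorem sup_string {x x' : K.Point} {L : ℝ} (h : K.Str x' x L) {c0 : ι} {y0 : unitCube}
    {w0 : Fin 3 → Bool} {v : K.Vtx} (hx : x = K.pt c0 y0) (hv : v = K.vx c0 w0) {r : ℝ}
    (hr : ∀ i, |y0.1 i - (corner w0).1 i| ≤ r) (hrL : r + L < 1) :
    ∃ c y w, K.pt c y = x' ∧ K.vx c w = v ∧ ∀ i, |y.1 i - (corner w).1 i| ≤ r + L := by
  induction h with
  | refl p => exact ⟨c0, y0, w0, hx.symm, hv.symm, by simpa using hr⟩
  | cons c a b q L h ih =>
    have hnn : 0 ≤ Dist.dist a.1 b.1 := dist_nonneg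
    obtain ⟨c1, y1, w1, h1, h2, h3⟩ := ih hx (by linarith)
    have hf : InFace y1 (corner w1) := inFace_of_sup (fun i => by
      have := h3 i; linarith)
    obtain ⟨g, hg1, hg2⟩ := K.pt_glue h1
    refine ⟨c, a, g.actB w1, rfl, ?_, ?_⟩
    · rw [← h2]
      apply Subtype.ext
      show K.pt c (corner (g.actB w1)) = K.pt c1 (corner w1)
      rw [← act_corner, ← hg2 _ hf]
    · intro i
      have e1 : |b.1 i - (corner (g.actB w1)).1 i| ≤ r + L := by
        rw [← hg1, ← act_corner, act_apply, act_apply]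
        have := h3 (g.perm i)
        split_ifs
        · have e : 1 - y1.1 (g.perm i) - (1 - (corner w1).1 (g.perm i)) =
              -(y1.1 (g.perm i) - (corner w1).1 (g.perm i)) := by ring
          rw [e, abs_neg]; exact this
        · exact this
      have e2 := coord_le_dist a.1 b.1 i
      have e3 := abs_sub_le (a.1 i) (b.1 i) ((corner (g.actB w1)).1 i)
      linarith

theorem nu_inSupp (x : K.Point) : K.InSupp x (nu x) := by
  obtain ⟨c, y, w, h1, h2, h3⟩ := nu_spec x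
  exact ⟨c, y, w, h1, h3, inFace_of_sup (fun i => by have := h2 i; linarith)⟩

theorem nu_near (hK : IsCAT0 K.dist) {x y : K.Point} (h : K.dist x y < 1 / 2) :
    K.InSupp x (nu y) := by
  obtain ⟨c, y', w, h1, h2, h3⟩ := nu_spec y
  obtain ⟨L, hL, hstr⟩ := exists_str_lt hK h
  obtain ⟨c', z, w', k1, k2, k3⟩ := sup_string hstr h1.symm h3.symm h2 (by linarith)
  exact ⟨c', z, w', k1, k2, inFace_of_sup (fun i => by have := k3 i; linarith)⟩

theorem nu_eq {c : ι} {y : unitCube} {w : Fin 3 → Bool}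
    (h : ∀ i, |y.1 i - (corner w).1 i| < 1 / 2) : nu (K.pt c y) = K.vx c w := by
  obtain ⟨c', y', w', h1, h2, h3⟩ := nu_spec (K.pt c y)
  obtain ⟨g, hg1, hg2⟩ := K.pt_glue h1
  have hf : InFace y' (corner w') := inFace_of_sup (fun i => by have := h2 i; linarith)
  have e1 := hg2 _ hf
  rw [act_corner] at e1
  have : g.actB w' = w := by
    funext i
    have a1 := h i
    have a2 := h2 (g.perm i)
    have a3 : |y.1 i - (corner (g.actB w')).1 i| ≤ 1 / 2 := by
      rw [← hg1, ← act_corner, act_apply, act_apply]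
      split_ifs
      · have e : 1 - y'.1 (g.perm i) - (1 - (corner w').1 (g.perm i)) =
            -(y'.1 (g.perm i) - (corner w').1 (g.perm i)) := by ring
        rw [e, abs_neg]; exact a2
      · exact a2
    have a4 := abs_sub_le ((corner (g.actB w')).1 i) (y.1 i) ((corner w).1 i)
    rw [abs_sub_comm ((corner (g.actB w')).1 i) (y.1 i)] at a4
    have a5 : |(corner (g.actB w')).1 i - (corner w).1 i| < 1 := by linarith
    rw [corner_apply, corner_apply] at a5
    cases hw : w i <;> cases hw' : g.actB w' i <;> simp [hw, hw'] at a5 ⊢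
  rw [← h3]
  apply Subtype.ext
  show K.pt c' (corner w') = K.pt c (corner w)
  rw [e1, this]

end CubeComplex

end Pool.Agent.H41
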