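import Pool.Agent.H41.Cover

/-! Uniqueness of irreducible edge paths in a CAT(0) cube complex, by geodesic contraction. -/

namespace Pool.Agent.H41

open Set

/-- Edge paths starting at `v0` (written backwards, so that the head is the endpoint). -/
inductive Path {W : Type} (Adj : W → W → Prop) (v0 : W) : List W → Prop
  | base : Path Adj v0 [v0]
  | step (u v : W) (p : List W) : Path Adj v0 (u :: p) → Adj u v → Path Adj v0 (v :: u :: p)

namespace CubeComplex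

variable {ι : Type} {K : CubeComplex ι}

/-- The point dividing the geodesic from `x0` to `y` in the ratio `s : 1 - s`. -/
noncomputable def gp (hK : IsCAT0 K.dist) (x0 y : K.Point) (s : ℝ) : K.Point :=
  open Classical in
  if hs : s ∈ Icc (0 : ℝ) 1 then (hK.exists_between (isMet hK) x0 y hs).choose else x0

theorem gp_spec (hK : IsCAT0 K.dist) (x0 y : K.Point) {s : ℝ} (hs : s ∈ Icc (0 : ℝ) 1) :
    K.dist x0 (gp hK x0 y s) = s * K.dist x0 y ∧
      K.dist y (gp hK x0 y s) = (1 - s) * K.dist x0 y := by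
  unfold gp
  rw [dif_pos hs]
  exact (hK.exists_between (isMet hK) x0 y hs).choose_spec

theorem gp_same (hK : IsCAT0 K.dist) (x0 y : K.Point) {s t : ℝ} (hs : s ∈ Icc (0 : ℝ) 1)
    (ht : t ∈ Icc (0 : ℝ) 1) :
    K.dist (gp hK x0 y s) (gp hK x0 y t) = |s - t| * K.dist x0 y := by
  have hm := isMet hK
  obtain ⟨γ, hγ⟩ := hK.1 x0 y
  have h1 := gp_spec hK x0 y hs
  have h2 := gp_spec hK x0 y ht
  rw [hK.eq_geod hm hγ hs h1.1 h1.2, hK.eq_geod hm hγ ht h2.1 h2.2]
  have hd := hm.nonneg x0 y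
  rw [hγ.2.2 _ ⟨mul_nonneg hs.1 hd, by nlinarith [hs.2]⟩ _
    ⟨mul_nonneg ht.1 hd, by nlinarith [ht.2]⟩, ← sub_mul, abs_mul, abs_of_nonneg hd]

theorem gp_contract (hK : IsCAT0 K.dist) (x0 y y' : K.Point) {s : ℝ}
    (hs : s ∈ Icc (0 : ℝ) 1) :
    K.dist (gp hK x0 y s) (gp hK x0 y' s) ≤ s * K.dist y y' := by
  have h1 := gp_spec hK x0 y hs
  have h2 := gp_spec hK x0 y' hs
  exact hK.contract (isMet hK) hs h1.1 h1.2 h2.1 h2.2

theorem gp_zero (hK : IsCAT0 K.dist) (x0 y : K.Point) : gp hK x0 y 0 = x0 := by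
  have h1 := gp_spec hK x0 y (s := 0) ⟨le_rfl, zero_le_one⟩
  have : K.dist x0 (gp hK x0 y 0) = 0 := by rw [h1.1, zero_mul]
  exact (hK.eq_of_dist this).symm

theorem gp_one (hK : IsCAT0 K.dist) (x0 y : K.Point) : gp hK x0 y 1 = y := by
  have h1 := gp_spec hK x0 y (s := 1) ⟨zero_le_one, le_rfl⟩
  have : K.dist y (gp hK x0 y 1) = 0 := by rw [h1.2, sub_self, zero_mul]
  exact (hK.eq_of_dist this).symm

theorem gp_base (hK : IsCAT0 K.dist) (x0 : K.Point) {s : ℝ} (hs : s ∈ Icc (0 : ℝ) 1) :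
    gp hK x0 x0 s = x0 := by
  have h1 := gp_spec hK x0 x0 hs
  have : K.dist x0 (gp hK x0 x0 s) = 0 := by rw [h1.1, (isMet hK).self, mul_zero]
  exact (hK.eq_of_dist this).symm

/-- The transport along the geodesic from `x0` to `y`, subdivided in `N` pieces. -/
noncomputable def SS (hK : IsCAT0 K.dist) (x0 y : K.Point) (N : ℕ) (ξ : Set (List K.Vtx)) :
    ℕ → Set (List K.Vtx)
  | 0 => ξ
  | j + 1 => K.TT (nu (gp hK x0 y ((j : ℝ) / N))) (nu (gp hK x0 y (((j + 1 : ℕ) : ℝ) / N)))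
      (SS hK x0 y N ξ j)

section Ladder

variable (hK : IsCAT0 K.dist) {x0 : K.Point} {N : ℕ} (hN : 0 < N)
  (hM : ∀ y, K.dist x0 y ≤ (N : ℝ) / 8)

include hN

theorem frac_mem {j : ℕ} (hj : j ≤ N) : ((j : ℝ) / N) ∈ Icc (0 : ℝ) 1 := by
  have hN' : (0 : ℝ) < N := by exact_mod_cast hN
  refine ⟨by positivity, ?_⟩
  rw [div_le_one hN']
  exact_mod_cast hj

include hM

theorem gp_step (y : K.Point) {j : ℕ} (hj : j + 1 ≤ N) :
    K.dist (gp hK x0 y ((j : ℝ) / N)) (gp hK x0 y (((j + 1 : ℕ) : ℝ) / N)) ≤ 1 / 8 := by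
  have hN' : (0 : ℝ) < N := by exact_mod_cast hN
  rw [gp_same hK x0 y (frac_mem hN (by omega)) (frac_mem hN hj)]
  have : |(j : ℝ) / N - ((j + 1 : ℕ) : ℝ) / N| = 1 / N := by
    rw [← sub_div, abs_div, abs_of_pos hN']
    push_cast
    congr 1
    rw [abs_sub_comm]
    simp
  rw [this]
  have := hM y
  rw [div_mul_eq_mul_div, one_mul, div_le_iff₀ hN']
  linarith

theorem SS_over (y : K.Point) {ξ : Set (List K.Vtx)} (hξ : Over K.Sq ξ (nu x0)) :
    ∀ j, j ≤ N → Over K.Sq (SS hK x0 y N ξ j) (nu (gp hK x0 y ((j : ℝ) / N))) := by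
  intro j
  induction j with
  | zero =>
    intro _
    simp only [Nat.cast_zero, zero_div, gp_zero]
    exact hξ
  | succ j ih =>
    intro hj
    have h1 := gp_step hK hN hM y hj
    exact TT_over hK (nu_inSupp _) (nu_near hK (by linarith)) (ih (by omega))

theorem ladder {y y' : K.Point} (hyy : K.dist y y' ≤ 1 / 3) {ξ : Set (List K.Vtx)}
    (hξ : Over K.Sq ξ (nu x0)) : ∀ j, j ≤ N →
    K.TT (nu (gp hK x0 y ((j : ℝ) / N))) (nu (gp hK x0 y' ((j : ℝ) / N)))
      (SS hK x0 y N ξ j) = SS hK x0 y' N ξ j := by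
  have hm := isMet hK
  intro j
  induction j with
  | zero =>
    intro _
    simp only [Nat.cast_zero, zero_div, gp_zero]
    exact TT_self hK hξ
  | succ j ih =>
    intro hj
    have hj0 : j ≤ N := by omega
    have a1 := gp_step hK hN hM y hj
    have a2 := gp_step hK hN hM y' hj
    have b1 : K.dist (gp hK x0 y ((j : ℝ) / N)) (gp hK x0 y' ((j : ℝ) / N)) ≤ 1 / 3 := by
      have h1 := gp_contract hK x0 y y' (frac_mem hN hj0)
      have h2 := frac_mem hN hj0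
      have h3 := hm.nonneg y y'
      nlinarith [h2.1, h2.2]
    have c1 : K.dist (gp hK x0 y ((j : ℝ) / N)) (gp hK x0 y' (((j + 1 : ℕ) : ℝ) / N)) ≤
        1 / 3 + 1 / 8 := by
      have := hm.tri (gp hK x0 y ((j : ℝ) / N)) (gp hK x0 y' ((j : ℝ) / N))
        (gp hK x0 y' (((j + 1 : ℕ) : ℝ) / N))
      linarith
    have hov := SS_over hK hN hM y hξ j hj0
    have e1 := TT_cocycle hK (nu_inSupp (gp hK x0 y ((j : ℝ) / N)))
      (nu_near hK (show K.dist _ (gp hK x0 y (((j + 1 : ℕ) : ℝ) / N)) < 1 / 2 by linarith))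
      (nu_near hK (show K.dist _ (gp hK x0 y' (((j + 1 : ℕ) : ℝ) / N)) < 1 / 2 by linarith))
      hov
    have e2 := TT_cocycle hK (nu_inSupp (gp hK x0 y ((j : ℝ) / N)))
      (nu_near hK (show K.dist _ (gp hK x0 y' ((j : ℝ) / N)) < 1 / 2 by linarith))
      (nu_near hK (show K.dist _ (gp hK x0 y' (((j + 1 : ℕ) : ℝ) / N)) < 1 / 2 by linarith))
      hov
    show K.TT _ _ (K.TT _ _ (SS hK x0 y N ξ j)) = K.TT _ _ (SS hK x0 y' N ξ j)
    rw [e1, ← e2, ih hj0]

theorem SS_near {y y' : K.Point} (hyy : K.dist y y' ≤ 1 / 3) {ξ : Set (List K.Vtx)}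
    (hξ : Over K.Sq ξ (nu x0)) :
    K.TT (nu y) (nu y') (SS hK x0 y N ξ N) = SS hK x0 y' N ξ N := by
  have hN' : (N : ℝ) ≠ 0 := by
    have : (0 : ℝ) < N := by exact_mod_cast hN
    exact this.ne'
  have := ladder hK hN hM hyy hξ N le_rfl
  rwa [div_self hN', gp_one, gp_one] at this

theorem SS_over' (y : K.Point) {ξ : Set (List K.Vtx)} (hξ : Over K.Sq ξ (nu x0)) :
    Over K.Sq (SS hK x0 y N ξ N) (nu y) := by
  have hN' : (N : ℝ) ≠ 0 := by
    have : (0 : ℝ) < N := by exact_mod_cast hN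
    exact this.ne'
  have := SS_over hK hN hM y hξ N le_rfl
  rwa [div_self hN', gp_one] at this

theorem SS_base {ξ : Set (List K.Vtx)} (hξ : Over K.Sq ξ (nu x0)) :
    ∀ j, j ≤ N → SS hK x0 x0 N ξ j = ξ := by
  intro j
  induction j with
  | zero => intro _; rfl
  | succ j ih =>
    intro hj
    show K.TT (nu (gp hK x0 x0 ((j : ℝ) / N))) (nu (gp hK x0 x0 (((j + 1 : ℕ) : ℝ) / N)))
      (SS hK x0 x0 N ξ j) = ξ
    rw [ih (by omega), gp_base hK x0 (frac_mem hN (by omega)), gp_base hK x0 (frac_mem hN hj)]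
    exact TT_self hK hξ

/-- Transport along an edge. -/
theorem SS_edge {a b : K.Vtx} (h : K.Adj a b) {ξ : Set (List K.Vtx)}
    (hξ : Over K.Sq ξ (nu x0)) :
    SS hK x0 b.1 N ξ N = step K.Sq (SS hK x0 a.1 N ξ N) b := by
  obtain ⟨c, w, i, rfl, rfl⟩ := h
  have m0 : (0 : ℝ) ∈ Icc (0 : ℝ) 1 := ⟨le_rfl, zero_le_one⟩
  have m1 : (1 / 3 : ℝ) ∈ Icc (0 : ℝ) 1 := ⟨by norm_num, by norm_num⟩
  have m2 : (2 / 3 : ℝ) ∈ Icc (0 : ℝ) 1 := ⟨by norm_num, by norm_num⟩
  have m3 : (1 : ℝ) ∈ Icc (0 : ℝ) 1 := ⟨zero_le_one, le_rfl⟩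
  set y : ℝ → K.Point := fun t => K.pt c (seg (corner w) (corner (fl w i)) t) with hy
  have hlen : Dist.dist (corner w).1 (corner (fl w i)).1 ≤ 1 := by
    apply (abs_le_of_sq_le_sq' _ (by norm_num : (0:ℝ) ≤ 1)).2
    rw [eucl_dist_sq]
    have : ∀ k, ((corner w).1 k - (corner (fl w i)).1 k) ^ 2 = if k = i then 1 else 0 := by
      intro k
      rw [corner_apply, corner_apply, fl_apply]
      by_cases hk : k = i
      · rw [if_pos hk, if_pos hk]; cases w k <;> norm_num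
      · rw [if_neg hk, if_neg hk]; ring
    simp only [this, Finset.sum_ite_eq', Finset.mem_univ, if_true]
    norm_num
  have hd : ∀ s t : ℝ, s ∈ Icc (0 : ℝ) 1 → t ∈ Icc (0 : ℝ) 1 → |s - t| ≤ 1 / 3 →
      K.dist (y s) (y t) ≤ 1 / 3 := by
    intro s t hs ht hst
    rw [hy]
    show K.dist (K.pt c _) (K.pt c _) ≤ _
    rw [dist_pt hK, dist_seg_seg _ _ hs ht]
    have := abs_nonneg (s - t)
    nlinarith [dist_nonneg (x := (corner w).1) (y := (corner (fl w i)).1)]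
  have y0 : y 0 = (K.vx c w).1 := by rw [hy]; show K.pt c _ = _; rw [seg_zero]; rfl
  have y3 : y 1 = (K.vx c (fl w i)).1 := by rw [hy]; show K.pt c _ = _; rw [seg_one]; rfl
  have n0 : nu (y 0) = K.vx c w := by
    rw [y0]; exact nu_eq (fun k => by simp)
  have n3 : nu (y 1) = K.vx c (fl w i) := by
    rw [y3]; exact nu_eq (fun k => by simp)
  have n1 : nu (y (1 / 3)) = K.vx c w := by
    apply nu_eq
    intro k
    rw [seg_apply _ _ m1, corner_apply, corner_apply, fl_apply]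
    by_cases hk : k = i
    · rw [if_pos hk]; cases w k <;> norm_num [abs_lt]
    · rw [if_neg hk]; cases w k <;> norm_num [abs_lt]
  have n2 : nu (y (2 / 3)) = K.vx c (fl w i) := by
    apply nu_eq
    intro k
    rw [seg_apply _ _ m2, corner_apply, corner_apply, fl_apply]
    by_cases hk : k = i
    · rw [if_pos hk]; cases w k <;> norm_num [abs_lt]
    · rw [if_neg hk]; cases w k <;> norm_num [abs_lt]
  have e1 := SS_near hK hN hM (hd 0 (1 / 3) m0 m1 (by norm_num [abs_le])) hξ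
  have e2 := SS_near hK hN hM (hd (1 / 3) (2 / 3) m1 m2 (by norm_num [abs_le])) hξ
  have e3 := SS_near hK hN hM (hd (2 / 3) 1 m2 m3 (by norm_num [abs_le])) hξ
  have o0 := SS_over' hK hN hM (y 0) hξ
  have o1 := SS_over' hK hN hM (y (1 / 3)) hξ
  have o2 := SS_over' hK hN hM (y (2 / 3)) hξ
  rw [n0] at o0
  rw [n1] at o1
  rw [n2] at o2
  rw [n0, n1, TT_self hK o0] at e1
  rw [n1, n2, TT_adj hK ⟨c, w, i, rfl, rfl⟩ o1] at e2
  rw [n2, n3, TT_self hK o2] at e3
  rw [← y0, ← y3, ← e3, ← e2, ← e1]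

/-- Irreducible paths are given by transport along geodesics. -/
theorem cls_path {v0 : K.Vtx} (hx0 : x0 = v0.1) {l : List K.Vtx}
    (hl : Path K.Adj v0 l) (hirr : Irr K.Sq l) :
    ∀ v ∈ l.head?, cls K.Sq l = SS hK x0 v.1 N (cls K.Sq [v0]) N := by
  have hnu : nu x0 = v0 := by
    obtain ⟨c, w, rfl⟩ := exists_vx v0
    rw [hx0]
    exact nu_eq (fun k => by simp)
  have hξ : Over K.Sq (cls K.Sq [v0]) (nu x0) := by
    rw [hnu]
    exact ⟨[], rfl, irr_single v0⟩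
  induction hl with
  | base =>
    intro v hv
    simp at hv
    subst hv
    rw [← hx0, SS_base hK hN hM hξ N le_rfl]
  | step u v p h hadj ih =>
    intro v' hv
    simp at hv
    subst hv
    have ih' := ih hirr.tail u (by simp)
    rw [SS_edge hK hN hM hadj hξ, ← ih', step_irr hirr]

end Ladder

theorem exists_bound [Finite ι] (hK : IsCAT0 K.dist) (x0 : K.Point) :
    ∃ N : ℕ, 0 < N ∧ ∀ y, K.dist x0 y ≤ (N : ℝ) / 8 := by
  have hm := isMet hK
  obtain ⟨M, hM⟩ := (Set.finite_range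
    (fun c : ι => K.dist x0 (K.pt c (corner (fun _ => false))))).bddAbove
  obtain ⟨N, hN⟩ := exists_nat_gt (8 * (M + 2))
  have hN2 : (0 : ℕ) < max N 1 := by omega
  refine ⟨max N 1, hN2, ?_⟩
  intro y
  obtain ⟨c, z, rfl⟩ := K.exists_rep y
  have h1 : K.dist x0 (K.pt c (corner (fun _ => false))) ≤ M := hM ⟨c, rfl⟩
  have h2 : K.dist (K.pt c (corner (fun _ => false))) (K.pt c z) ≤ 2 := by
    refine (dist_pt_le c _ _).trans ?_
    apply (abs_le_of_sq_le_sq' _ (by norm_num : (0:ℝ) ≤ 2)).2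
    rw [eucl_dist_sq]
    have : ∀ k, ((corner (fun _ => false)).1 k - z.1 k) ^ 2 ≤ 1 := by
      intro k
      rw [corner_apply]
      have := z.2 k
      simp
      rw [abs_of_nonneg this.1]
      exact this.2
    calc _ ≤ ∑ _k : Fin 3, (1 : ℝ) := Finset.sum_le_sum (fun k _ => this k)
      _ ≤ 2 ^ 2 := by simp; norm_num
  have h3 := hm.tri x0 (K.pt c (corner (fun _ => false))) (K.pt c z)
  have h4 : (N : ℝ) ≤ ((max N 1 : ℕ) : ℝ) := by exact_mod_cast le_max_left _ _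
  linarith

/-- **Uniqueness of irreducible edge paths.** -/
theorem irr_unique [Finite ι] (hK : IsCAT0 K.dist) {v0 v : K.Vtx} {p q : List K.Vtx}
    (hp : Path K.Adj v0 (v :: p)) (hq : Path K.Adj v0 (v :: q))
    (ip : Irr K.Sq (v :: p)) (iq : Irr K.Sq (v :: q)) : Eqv K.Sq (v :: p) (v :: q) := by
  obtain ⟨N, hN, hM⟩ := exists_bound hK v0.1
  have h1 := cls_path hK hN hM rfl hp ip v (by simp)
  have h2 := cls_path hK hN hM rfl hq iq v (by simp)
  exact cls_eq_iff.1 (h1.trans h2.symm)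

end CubeComplex

end Pool.Agent.H41
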