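import Mathlib

/-!
# CAT(0) complexes built from unit 3-cubes: definitions

All definitions used in the statement of the lattice isoperimetric theorem for
CAT(0) cube complexes of dimension three.
-/

namespace Pool.Agent.H41

/-- Euclidean 3-space. -/
abbrev E3 : Type := EuclideanSpace ℝ (Fin 3)

/-- The closed unit cube `[0,1]^3` in Euclidean 3-space. -/
def unitCube : Set E3 := {x | ∀ i, 0 ≤ x i ∧ x i ≤ 1}

/-- `InFace x y`: the point `y` of the cube lies in the smallest closed face of the cube
containing the point `x`. -/
def InFace (x y : unitCube) : Prop :=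
  ∀ i, (x.1 i = 0 → y.1 i = 0) ∧ (x.1 i = 1 → y.1 i = 1)

/-- A symmetry of the unit cube: permute the coordinates by `perm` and then reflect
(`t ↦ 1 - t`) the coordinates `i` with `refl i = true`.  These are the 48 isometries of
`[0,1]^3`; every isometry between two faces of the cube is the restriction of one of them. -/
structure CubeSym where
  perm : Equiv.Perm (Fin 3)
  refl : Fin 3 → Bool

/-- The action of a symmetry of the cube on the points of the cube. -/
def CubeSym.act (g : CubeSym) (x : unitCube) : unitCube :=
  ⟨WithLp.toLp 2 (fun i => if g.refl i then 1 - x.1 (g.perm i) else x.1 (g.perm i)), by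
    intro i
    have h := x.2 (g.perm i)
    show 0 ≤ (if g.refl i then 1 - x.1 (g.perm i) else x.1 (g.perm i)) ∧
      (if g.refl i then 1 - x.1 (g.perm i) else x.1 (g.perm i)) ≤ 1
    split_ifs <;> constructor <;> linarith [h.1, h.2]⟩

/-- A complex built from unit 3-cubes (one for each index in `ι`) by identifying faces, that is,
an `M₀`-polyhedral complex in the sense of Bridson and Haefliger (Definition I.7.37) all of
whose maximal cells are unit 3-cubes.  `rel` is the relation of identification of points.
* `open_inj`: no two points of the same open face of a cube are identified;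
* `glue`: if `x` in the cube `c` is identified with `x'` in the cube `c'`, then an isometry
  from the smallest face containing `x` to the smallest face containing `x'` takes `x` to `x'`,
  and every point of the first face is identified with its image;
* `distinct`: the interiors of different 3-cubes are not identified, so that `ι` is exactly the
  set of 3-cubes of the complex. -/
structure CubeComplex (ι : Type) where
  rel : Setoid (ι × unitCube)
  open_inj : ∀ c x y, InFace x y → InFace y x → rel (c, x) (c, y) → x = y
  glue : ∀ c x c' x', rel (c, x) (c', x') →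
    ∃ g : CubeSym, g.act x = x' ∧ ∀ y, InFace x y → rel (c, y) (c', g.act y)
  distinct : ∀ c x c' x', (∀ i, 0 < x.1 i ∧ x.1 i < 1) → rel (c, x) (c', x') → c = c'

namespace CubeComplex

variable {ι : Type} (K : CubeComplex ι)

/-- The points of the complex (the underlying set of the space `X`). -/
def Point : Type := Quotient K.rel

/-- The point of the complex represented by the point `x` of the cube `c`. -/
def pt (c : ι) (x : unitCube) : K.Point := Quotient.mk K.rel (c, x)

/-- `K.Str p q L`: there is a string (broken geodesic) of length `L` from `p` to `q`, i.e. a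
finite chain of straight segments, each contained in one cube, of total length `L`. -/
inductive Str : K.Point → K.Point → ℝ → Prop
  | refl (p : K.Point) : Str p p 0
  | cons (c : ι) (x y : unitCube) (q : K.Point) (L : ℝ) :
      Str (K.pt c y) q L → Str (K.pt c x) q (dist x.1 y.1 + L)

/-- The induced length metric: the infimum of the lengths of strings from `p` to `q`. -/
noncomputable def dist (p q : K.Point) : ℝ := sInf {L | K.Str p q L}

/-- The square face `x i = e` (with `e = 1` if `ε` and `e = 0` otherwise) of the cube `c`,
as a set of points of the complex. -/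
def square (f : ι × Fin 3 × Bool) : Set K.Point :=
  {p | ∃ x : unitCube, x.1 f.2.1 = (if f.2.2 then 1 else 0) ∧ p = K.pt f.1 x}

/-- The boundary squares: the squares of the complex that are a face of exactly one cube,
in exactly one way. -/
def boundarySquares : Set (Set K.Point) := {s | ∃! f : ι × Fin 3 × Bool, s = K.square f}

end CubeComplex

/-- `γ` restricted to `[0, d p q]` is a geodesic segment from `p` to `q`. -/
def IsGeodesic {X : Type} (d : X → X → ℝ) (p q : X) (γ : ℝ → X) : Prop :=
  γ 0 = p ∧ γ (d p q) = q ∧
    ∀ s ∈ Set.Icc 0 (d p q), ∀ t ∈ Set.Icc 0 (d p q), d (γ s) (γ t) = |s - t|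

/-- The CAT(0) property of a distance function `d` on a set `X`: any two points are joined by a
geodesic segment, and for every geodesic triangle `p, q, r` and every comparison triangle
`p', q', r'` in the Euclidean plane, two points on the sides `[p,q]` and `[p,r]` are at most
as far apart as the corresponding comparison points. -/
def IsCAT0 {X : Type} (d : X → X → ℝ) : Prop :=
  (∀ p q, ∃ γ, IsGeodesic d p q γ) ∧
  ∀ (p q r : X) (γ δ : ℝ → X), IsGeodesic d p q γ → IsGeodesic d p r δ →
    ∀ p' q' r' : EuclideanSpace ℝ (Fin 2),
      dist p' q' = d p q → dist p' r' = d p r → dist q' r' = d q r →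
      ∀ s ∈ Set.Icc (0 : ℝ) 1, ∀ t ∈ Set.Icc (0 : ℝ) 1,
        d (γ (s * d p q)) (δ (t * d p r)) ≤
          dist (AffineMap.lineMap p' q' s) (AffineMap.lineMap p' r' t)

/-- The unit cube of the cubic lattice with lowest corner `v`. -/
def latticeCube (v : Fin 3 → ℤ) : Set (Fin 3 → ℝ) := {x | ∀ i, v i ≤ x i ∧ x i ≤ v i + 1}

/-- The unit square of the cubic lattice orthogonal to direction `i`, with lowest corner `v`. -/
def latticeSquare (i : Fin 3) (v : Fin 3 → ℤ) : Set (Fin 3 → ℝ) :=
  {x | x i = v i ∧ ∀ j, j ≠ i → v j ≤ x j ∧ x j ≤ v j + 1}

/-- The boundary squares of a finite set `S` of lattice cubes: the unit lattice squares that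
are a face of exactly one cube of `S`. -/
def latticeBoundary (S : Finset (Fin 3 → ℤ)) : Set (Set (Fin 3 → ℝ)) :=
  {s | (∃ i v, s = latticeSquare i v) ∧ ∃! u, u ∈ S ∧ s ⊆ latticeCube u}

end Pool.Agent.H41
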