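import Pool.Agent.H41.CatZero

/-! The length metric of a cube complex: basic facts and the isometric embedding of cubes. -/

namespace Pool.Agent.H41

open Set

theorem coord_le_dist (x y : E3) (i : Fin 3) : |x i - y i| ≤ dist x y := by
  have := PiLp.norm_apply_le (x - y) i
  rw [dist_eq_norm]
  simpa using this

theorem act_apply (g : CubeSym) (x : unitCube) (i : Fin 3) :
    (g.act x).1 i = if g.refl i then 1 - x.1 (g.perm i) else x.1 (g.perm i) := rfl

theorem act_dist (g : CubeSym) (x y : unitCube) :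
    dist (g.act x).1 (g.act y).1 = dist x.1 y.1 := by
  rw [EuclideanSpace.dist_eq, EuclideanSpace.dist_eq]
  congr 1
  rw [← Equiv.sum_comp g.perm (fun i => dist (x.1 i) (y.1 i) ^ 2)]
  refine Finset.sum_congr rfl (fun i _ => ?_)
  rw [act_apply, act_apply, Real.dist_eq, Real.dist_eq, sq_abs, sq_abs]
  split_ifs <;> ring

theorem InFace.refl (x : unitCube) : InFace x x := fun _ => ⟨id, id⟩

theorem InFace.trans {x y z : unitCube} (h : InFace x y) (h' : InFace y z) : InFace x z :=
  fun i => ⟨fun hi => (h' i).1 ((h i).1 hi), fun hi => (h' i).2 ((h i).2 hi)⟩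

theorem InFace.act {x y : unitCube} (g : CubeSym) (h : InFace x y) :
    InFace (g.act x) (g.act y) := by
  intro i
  rw [act_apply, act_apply]
  have := h (g.perm i)
  split_ifs
  · constructor
    · intro h1
      have := this.2 (by linarith); linarith
    · intro h1
      have := this.1 (by linarith); linarith
  · exact this

/-- A number bounding from below the distances of the free coordinates to the ends. -/
def Deep (x : unitCube) (δ : ℝ) : Prop :=
  ∀ i, (x.1 i ≠ 0 → δ ≤ x.1 i) ∧ (x.1 i ≠ 1 → δ ≤ 1 - x.1 i)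

theorem Deep.act {x : unitCube} {δ : ℝ} (g : CubeSym) (h : Deep x δ) : Deep (g.act x) δ := by
  intro i
  rw [act_apply]
  have := h (g.perm i)
  split_ifs
  · constructor
    · intro h1
      exact this.2 (fun h2 => h1 (by linarith))
    · intro h1
      have := this.1 (fun h2 => h1 (by linarith))
      linarith
  · exact this

theorem Deep.inFace {x y : unitCube} {δ : ℝ} (h : Deep x δ) (hxy : dist x.1 y.1 < δ) :
    InFace y x := by
  intro i
  have h1 := coord_le_dist x.1 y.1 i
  constructor
  · intro hy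
    by_contra hx
    have := (h i).1 hx
    rw [hy, sub_zero, abs_of_nonneg (x.2 i).1] at h1
    linarith
  · intro hy
    by_contra hx
    have := (h i).2 hx
    rw [hy] at h1
    have h2 := neg_abs_le (x.1 i - 1)
    linarith

theorem exists_deep (x : unitCube) : ∃ δ, 0 < δ ∧ Deep x δ := by
  have key : ∀ i, ∃ δ, 0 < δ ∧ (x.1 i ≠ 0 → δ ≤ x.1 i) ∧ (x.1 i ≠ 1 → δ ≤ 1 - x.1 i) := by
    intro i
    have hx := x.2 i
    by_cases h0 : x.1 i = 0
    · exact ⟨1, one_pos, fun h => absurd h0 h, fun _ => by linarith⟩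
    · by_cases h1 : x.1 i = 1
      · exact ⟨1, one_pos, fun _ => by linarith, fun h => absurd h1 h⟩
      · have p0 : 0 < x.1 i := lt_of_le_of_ne hx.1 (Ne.symm h0)
        have p1 : x.1 i < 1 := lt_of_le_of_ne hx.2 h1
        exact ⟨min (x.1 i) (1 - x.1 i), lt_min p0 (by linarith), fun _ => min_le_left _ _,
          fun _ => min_le_right _ _⟩
  choose f hf using key
  refine ⟨min (f 0) (min (f 1) (f 2)), lt_min (hf 0).1 (lt_min (hf 1).1 (hf 2).1), ?_⟩
  intro i
  have : min (f 0) (min (f 1) (f 2)) ≤ f i := by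
    fin_cases i
    · exact min_le_left _ _
    · exact (min_le_right _ _).trans (min_le_left _ _)
    · exact (min_le_right _ _).trans (min_le_right _ _)
  exact ⟨fun h => this.trans ((hf i).2.1 h), fun h => this.trans ((hf i).2.2 h)⟩

theorem Deep.mono {x : unitCube} {δ δ' : ℝ} (h : Deep x δ) (h' : δ' ≤ δ) : Deep x δ' :=
  fun i => ⟨fun hi => h'.trans ((h i).1 hi), fun hi => h'.trans ((h i).2 hi)⟩

/-- The set of coordinates equal to `0` or `1`. -/
noncomputable def fixedSet (x : unitCube) : Finset (Fin 3) :=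
  Finset.univ.filter (fun i => x.1 i = 0 ∨ x.1 i = 1)

theorem fixedSet_act (g : CubeSym) (x : unitCube) :
    (fixedSet (g.act x)).card = (fixedSet x).card := by
  rw [← Finset.card_map g.perm.toEmbedding (s := fixedSet (g.act x))]
  congr 1
  ext i
  simp only [fixedSet, Finset.mem_map_equiv, Finset.mem_filter, Finset.mem_univ, true_and]
  rw [act_apply]
  simp only [Equiv.apply_symm_apply]
  split_ifs
  · constructor
    · rintro (h | h)
      · right; linarith
      · left; linarith
    · rintro (h | h)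
      · right; linarith
      · left; linarith
  · rfl

theorem InFace.of_card {x y : unitCube} (h : InFace y x)
    (hc : (fixedSet x).card = (fixedSet y).card) : InFace x y := by
  have hsub : fixedSet y ⊆ fixedSet x := by
    intro i hi
    simp only [fixedSet, Finset.mem_filter, Finset.mem_univ, true_and] at hi ⊢
    rcases hi with hi | hi
    · exact Or.inl ((h i).1 hi)
    · exact Or.inr ((h i).2 hi)
  have heq := Finset.eq_of_subset_of_card_le hsub (le_of_eq hc)
  intro i
  constructor
  · intro hx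
    have : i ∈ fixedSet y := by
      rw [heq]; simp [fixedSet, hx]
    simp only [fixedSet, Finset.mem_filter, Finset.mem_univ, true_and] at this
    rcases this with h1 | h1
    · exact h1
    · have := (h i).2 h1; rw [hx] at this; norm_num at this
  · intro hx
    have : i ∈ fixedSet y := by
      rw [heq]; simp [fixedSet, hx]
    simp only [fixedSet, Finset.mem_filter, Finset.mem_univ, true_and] at this
    rcases this with h1 | h1
    · have := (h i).1 h1; rw [hx] at this; norm_num at this
    · exact h1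

/-- The point of the segment `[x,y]` with parameter `t`, clamped to `[0,1]`. -/
noncomputable def seg (x y : unitCube) (t : ℝ) : unitCube :=
  ⟨AffineMap.lineMap x.1 y.1 (max 0 (min 1 t)), by
    intro i
    have h0 : 0 ≤ max 0 (min 1 t) := le_max_left _ _
    have h1 : max 0 (min 1 t) ≤ 1 := max_le zero_le_one (min_le_left _ _)
    have e : (AffineMap.lineMap x.1 y.1 (max 0 (min 1 t)) : E3) i =
        (1 - max 0 (min 1 t)) * x.1 i + max 0 (min 1 t) * y.1 i := by
      rw [AffineMap.lineMap_apply]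
      simp
      ring
    rw [e]
    have hx := x.2 i
    have hy := y.2 i
    constructor <;> nlinarith [hx.1, hx.2, hy.1, hy.2]⟩

theorem clamp_eq {t : ℝ} (ht : t ∈ Icc (0 : ℝ) 1) : max 0 (min 1 t) = t := by
  rw [min_eq_right ht.2, max_eq_right ht.1]

theorem seg_apply (x y : unitCube) {t : ℝ} (ht : t ∈ Icc (0 : ℝ) 1) (i : Fin 3) :
    (seg x y t).1 i = (1 - t) * x.1 i + t * y.1 i := by
  have : (seg x y t).1 = AffineMap.lineMap x.1 y.1 t := by
    simp only [seg, clamp_eq ht]
  rw [this, AffineMap.lineMap_apply]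
  simp
  ring

theorem seg_val (x y : unitCube) {t : ℝ} (ht : t ∈ Icc (0 : ℝ) 1) :
    (seg x y t).1 = AffineMap.lineMap x.1 y.1 t := by
  simp only [seg, clamp_eq ht]

theorem seg_zero (x y : unitCube) : seg x y 0 = x := by
  apply Subtype.ext
  rw [seg_val x y ⟨le_rfl, zero_le_one⟩]; simp

theorem seg_one (x y : unitCube) : seg x y 1 = y := by
  apply Subtype.ext
  rw [seg_val x y ⟨zero_le_one, le_rfl⟩]; simp

theorem dist_seg_seg (x y : unitCube) {s t : ℝ} (hs : s ∈ Icc (0 : ℝ) 1)
    (ht : t ∈ Icc (0 : ℝ) 1) : dist (seg x y s).1 (seg x y t).1 = |s - t| * dist x.1 y.1 := by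
  rw [seg_val x y hs, seg_val x y ht, dist_lineMap_lineMap, Real.dist_eq]

theorem act_seg (g : CubeSym) (x y : unitCube) {t : ℝ} (ht : t ∈ Icc (0 : ℝ) 1) :
    g.act (seg x y t) = seg (g.act x) (g.act y) t := by
  apply Subtype.ext
  ext i
  rw [act_apply, seg_apply x y ht, seg_apply _ _ ht, act_apply, act_apply]
  split_ifs <;> ring

namespace CubeComplex

variable {ι : Type} (K : CubeComplex ι)

theorem pt_eq_iff {c c' : ι} {x x' : unitCube} :
    K.pt c x = K.pt c' x' ↔ K.rel (c, x) (c', x') := by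
  unfold pt
  exact Quotient.eq

theorem exists_rep (p : K.Point) : ∃ c x, K.pt c x = p := by
  induction p using Quotient.inductionOn with
  | _ a => exact ⟨a.1, a.2, rfl⟩

theorem pt_glue {c c' : ι} {x x' : unitCube} (h : K.pt c x = K.pt c' x') :
    ∃ g : CubeSym, g.act x = x' ∧ ∀ y, InFace x y → K.pt c y = K.pt c' (g.act y) := by
  obtain ⟨g, h1, h2⟩ := K.glue c x c' x' (K.pt_eq_iff.1 h)
  exact ⟨g, h1, fun y hy => K.pt_eq_iff.2 (h2 y hy)⟩

variable {K}

theorem Str.nonneg {p q : K.Point} {L : ℝ} (h : K.Str p q L) : 0 ≤ L := by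
  induction h with
  | refl p => exact le_rfl
  | cons c x y q L h ih => exact add_nonneg dist_nonneg ih

theorem Str.trans {p q r : K.Point} {L M : ℝ} (h : K.Str p q L) (h' : K.Str q r M) :
    K.Str p r (L + M) := by
  induction h with
  | refl p => simpa using h'
  | cons c x y q L h ih =>
    have := Str.cons c x y r (L + M) (ih h')
    rwa [← add_assoc] at this

theorem Str.single (c : ι) (x y : unitCube) : K.Str (K.pt c x) (K.pt c y) (Dist.dist x.1 y.1) := by
  have := Str.cons c x y (K.pt c y) 0 (Str.refl _)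
  rwa [add_zero] at this

theorem Str.symm {p q : K.Point} {L : ℝ} (h : K.Str p q L) : K.Str q p L := by
  induction h with
  | refl p => exact Str.refl p
  | cons c x y q L h ih =>
    have := ih.trans (Str.single c y x)
    rwa [dist_comm y.1 x.1, add_comm] at this

theorem dist_bdd (p q : K.Point) : BddBelow {L | K.Str p q L} :=
  ⟨0, fun _ h => Str.nonneg h⟩

theorem dist_le {p q : K.Point} {L : ℝ} (h : K.Str p q L) : K.dist p q ≤ L :=
  csInf_le (dist_bdd p q) h

theorem conn (hK : IsCAT0 K.dist) (p q : K.Point) : ∃ L, K.Str p q L := by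
  by_contra hcon
  push Not at hcon
  have : K.dist p q = 0 := by
    unfold CubeComplex.dist
    have : {L | K.Str p q L} = ∅ := by
      ext L; simp [hcon L]
    rw [this, Real.sInf_empty]
  have := hK.eq_of_dist this
  subst this
  exact hcon 0 (Str.refl p)

theorem exists_str_lt (hK : IsCAT0 K.dist) {p q : K.Point} {M : ℝ} (h : K.dist p q < M) :
    ∃ L, L < M ∧ K.Str p q L := by
  obtain ⟨L, hL, hlt⟩ := exists_lt_of_csInf_lt (conn hK p q) h
  exact ⟨L, hlt, hL⟩

theorem le_dist (hK : IsCAT0 K.dist) {p q : K.Point} {M : ℝ}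
    (h : ∀ L, K.Str p q L → M ≤ L) : M ≤ K.dist p q :=
  le_csInf (conn hK p q) h

theorem isMet (hK : IsCAT0 K.dist) : IsMet K.dist where
  self p := le_antisymm (dist_le (Str.refl p)) (le_dist hK fun L h => h.nonneg)
  symm p q := le_antisymm (le_dist hK fun L h => dist_le h.symm)
    (le_dist hK fun L h => dist_le h.symm)
  nonneg p q := le_dist hK fun L h => h.nonneg
  tri p q r := by
    apply le_of_forall_pos_le_add
    intro ε hε
    obtain ⟨L, hL, h1⟩ := exists_str_lt hK (show K.dist p q < K.dist p q + ε / 2 by linarith)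
    obtain ⟨M, hM, h2⟩ := exists_str_lt hK (show K.dist q r < K.dist q r + ε / 2 by linarith)
    have := dist_le (h1.trans h2)
    linarith

theorem dist_pt_le (c : ι) (x y : unitCube) : K.dist (K.pt c x) (K.pt c y) ≤ Dist.dist x.1 y.1 :=
  dist_le (Str.single c x y)

/-- A short string ending at `a` starts in a cube containing `a`. -/
theorem short_string {p a : K.Point} {L : ℝ} (h : K.Str p a L) {c0 : ι} {x0 : unitCube}
    (ha : a = K.pt c0 x0) {δ : ℝ} (hδ : Deep x0 δ) (hL : L < δ) :
    ∃ c x y, K.pt c x = a ∧ K.pt c y = p ∧ Dist.dist x.1 y.1 ≤ L ∧ Deep x δ := by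
  induction h with
  | refl p => exact ⟨c0, x0, x0, ha.symm, ha.symm, by simp, hδ⟩
  | cons c u v q L h ih =>
    have hnn : 0 ≤ Dist.dist u.1 v.1 := dist_nonneg
    obtain ⟨c1, x, y, h1, h2, h3, h4⟩ := ih ha (by linarith)
    have hf : InFace y x := h4.inFace (by linarith)
    obtain ⟨g, hg1, hg2⟩ := K.pt_glue h2
    refine ⟨c, g.act x, u, ?_, rfl, ?_, h4.act g⟩
    · rw [← hg2 x hf, h1]
    · have e1 : Dist.dist (g.act x).1 v.1 = Dist.dist x.1 y.1 := by
        rw [← hg1, act_dist]
      have := dist_triangle (g.act x).1 v.1 u.1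
      rw [dist_comm v.1 u.1] at this
      linarith

theorem dist_local (hK : IsCAT0 K.dist) (c : ι) {x y : unitCube} {δ : ℝ} (hδ : Deep x δ)
    (h1 : InFace x y) (h2 : InFace y x) (hxy : Dist.dist x.1 y.1 ≤ δ) :
    K.dist (K.pt c x) (K.pt c y) = Dist.dist x.1 y.1 := by
  apply le_antisymm (dist_pt_le c x y)
  apply le_dist hK
  intro L hL
  by_contra hlt
  push Not at hlt
  obtain ⟨c1, a, b, ha, hb, hab, hda⟩ := short_string hL.symm rfl hδ (lt_of_lt_of_le hlt hxy)
  obtain ⟨g, hg1, hg2⟩ := K.pt_glue ha.symm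
  obtain ⟨g', hg1', hg2'⟩ := K.pt_glue hb.symm
  have hfb : InFace b a := hda.inFace (by linarith)
  have hcard : (fixedSet a).card = (fixedSet b).card := by
    rw [← hg1, ← hg1', fixedSet_act, fixedSet_act]
    apply le_antisymm
    · apply Finset.card_le_card
      intro i hi
      simp only [fixedSet, Finset.mem_filter, Finset.mem_univ, true_and] at hi ⊢
      exact hi.imp (h1 i).1 (h1 i).2
    · apply Finset.card_le_card
      intro i hi
      simp only [fixedSet, Finset.mem_filter, Finset.mem_univ, true_and] at hi ⊢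
      exact hi.imp (h2 i).1 (h2 i).2
  have hfa : InFace a b := hfb.of_card hcard
  have hgy : g.act y = b := by
    have e1 : K.pt c1 (g.act y) = K.pt c1 b := by
      rw [← hg2 y h1, hb]
    have f1 : InFace (g.act y) a := by rw [← hg1]; exact h2.act g
    have f2 : InFace a (g.act y) := by rw [← hg1]; exact h1.act g
    exact K.open_inj c1 _ _ (f1.trans hfa) (hfb.trans f2) (K.pt_eq_iff.1 e1)
  rw [← hg1, ← hgy, act_dist] at hab
  linarith

theorem dist_pt_same (hK : IsCAT0 K.dist) (c : ι) {x y : unitCube}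
    (h1 : InFace x y) (h2 : InFace y x) :
    K.dist (K.pt c x) (K.pt c y) = Dist.dist x.1 y.1 := by
  obtain ⟨δ1, hp1, hd1⟩ := exists_deep x
  obtain ⟨δ2, hp2, hd2⟩ := exists_deep y
  set δ := min δ1 δ2 with hδ
  have hδ0 : 0 < δ := lt_min hp1 hp2
  have hx := hd1.mono (min_le_left δ1 δ2)
  have hy := hd2.mono (min_le_right δ1 δ2)
  set D := Dist.dist x.1 y.1 with hD
  have hD0 : 0 ≤ D := dist_nonneg
  obtain ⟨N, hN⟩ := exists_nat_gt (2 * D / δ)
  have hN0 : (0 : ℝ) < N := lt_of_le_of_lt (by positivity) hN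
  have hN1 : 2 * (D / N) ≤ δ := by
    rw [div_lt_iff₀ hδ0] at hN
    rw [← mul_div_assoc, div_le_iff₀ hN0]
    linarith [mul_comm (N : ℝ) δ]
  have hmem : ∀ k : ℕ, k ≤ N → ((k : ℝ) / N) ∈ Icc (0 : ℝ) 1 := by
    intro k hk
    refine ⟨by positivity, ?_⟩
    rw [div_le_one hN0]
    exact_mod_cast hk
  have hseg : ∀ k : ℕ, k ≤ N → Deep (seg x y ((k : ℝ) / N)) δ := by
    intro k hk i
    have ht := hmem k hk
    rw [seg_apply x y ht]
    constructor
    · intro h
      have hxi : x.1 i ≠ 0 := by
        intro h0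
        apply h
        rw [h0, (h1 i).1 h0]; ring
      have hyi : y.1 i ≠ 0 := fun h0 => hxi ((h2 i).1 h0)
      have a1 := (hx i).1 hxi
      have a2 := (hy i).1 hyi
      nlinarith [ht.1, ht.2]
    · intro h
      have hxi : x.1 i ≠ 1 := by
        intro h0
        apply h
        rw [h0, (h1 i).2 h0]; ring
      have hyi : y.1 i ≠ 1 := fun h0 => hxi ((h2 i).2 h0)
      have a1 := (hx i).2 hxi
      have a2 := (hy i).2 hyi
      nlinarith [ht.1, ht.2]
  have hface : ∀ s ∈ Icc (0 : ℝ) 1, InFace x (seg x y s) := by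
    intro s hs i
    rw [seg_apply x y hs]
    constructor
    · intro h0; rw [h0, (h1 i).1 h0]; ring
    · intro h0; rw [h0, (h1 i).2 h0]; ring
  have hface' : ∀ s ∈ Icc (0 : ℝ) 1, InFace (seg x y s) x := by
    intro s hs i
    rw [seg_apply x y hs]
    have hxi := x.2 i
    have hyi := y.2 i
    constructor
    · intro h0
      by_contra hne
      have hy0 : y.1 i ≠ 0 := fun h => hne ((h2 i).1 h)
      have p1 : 0 < x.1 i := lt_of_le_of_ne hxi.1 (Ne.symm hne)
      have p2 : 0 < y.1 i := lt_of_le_of_ne hyi.1 (Ne.symm hy0)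
      have p3 := lt_min p1 p2
      have p4 := min_le_left (x.1 i) (y.1 i)
      have p5 := min_le_right (x.1 i) (y.1 i)
      nlinarith [hs.1, hs.2]
    · intro h0
      by_contra hne
      have hy0 : y.1 i ≠ 1 := fun h => hne ((h2 i).2 h)
      have p1 : x.1 i < 1 := lt_of_le_of_ne hxi.2 hne
      have p2 : y.1 i < 1 := lt_of_le_of_ne hyi.2 hy0
      have p3 := max_lt p1 p2
      have p4 := le_max_left (x.1 i) (y.1 i)
      have p5 := le_max_right (x.1 i) (y.1 i)
      nlinarith [hs.1, hs.2]
  have step : ∀ i j : ℕ, i ≤ N → j ≤ N → i ≤ j → ((j : ℝ) - i) * (D / N) ≤ δ →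
      K.dist (K.pt c (seg x y ((i : ℝ) / N))) (K.pt c (seg x y ((j : ℝ) / N))) =
        ((j : ℝ) - i) * (D / N) := by
    intro i j hi hj hij hle
    have hdd : Dist.dist (seg x y ((i : ℝ) / N)).1 (seg x y ((j : ℝ) / N)).1 =
        ((j : ℝ) - i) * (D / N) := by
      rw [dist_seg_seg x y (hmem i hi) (hmem j hj), ← hD, ← sub_div, abs_div,
        abs_of_nonneg hN0.le, abs_sub_comm, abs_of_nonneg]
      · ring
      · have : (i : ℝ) ≤ j := by exact_mod_cast hij
        linarith
    rw [dist_local hK c (hseg i hi)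
      ((hface' _ (hmem i hi)).trans (hface _ (hmem j hj)))
      ((hface' _ (hmem j hj)).trans (hface _ (hmem i hi))) (by rw [hdd]; exact hle), hdd]
  have hDN : 0 ≤ D / N := by positivity
  have main := hK.local_to_global (isMet hK)
    (fun k : ℕ => K.pt c (seg x y ((k : ℝ) / N))) N (e := D / N)
    (fun i hi => by
      have := step i (i + 1) (by omega) hi (by omega) (by push_cast; linarith)
      rw [this]; push_cast; ring)
    (fun i hi => by
      have := step i (i + 2) (by omega) hi (by omega) (by push_cast; linarith)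
      rw [this]; push_cast; ring) N le_rfl
  simp only [Nat.cast_zero, zero_div, seg_zero] at main
  rw [div_self hN0.ne', seg_one] at main
  rw [main]
  field_simp

/-- Every cube is isometrically embedded. -/
theorem dist_pt (hK : IsCAT0 K.dist) (c : ι) (x y : unitCube) :
    K.dist (K.pt c x) (K.pt c y) = Dist.dist x.1 y.1 := by
  apply le_antisymm (dist_pt_le c x y)
  apply le_of_forall_pos_le_add
  intro ε hε
  set D := Dist.dist x.1 y.1 with hD
  have hD0 : 0 ≤ D := dist_nonneg
  set η : ℝ := min (1 / 4) (ε / (4 * D + 4)) with hη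
  have hη0 : 0 < η := lt_min (by norm_num) (by positivity)
  have hη1 : η ≤ 1 / 4 := min_le_left _ _
  have hη2 : 4 * η * D ≤ ε := by
    have h1 : η ≤ ε / (4 * D + 4) := min_le_right _ _
    rw [le_div_iff₀ (by positivity)] at h1
    nlinarith
  have m1 : η ∈ Icc (0 : ℝ) 1 := ⟨hη0.le, by linarith⟩
  have m2 : 1 - η ∈ Icc (0 : ℝ) 1 := ⟨by linarith, by linarith⟩
  have m0 : (0 : ℝ) ∈ Icc (0 : ℝ) 1 := ⟨le_rfl, zero_le_one⟩
  have m3 : (1 : ℝ) ∈ Icc (0 : ℝ) 1 := ⟨zero_le_one, le_rfl⟩
  have hface : ∀ s t : ℝ, 0 < s → s < 1 → 0 < t → t < 1 → InFace (seg x y s) (seg x y t) := by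
    intro s t hs0 hs1 ht0 ht1 i
    rw [seg_apply x y ⟨hs0.le, hs1.le⟩, seg_apply x y ⟨ht0.le, ht1.le⟩]
    have hxi := x.2 i
    have hyi := y.2 i
    constructor
    · intro h0
      have a1 : (1 - s) * x.1 i = 0 := by nlinarith
      have a2 : s * y.1 i = 0 := by nlinarith
      have b1 : x.1 i = 0 := by
        rcases mul_eq_zero.1 a1 with h | h
        · linarith
        · exact h
      have b2 : y.1 i = 0 := by
        rcases mul_eq_zero.1 a2 with h | h
        · linarith
        · exact h
      rw [b1, b2]; ring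
    · intro h0
      have a1 : (1 - s) * (1 - x.1 i) = 0 := by nlinarith
      have a2 : s * (1 - y.1 i) = 0 := by nlinarith
      have b1 : x.1 i = 1 := by
        rcases mul_eq_zero.1 a1 with h | h
        · linarith
        · linarith
      have b2 : y.1 i = 1 := by
        rcases mul_eq_zero.1 a2 with h | h
        · linarith
        · linarith
      rw [b1, b2]; ring
  have hmid := dist_pt_same hK c (hface η (1 - η) hη0 (by linarith) (by linarith) (by linarith))
    (hface (1 - η) η (by linarith) (by linarith) hη0 (by linarith))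
  rw [dist_seg_seg x y m1 m2, ← hD] at hmid
  have e1 := dist_pt_le (K := K) c (seg x y η) x
  have e2 := dist_pt_le (K := K) c y (seg x y (1 - η))
  have f1 : Dist.dist (seg x y η).1 x.1 = η * D := by
    have := dist_seg_seg x y m1 m0
    rw [seg_zero] at this
    rw [this, sub_zero, abs_of_nonneg hη0.le]
  have f2 : Dist.dist y.1 (seg x y (1 - η)).1 = η * D := by
    have := dist_seg_seg x y m3 m2
    rw [seg_one] at this
    rw [this]
    congr 1
    rw [abs_of_nonneg (by linarith)]; ring
  rw [f1] at e1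
  rw [f2] at e2
  have hm := isMet hK
  have t1 := hm.tri (K.pt c (seg x y η)) (K.pt c x) (K.pt c (seg x y (1 - η)))
  have t2 := hm.tri (K.pt c x) (K.pt c y) (K.pt c (seg x y (1 - η)))
  have habs : |η - (1 - η)| = 1 - 2 * η := by
    rw [abs_sub_comm, abs_of_nonneg (by linarith)]; ring
  rw [habs] at hmid
  nlinarith

theorem pt_inj (hK : IsCAT0 K.dist) {c : ι} {x y : unitCube} (h : K.pt c x = K.pt c y) :
    x = y := by
  have h1 := dist_pt hK c x y
  rw [h, (isMet hK).self] at h1
  exact Subtype.ext (dist_eq_zero.1 h1.symm)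

/-- Intersections of cubes are convex. -/
theorem pt_seg (hK : IsCAT0 K.dist) {c c' : ι} {x y x' y' : unitCube}
    (hx : K.pt c x = K.pt c' x') (hy : K.pt c y = K.pt c' y') {t : ℝ}
    (ht : t ∈ Icc (0 : ℝ) 1) : K.pt c (seg x y t) = K.pt c' (seg x' y' t) := by
  have m0 : (0 : ℝ) ∈ Icc (0 : ℝ) 1 := ⟨le_rfl, zero_le_one⟩
  have m1 : (1 : ℝ) ∈ Icc (0 : ℝ) 1 := ⟨zero_le_one, le_rfl⟩
  have key : ∀ (d : ι) (a b : unitCube), K.dist (K.pt d a) (K.pt d (seg a b t)) =
      t * K.dist (K.pt d a) (K.pt d b) ∧ K.dist (K.pt d b) (K.pt d (seg a b t)) =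
      (1 - t) * K.dist (K.pt d a) (K.pt d b) := by
    intro d a b
    rw [dist_pt hK, dist_pt hK, dist_pt hK]
    have h1 := dist_seg_seg a b m0 ht
    have h2 := dist_seg_seg a b m1 ht
    rw [seg_zero, zero_sub, abs_neg, abs_of_nonneg ht.1] at h1
    rw [seg_one, abs_of_nonneg (by linarith [ht.2])] at h2
    exact ⟨h1, h2⟩
  have k1 := key c x y
  have k2 := key c' x' y'
  rw [← hx, ← hy] at k2
  exact hK.unique (isMet hK) ht k1.1 k1.2 k2.1 k2.2

end CubeComplex

end Pool.Agent.H41
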