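import Pool.Agent.H41.Lattice

/-!
# A downset with prescribed layers
-/

namespace Pool.Agent.H41

open Finset

theorem pair_mono {a b c d : ℕ} (h1 : a ≤ c) (h2 : b ≤ d) : Nat.pair a b ≤ Nat.pair c d := by
  have k1 : Nat.pair a b ≤ Nat.pair c b := by
    rcases h1.eq_or_lt with rfl | h
    · exact le_rfl
    · exact (Nat.pair_lt_pair_left b h).le
  have k2 : Nat.pair c b ≤ Nat.pair c d := by
    rcases h2.eq_or_lt with rfl | h
    · exact le_rfl
    · exact (Nat.pair_lt_pair_right c h).le
  exact k1.trans k2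

theorem pair_zero_right (x : ℕ) : Nat.pair x 0 = x * x + x := by
  simp [Nat.pair]

theorem pair_zero_left (y : ℕ) : Nat.pair 0 y = y * y := by
  unfold Nat.pair
  split_ifs with h
  · simp
  · have : y = 0 := by omega
    subst this; simp

/-- The layer estimate. -/
theorem layer_bound (m τ d : ℕ) (h : τ ≤ d ^ 2 / 4) :
    ((range m).filter (fun y => Nat.pair 0 y < τ)).card +
      ((range m).filter (fun x => Nat.pair x 0 < τ)).card ≤ d := by
  have h1 : ((range m).filter (fun y => Nat.pair 0 y < τ)).card ≤ (d + 1) / 2 := by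
    rw [← card_range ((d + 1) / 2)]
    apply card_le_card
    intro y hy
    rw [mem_filter, pair_zero_left] at hy
    rw [mem_range]
    by_contra hge
    push Not at hge
    have k1 : d ≤ 2 * y := by omega
    have k2 : d ^ 2 ≤ 4 * (y * y) := by nlinarith
    have k3 : d ^ 2 / 4 ≤ y * y := by omega
    omega
  have h2 : ((range m).filter (fun x => Nat.pair x 0 < τ)).card ≤ d / 2 := by
    rw [← card_range (d / 2)]
    apply card_le_card
    intro x hx
    rw [mem_filter, pair_zero_right] at hx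
    rw [mem_range]
    by_contra hge
    push Not at hge
    have k1 : d ≤ 2 * x + 1 := by omega
    have k2 : d ^ 2 ≤ 4 * (x * x + x) + 1 := by nlinarith
    have k3 : d ^ 2 / 4 ≤ x * x + x := by omega
    omega
  omega

section

variable {V : Type} (U : Finset V) (τ d : V → ℕ) (m : ℕ)

/-- The number of layers which contain the cell number `p`. -/
def cnt (p : ℕ) : ℕ := (U.filter (fun u => p < τ u)).card

theorem cnt_anti {p q : ℕ} (h : p ≤ q) : cnt U τ q ≤ cnt U τ p := by
  apply card_le_card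
  intro u hu
  rw [mem_filter] at hu ⊢
  exact ⟨hu.1, lt_of_le_of_lt h hu.2⟩

theorem sum_cnt (hm : ∀ u ∈ U, τ u ≤ m) : ∑ p ∈ range m, cnt U τ p = ∑ u ∈ U, τ u := by
  unfold cnt
  simp_rw [card_filter]
  rw [sum_comm]
  apply sum_congr rfl
  intro u hu
  rw [← card_filter]
  have : (range m).filter (fun p => p < τ u) = range (τ u) := by
    ext p
    simp only [mem_filter, mem_range]
    have := hm u hu
    omega
  rw [this, card_range]

/-- The downset with prescribed layers. -/
def layers : Finset (Fin 3 → ℤ) :=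
  ((range m).sigma (fun p => range (cnt U τ p))).image
    (fun s : (_ : ℕ) × ℕ => ![((Nat.unpair s.1).1 : ℤ), ((Nat.unpair s.1).2 : ℤ), (s.2 : ℤ)])

variable {U τ d m}

theorem mem_layers (hm : ∀ u ∈ U, τ u ≤ m) {v : Fin 3 → ℤ} :
    v ∈ layers U τ m ↔ ∃ x y z : ℕ, v = ![(x : ℤ), (y : ℤ), (z : ℤ)] ∧
      z < cnt U τ (Nat.pair x y) := by
  unfold layers
  rw [mem_image]
  constructor
  · rintro ⟨⟨p, z⟩, hp, rfl⟩
    rw [mem_sigma, mem_range, mem_range] at hp
    exact ⟨_, _, _, rfl, by rw [Nat.pair_unpair]; exact hp.2⟩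
  · rintro ⟨x, y, z, rfl, hz⟩
    refine ⟨⟨Nat.pair x y, z⟩, ?_, by simp⟩
    rw [mem_sigma, mem_range, mem_range]
    refine ⟨?_, hz⟩
    have : 0 < (U.filter (fun u => Nat.pair x y < τ u)).card := lt_of_le_of_lt (Nat.zero_le _) hz
    rw [card_pos] at this
    obtain ⟨u, hu⟩ := this
    rw [mem_filter] at hu
    exact lt_of_lt_of_le hu.2 (hm u hu.1)

theorem layers_card (hm : ∀ u ∈ U, τ u ≤ m) : (layers U τ m).card = ∑ u ∈ U, τ u := by
  unfold layers
  rw [card_image_of_injOn]
  · rw [card_sigma]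
    simp_rw [card_range]
    exact sum_cnt U τ m hm
  · rintro ⟨p, z⟩ _ ⟨q, w⟩ _ h
    have h0 := congrFun h 0
    have h1 := congrFun h 1
    have h2 := congrFun h 2
    simp only [Matrix.cons_val_zero, Matrix.cons_val_one, Matrix.cons_val, Nat.cast_inj]
      at h0 h1 h2
    have : p = q := by
      rw [← Nat.pair_unpair p, ← Nat.pair_unpair q, h0, h1]
    subst this h2
    rfl

theorem layers_nonneg (hm : ∀ u ∈ U, τ u ≤ m) : ∀ v ∈ layers U τ m, 0 ≤ v := by
  intro v hv
  rw [mem_layers hm] at hv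
  obtain ⟨x, y, z, rfl, _⟩ := hv
  intro i
  fin_cases i <;> simp

theorem layers_down (hm : ∀ u ∈ U, τ u ≤ m) :
    ∀ v ∈ layers U τ m, ∀ w, 0 ≤ w → w ≤ v → w ∈ layers U τ m := by
  intro v hv w h0 hw
  rw [mem_layers hm] at hv ⊢
  obtain ⟨x, y, z, rfl, hz⟩ := hv
  have a0 := h0 0
  have a1 := h0 1
  have a2 := h0 2
  have b0 := hw 0
  have b1 := hw 1
  have b2 := hw 2
  simp only [Matrix.cons_val_zero, Matrix.cons_val_one, Matrix.cons_val, Pi.zero_apply]
    at a0 a1 a2 b0 b1 b2
  refine ⟨(w 0).toNat, (w 1).toNat, (w 2).toNat, ?_, ?_⟩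
  · funext i
    fin_cases i
    · simp [a0]
    · simp [a1]
    · simp [a2]
  · have c1 : Nat.pair (w 0).toNat (w 1).toNat ≤ Nat.pair x y :=
      pair_mono (by omega) (by omega)
    have c2 := cnt_anti U τ c1
    omega

theorem proj_layers (hm : ∀ u ∈ U, τ u ≤ m) (hd : ∀ u ∈ U, τ u ≤ d u ^ 2 / 4) :
    ∑ i, (proj (layers U τ m) i).card ≤ m + ∑ u ∈ U, d u := by
  have h0 : (proj (layers U τ m) 0).card ≤ ∑ y ∈ range m, cnt U τ (Nat.pair 0 y) := by
    have : proj (layers U τ m) 0 ⊆
        ((range m).sigma (fun y => range (cnt U τ (Nat.pair 0 y)))).image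
          (fun s : (_ : ℕ) × ℕ => ![(0 : ℤ), (s.1 : ℤ), (s.2 : ℤ)]) := by
      intro v hv
      rw [proj, mem_image] at hv
      obtain ⟨v', hv', rfl⟩ := hv
      have h1 := hv'
      rw [mem_layers hm] at h1
      obtain ⟨x, y, z, rfl, hz⟩ := h1
      rw [mem_image]
      refine ⟨⟨y, z⟩, ?_, ?_⟩
      · rw [mem_sigma, mem_range, mem_range]
        have c2 := cnt_anti U τ (pair_mono (Nat.zero_le x) (le_refl y))
        refine ⟨?_, lt_of_lt_of_le hz c2⟩
        have : 0 < (U.filter (fun u => Nat.pair x y < τ u)).card :=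
          lt_of_le_of_lt (Nat.zero_le _) hz
        rw [card_pos] at this
        obtain ⟨u, hu⟩ := this
        rw [mem_filter] at hu
        exact lt_of_le_of_lt (Nat.right_le_pair x y) (lt_of_lt_of_le hu.2 (hm u hu.1))
      · funext i
        fin_cases i <;> simp
    refine (card_le_card this).trans (card_image_le.trans ?_)
    rw [card_sigma]
    simp_rw [card_range]
    exact le_rfl
  have h1 : (proj (layers U τ m) 1).card ≤ ∑ x ∈ range m, cnt U τ (Nat.pair x 0) := by
    have : proj (layers U τ m) 1 ⊆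
        ((range m).sigma (fun x => range (cnt U τ (Nat.pair x 0)))).image
          (fun s : (_ : ℕ) × ℕ => ![(s.1 : ℤ), (0 : ℤ), (s.2 : ℤ)]) := by
      intro v hv
      rw [proj, mem_image] at hv
      obtain ⟨v', hv', rfl⟩ := hv
      have h1 := hv'
      rw [mem_layers hm] at h1
      obtain ⟨x, y, z, rfl, hz⟩ := h1
      rw [mem_image]
      refine ⟨⟨x, z⟩, ?_, ?_⟩
      · rw [mem_sigma, mem_range, mem_range]
        have c2 := cnt_anti U τ (pair_mono (le_refl x) (Nat.zero_le y))
        refine ⟨?_, lt_of_lt_of_le hz c2⟩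
        have : 0 < (U.filter (fun u => Nat.pair x y < τ u)).card :=
          lt_of_le_of_lt (Nat.zero_le _) hz
        rw [card_pos] at this
        obtain ⟨u, hu⟩ := this
        rw [mem_filter] at hu
        exact lt_of_le_of_lt (Nat.left_le_pair x y) (lt_of_lt_of_le hu.2 (hm u hu.1))
      · funext i
        fin_cases i <;> simp
    refine (card_le_card this).trans (card_image_le.trans ?_)
    rw [card_sigma]
    simp_rw [card_range]
    exact le_rfl
  have h2 : (proj (layers U τ m) 2).card ≤ m := by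
    have : proj (layers U τ m) 2 ⊆
        (range m).image (fun p => ![((Nat.unpair p).1 : ℤ), ((Nat.unpair p).2 : ℤ), 0]) := by
      intro v hv
      rw [proj, mem_image] at hv
      obtain ⟨v', hv', rfl⟩ := hv
      rw [layers, mem_image] at hv'
      obtain ⟨⟨p, z⟩, hp, rfl⟩ := hv'
      rw [mem_sigma] at hp
      rw [mem_image]
      refine ⟨p, hp.1, ?_⟩
      funext i
      fin_cases i <;> simp
    refine (card_le_card this).trans (card_image_le.trans ?_)
    rw [card_range]
  have h3 : ∑ y ∈ range m, cnt U τ (Nat.pair 0 y) + ∑ x ∈ range m, cnt U τ (Nat.pair x 0)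
      ≤ ∑ u ∈ U, d u := by
    unfold cnt
    simp_rw [card_filter]
    rw [sum_comm, sum_comm (s := range m), ← sum_add_distrib]
    apply sum_le_sum
    intro u hu
    rw [← card_filter, ← card_filter]
    exact layer_bound m (τ u) (d u) (hd u hu)
  rw [Fin.sum_univ_three]
  omega

end

end Pool.Agent.H41
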