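import Pool.Agent.H41.Downset

/-!
# Triangles in graphs without complete subgraph on four vertices
-/

namespace Pool.Agent.H41

open Finset

section

variable {V : Type} [Fintype V] [DecidableEq V] (Γ : SimpleGraph V) [DecidableRel Γ.Adj]

/-- The edges inside a set of vertices. -/
def inner (N : Finset V) : Finset (Sym2 V) := Γ.edgeFinset.filter (fun e => ∀ v ∈ e, v ∈ N)

variable {Γ}

/-- Mantel's theorem in a set of vertices. -/
theorem mantel (N : Finset V)
    (h : ∀ a ∈ N, ∀ b ∈ N, ∀ c ∈ N, Γ.Adj a b → Γ.Adj a c → Γ.Adj b c → False) :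
    (inner Γ N).card ≤ N.card ^ 2 / 4 := by
  classical
  have hfree : (Γ.induce (N : Set V)).CliqueFree (2 + 1) := by
    intro t ht
    rw [SimpleGraph.is3Clique_iff] at ht
    obtain ⟨a, b, c, hab, hac, hbc, _⟩ := ht
    exact h a a.2 b b.2 c c.2 hab hac hbc
  have h1 := hfree.card_edgeFinset_le
  simp only at h1
  have h2 : inner Γ N ⊆ (Γ.induce (N : Set V)).edgeFinset.image (Sym2.map Subtype.val) := by
    intro e he
    rw [inner, mem_filter, SimpleGraph.mem_edgeFinset] at he
    obtain ⟨he1, he2⟩ := he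
    induction e using Sym2.ind with
    | _ a b =>
      rw [SimpleGraph.mem_edgeSet] at he1
      rw [mem_image]
      refine ⟨s(⟨a, he2 a (Sym2.mem_mk_left a b)⟩, ⟨b, he2 b (Sym2.mem_mk_right a b)⟩), ?_, rfl⟩
      rw [SimpleGraph.mem_edgeFinset, SimpleGraph.mem_edgeSet]
      exact he1
  refine (card_le_card h2).trans (card_image_le.trans (h1.trans ?_))
  have h3 : Fintype.card (N : Set V) = N.card := by simp
  rw [h3]
  have h4 : (N.card % 2).choose 2 = 0 := by
    rw [Nat.choose_eq_zero_iff]; omega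
  rw [h4]
  have : (N.card ^ 2 - (N.card % 2) ^ 2) * (2 - 1) / (2 * 2) ≤ N.card ^ 2 / 4 := by
    apply Nat.div_le_div_right
    omega
  omega

/-- The triangles at a vertex inject into the edges inside the neighbourhood. -/
theorem star_le (u : V) (N : Finset V) (T : Finset (Finset V))
    (h : ∀ t ∈ T, Γ.IsNClique 3 t ∧ u ∈ t ∧ ∀ w ∈ t, w ≠ u → w ∈ N) :
    T.card ≤ (inner Γ N).card := by
  have hsub : T ⊆ (inner Γ N).image (fun e => insert u e.toFinset) := by
    intro t ht
    obtain ⟨h1, h2, h3⟩ := h t ht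
    have key : ∃ a b, t = {u, a, b} ∧ a ≠ u ∧ b ≠ u ∧ Γ.Adj a b := by
      rw [SimpleGraph.is3Clique_iff] at h1
      obtain ⟨a, b, c, hab, hac, hbc, rfl⟩ := h1
      simp only [mem_insert, mem_singleton] at h2
      rcases h2 with rfl | rfl | rfl
      · exact ⟨b, c, rfl, hab.ne.symm, hac.ne.symm, hbc⟩
      · exact ⟨a, c, by ext x; simp; tauto, hab.ne, hbc.ne.symm, hac⟩
      · exact ⟨a, b, by ext x; simp; tauto, hac.ne, hbc.ne, hab⟩
    obtain ⟨a, b, rfl, ha, hb, hab⟩ := key
    rw [mem_image]
    refine ⟨s(a, b), ?_, ?_⟩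
    · rw [inner, mem_filter, SimpleGraph.mem_edgeFinset, SimpleGraph.mem_edgeSet]
      refine ⟨hab, ?_⟩
      intro v hv
      rw [Sym2.mem_iff] at hv
      rcases hv with rfl | rfl
      · exact h3 v (by simp) ha
      · exact h3 v (by simp) hb
    · rw [Sym2.toFinset_mk_eq]
  exact (card_le_card hsub).trans card_image_le

end

section

variable {V : Type} [Fintype V] [DecidableEq V] (Γ : SimpleGraph V) [DecidableRel Γ.Adj]
  (U : Finset V) (r : V → ℕ)

/-- The later neighbours. -/
def later (u : V) : Finset V := univ.filter (fun w => Γ.Adj u w ∧ (w ∉ U ∨ r u < r w))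

/-- Counting edges which meet `U`. -/
theorem edges_ge : (inner Γ Uᶜ).card + ∑ u ∈ U, (later Γ U r u).card ≤ Γ.edgeFinset.card := by
  have h1 : ∑ u ∈ U, (later Γ U r u).card =
      ((U.sigma (fun u => later Γ U r u)).image
        (fun s : (_ : V) × V => s(s.1, s.2))).card := by
    rw [card_image_of_injOn, card_sigma]
    rintro ⟨u, w⟩ hs ⟨u', w'⟩ hs' heq
    simp only [coe_sigma, Set.mem_sigma_iff, mem_coe, later, mem_filter, mem_univ,
      true_and] at hs hs'
    simp only [Sym2.eq_iff] at heq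
    rcases heq with ⟨rfl, rfl⟩ | ⟨rfl, rfl⟩
    · rfl
    · exfalso
      obtain ⟨a1, a2, a3⟩ := hs
      obtain ⟨b1, b2, b3⟩ := hs'
      have c1 : r u < r w := by
        rcases a3 with h | h
        · exact absurd b1 h
        · exact h
      have c2 : r w < r u := by
        rcases b3 with h | h
        · exact absurd a1 h
        · exact h
      omega
  rw [h1, ← card_union_of_disjoint]
  · apply card_le_card
    intro e he
    rw [mem_union] at he
    rcases he with he | he
    · rw [inner, mem_filter] at he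
      exact he.1
    · rw [mem_image] at he
      obtain ⟨⟨u, w⟩, hs, rfl⟩ := he
      rw [mem_sigma, later, mem_filter] at hs
      rw [SimpleGraph.mem_edgeFinset, SimpleGraph.mem_edgeSet]
      exact hs.2.2.1
  · rw [disjoint_left]
    intro e he he'
    rw [inner, mem_filter] at he
    rw [mem_image] at he'
    obtain ⟨⟨u, w⟩, hs, rfl⟩ := he'
    rw [mem_sigma] at hs
    have := he.2 u (Sym2.mem_mk_left u w)
    rw [mem_compl] at this
    exact this hs.1

/-- **The extremal lemma.**  A set of triangles in a graph without complete subgraph on four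
vertices can be compressed to a downset of lattice cubes, without increasing the shadow. -/
theorem exists_downset (hΓ : Γ.CliqueFree 4) (T : Finset (Finset V))
    (hT : ∀ t ∈ T, Γ.IsNClique 3 t) :
    ∃ S : Finset (Fin 3 → ℤ), S.card = T.card ∧ (∀ v ∈ S, 0 ≤ v) ∧
      (∀ v ∈ S, ∀ w, 0 ≤ w → w ≤ v → w ∈ S) ∧
      ∑ i, (proj S i).card ≤ Γ.edgeFinset.card := by
  classical
  rcases T.eq_empty_or_nonempty with rfl | ⟨t0, ht0⟩
  · exact ⟨∅, rfl, by simp, by simp, by simp [proj]⟩
  have hno4 : ∀ a b c d, Γ.Adj a b → Γ.Adj a c → Γ.Adj a d → Γ.Adj b c → Γ.Adj b d →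
      Γ.Adj c d → False := by
    intro a b c d h1 h2 h3 h4 h5 h6
    apply hΓ {a, b, c, d}
    rw [SimpleGraph.isNClique_iff, SimpleGraph.isClique_iff]
    constructor
    · simp only [coe_insert, coe_singleton, Set.pairwise_insert, Set.pairwise_singleton,
        Set.mem_insert_iff, Set.mem_singleton_iff]
      refine ⟨⟨⟨trivial, ?_⟩, ?_⟩, ?_⟩
      · rintro x rfl _; exact ⟨h6, h6.symm⟩
      · rintro x (rfl | rfl) _
        · exact ⟨h4, h4.symm⟩
        · exact ⟨h5, h5.symm⟩
      · rintro x (rfl | rfl | rfl) _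
        · exact ⟨h1, h1.symm⟩
        · exact ⟨h2, h2.symm⟩
        · exact ⟨h3, h3.symm⟩
    · rw [card_insert_of_notMem, card_insert_of_notMem, card_insert_of_notMem, card_singleton]
      · simpa using h6.ne
      · simp [h4.ne, h5.ne]
      · simp [h1.ne, h2.ne, h3.ne]
  obtain ⟨x0, hx0⟩ : t0.Nonempty := by
    rw [← card_pos, (hT t0 ht0).card_eq]; norm_num
  -- the vertex in most triangles
  obtain ⟨v0, -, hv0⟩ := exists_max_image (univ : Finset V)
    (fun v => (T.filter (fun t => v ∈ t)).card) ⟨x0, mem_univ _⟩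
  set U : Finset V := univ.filter (fun u => ¬ Γ.Adj v0 u) with hU
  set m := (T.filter (fun t => v0 ∈ t)).card with hm
  let r : V → ℕ := fun v => (Fintype.equivFin V v).val
  have hr : Function.Injective r := fun a b h => (Fintype.equivFin V).injective (Fin.ext h)
  -- each triangle meets `U`
  have hmeet : ∀ t ∈ T, (t ∩ U).Nonempty := by
    intro t ht
    by_contra hne
    rw [not_nonempty_iff_eq_empty] at hne
    have hadj : ∀ w ∈ t, Γ.Adj v0 w := by
      intro w hw
      by_contra h
      have : w ∈ t ∩ U := by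
        rw [mem_inter, hU, mem_filter]
        exact ⟨hw, mem_univ _, h⟩
      rw [hne] at this
      simp at this
    have := hT t ht
    rw [SimpleGraph.is3Clique_iff] at this
    obtain ⟨a, b, c, hab, hac, hbc, rfl⟩ := this
    exact hno4 v0 a b c (hadj a (by simp)) (hadj b (by simp)) (hadj c (by simp)) hab hac hbc
  have hα : ∀ t : Finset V, ∃ u, t ∈ T → (u ∈ t ∧ u ∈ U ∧ ∀ w ∈ t, w ∈ U → r u ≤ r w) := by
    intro t
    by_cases ht : t ∈ T
    · obtain ⟨u, hu, hmin⟩ := exists_min_image (t ∩ U) r (hmeet t ht)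
      rw [mem_inter] at hu
      refine ⟨u, fun _ => ⟨hu.1, hu.2, fun w h1 h2 => hmin w ?_⟩⟩
      rw [mem_inter]; exact ⟨h1, h2⟩
    · exact ⟨x0, fun h => absurd h ht⟩
  choose α hα using hα
  set τ : V → ℕ := fun u => (T.filter (fun t => α t = u)).card with hτ
  have hsum : T.card = ∑ u ∈ U, τ u := by
    rw [hτ]
    exact card_eq_sum_card_fiberwise (fun t ht => (hα t ht).2.1)
  have hle : ∀ u ∈ U, τ u ≤ m := by
    intro u _
    refine le_trans ?_ (hv0 u (mem_univ _))
    apply card_le_card
    intro t ht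
    rw [mem_filter] at ht ⊢
    exact ⟨ht.1, ht.2 ▸ (hα t ht.1).1⟩
  have hd : ∀ u ∈ U, τ u ≤ (later Γ U r u).card ^ 2 / 4 := by
    intro u _
    refine le_trans (star_le (Γ := Γ) u (later Γ U r u) _ ?_) (mantel _ ?_)
    · intro t ht
      rw [mem_filter] at ht
      obtain ⟨a1, a2, a3⟩ := hα t ht.1
      rw [ht.2] at a1 a2 a3
      refine ⟨hT t ht.1, a1, ?_⟩
      intro w hw hwu
      rw [later, mem_filter]
      refine ⟨mem_univ _, ?_, ?_⟩
      · exact (hT t ht.1).isClique a1 hw hwu.symm
      · by_cases hwU : w ∈ U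
        · right
          exact lt_of_le_of_ne (a3 w hw hwU) (fun h => hwu (hr h.symm))
        · left; exact hwU
    · intro a ha b hb c hc hab hac hbc
      rw [later, mem_filter] at ha hb hc
      exact hno4 u a b c ha.2.1 hb.2.1 hc.2.1 hab hac hbc
  have hmm : m ≤ (inner Γ Uᶜ).card := by
    apply star_le v0
    intro t ht
    rw [mem_filter] at ht
    refine ⟨hT t ht.1, ht.2, ?_⟩
    intro w hw hwv
    rw [mem_compl, hU, mem_filter]
    intro h
    exact h.2 ((hT t ht.1).isClique ht.2 hw hwv.symm)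
  refine ⟨layers U τ m, ?_, layers_nonneg hle, layers_down hle, ?_⟩
  · rw [layers_card hle, hsum]
  · refine (proj_layers (d := fun u => (later Γ U r u).card) hle hd).trans ?_
    refine le_trans ?_ (edges_ge Γ U r)
    omega

end

end Pool.Agent.H41
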