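import Pool.Agent.H41.Bdry
import Pool.Agent.H41.Extremal

/-!
# The lattice isoperimetric theorem
-/

namespace Pool.Agent.H41

open Finset

namespace CubeComplex

variable {ι : Type} [Fintype ι] [Nonempty ι] {K : CubeComplex ι} (hK : IsCAT0 K.dist)
  (o : K.Vtx)

include hK o in
theorem main_nonempty : ∃ S : Finset (Fin 3 → ℤ), S.card = Fintype.card ι ∧
    (latticeBoundary S).encard ≤ K.boundarySquares.encard := by
  classical
  haveI : Fintype (Set K.Vtx) := Fintype.ofFinite _
  obtain ⟨S, h1, h2, h3, h4⟩ := exists_downset (crs hK o) (crs_cliqueFree hK o)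
    (univ.image (triple hK o)) (by
      intro t ht
      rw [mem_image] at ht
      obtain ⟨c, _, rfl⟩ := ht
      exact triple_clique hK o c)
  refine ⟨S, ?_, ?_⟩
  · rw [h1, card_image_of_injective _ (triple_inj hK o), card_univ]
  · refine (latticeBoundary_encard_le h2 h3).trans ?_
    set B : Finset (ι × Fin 3 × Bool) := univ.filter (fun f => K.square f ∈ K.boundarySquares)
      with hB
    have k1 : 2 * (crs hK o).edgeFinset.card ≤ B.card := by
      have e1 := sum_card_fiberwise_eq_card_filter B (crs hK o).edgeFinset (lab hK o)
      have e2 : ∑ e ∈ (crs hK o).edgeFinset, 2 ≤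
          ∑ e ∈ (crs hK o).edgeFinset, (B.filter (fun f => lab hK o f = e)).card := by
        apply sum_le_sum
        intro e he
        rw [SimpleGraph.mem_edgeFinset] at he
        induction e using Sym2.ind with
        | _ H H' =>
          rw [SimpleGraph.mem_edgeSet] at he
          obtain ⟨f, f', hne, b1, b2, l1, l2⟩ := two_bdry hK o he
          have : ({f, f'} : Finset (ι × Fin 3 × Bool)) ⊆
              B.filter (fun f => lab hK o f = s(H, H')) := by
            intro g hg
            rw [mem_insert, mem_singleton] at hg
            rw [mem_filter, hB, mem_filter]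
            rcases hg with rfl | rfl
            · exact ⟨⟨mem_univ _, b1⟩, l1⟩
            · exact ⟨⟨mem_univ _, b2⟩, l2⟩
          have := card_le_card this
          rwa [card_pair hne] at this
      rw [e1, sum_const, smul_eq_mul] at e2
      have e3 := card_filter_le B (fun f => lab hK o f ∈ (crs hK o).edgeFinset)
      omega
    have k2 : ((B.image K.square : Finset (Set K.Point)) : Set (Set K.Point)) ⊆
        K.boundarySquares := by
      intro s hs
      rw [coe_image] at hs
      obtain ⟨f, hf, rfl⟩ := hs
      rw [mem_coe, hB, mem_filter] at hf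
      exact hf.2
    have k3 : (B.image K.square).card = B.card := by
      apply card_image_of_injOn
      intro f hf f' hf' heq
      rw [mem_coe, hB, mem_filter] at hf hf'
      obtain ⟨g, _, hg⟩ := hf.2
      exact (hg f rfl).trans (hg f' heq).symm
    have k4 := Set.encard_le_encard k2
    rw [Set.encard_coe_eq_coe_finsetCard, k3] at k4
    refine le_trans ?_ k4
    rw [Nat.cast_le]
    omega

end CubeComplex

end Pool.Agent.H41
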