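import Pool.Agent.H41.Corner

/-! The links of a CAT(0) cube complex are flag. -/

namespace Pool.Agent.H41

open Set

theorem deep_corner (w : Fin 3 → Bool) : Deep (corner w) 1 := by
  intro i
  rw [corner_apply]
  cases w i <;> simp

theorem corner_of_deep {x : unitCube} (h : Deep x 1) : ∃ w, x = corner w := by
  classical
  refine ⟨fun i => decide (x.1 i = 1), ?_⟩
  apply Subtype.ext
  ext i
  rw [corner_apply]
  by_cases h1 : x.1 i = 1
  · simp [h1]
  · have h0 : x.1 i = 0 := by
      by_contra h2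
      have := (h i).1 h2
      exact h1 (le_antisymm (x.2 i).2 this)
    simp [h0]

namespace CubeComplex

variable {ι : Type} {K : CubeComplex ι}

section Star

variable {J : Type} [Fintype J]

open Classical in
/-- The star coordinates with respect to the neighbours `b`. -/
noncomputable def Psi (K : CubeComplex ι) (b : J → K.Vtx) (c : ι) (w : Fin 3 → Bool)
    (y : unitCube) : EuclideanSpace ℝ J :=
  WithLp.toLp 2 (fun j => ∑ i, if K.vx c (fl w i) = b j then |y.1 i - (corner w).1 i| else 0)

open Classical in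
omit [Fintype J] in
theorem Psi_apply (b : J → K.Vtx) (c : ι) (w : Fin 3 → Bool) (y : unitCube) (j : J) :
    Psi K b c w y j =
      ∑ i, if K.vx c (fl w i) = b j then |y.1 i - (corner w).1 i| else 0 := rfl

theorem Psi_nonneg (b : J → K.Vtx) (c : ι) (w : Fin 3 → Bool) (y : unitCube) (j : J) :
    0 ≤ Psi K b c w y j := by
  classical
  rw [Psi_apply]
  apply Finset.sum_nonneg
  intro i _
  split_ifs
  · exact abs_nonneg _
  · exact le_rfl

theorem Psi_self (b : J → K.Vtx) (c : ι) (w : Fin 3 → Bool) :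
    Psi K b c w (corner w) = 0 := by
  classical
  ext j
  rw [Psi_apply]
  simp

open Classical in
theorem sum_ite_inj_le {b : J → K.Vtx} (hb : Function.Injective b) (v : K.Vtx) {x : ℝ}
    (hx : 0 ≤ x) : (∑ j, if v = b j then x else 0) ≤ x := by
  by_cases h : ∃ j0, v = b j0
  · obtain ⟨j0, rfl⟩ := h
    have : (∑ j, if b j0 = b j then x else 0) = ∑ j, if j0 = j then x else 0 := by
      refine Finset.sum_congr rfl (fun j _ => ?_)
      by_cases h : j0 = j
      · subst h; simp
      · rw [if_neg h, if_neg (fun h' => h (hb h'))]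
    rw [this, Finset.sum_ite_eq]
    simp
  · push Not at h
    have : (∑ j, if v = b j then x else 0) = 0 :=
      Finset.sum_eq_zero (fun j _ => if_neg (h j))
    rw [this]; exact hx

theorem Psi_lip (hK : IsCAT0 K.dist) {b : J → K.Vtx} (hb : Function.Injective b) (c : ι)
    (w : Fin 3 → Bool) (y y' : unitCube) :
    Dist.dist (Psi K b c w y) (Psi K b c w y') ≤ Dist.dist y.1 y'.1 := by
  classical
  rw [EuclideanSpace.dist_eq, EuclideanSpace.dist_eq]
  apply Real.sqrt_le_sqrt
  have h1 : ∀ j, Dist.dist (Psi K b c w y j) (Psi K b c w y' j) ^ 2 ≤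
      ∑ i, if K.vx c (fl w i) = b j then Dist.dist (y.1 i) (y'.1 i) ^ 2 else 0 := by
    intro j
    by_cases h : ∃ i0, K.vx c (fl w i0) = b j
    · obtain ⟨i0, hi0⟩ := h
      have hne : ∀ i, i ≠ i0 → K.vx c (fl w i) ≠ b j := by
        intro i hi h'
        exact hi (fl_inj (vx_inj hK (h'.trans hi0.symm)))
      rw [Psi_apply, Psi_apply, Finset.sum_eq_single i0, Finset.sum_eq_single i0,
        Finset.sum_eq_single i0, if_pos hi0, if_pos hi0, if_pos hi0]
      · rw [Real.dist_eq, Real.dist_eq]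
        have := abs_abs_sub_abs_le (y.1 i0 - (corner w).1 i0) (y'.1 i0 - (corner w).1 i0)
        have e : y.1 i0 - (corner w).1 i0 - (y'.1 i0 - (corner w).1 i0) = y.1 i0 - y'.1 i0 := by
          ring
        rw [e] at this
        exact pow_le_pow_left₀ (abs_nonneg _) this 2
      · intro i _ hi; exact if_neg (hne i hi)
      · intro h; exact absurd (Finset.mem_univ _) h
      · intro i _ hi; exact if_neg (hne i hi)
      · intro h; exact absurd (Finset.mem_univ _) h
      · intro i _ hi; exact if_neg (hne i hi)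
      · intro h; exact absurd (Finset.mem_univ _) h
    · push Not at h
      rw [Psi_apply, Psi_apply, Finset.sum_eq_zero (fun i _ => if_neg (h i)),
        Finset.sum_eq_zero (fun i _ => if_neg (h i)), Finset.sum_eq_zero (fun i _ => if_neg (h i))]
      simp
  calc ∑ j, Dist.dist (Psi K b c w y j) (Psi K b c w y' j) ^ 2
      ≤ ∑ j, ∑ i, (if K.vx c (fl w i) = b j then Dist.dist (y.1 i) (y'.1 i) ^ 2 else 0) :=
        Finset.sum_le_sum (fun j _ => h1 j)
    _ = ∑ i, ∑ j, (if K.vx c (fl w i) = b j then Dist.dist (y.1 i) (y'.1 i) ^ 2 else 0) :=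
        Finset.sum_comm
    _ ≤ ∑ i, Dist.dist (y.1 i) (y'.1 i) ^ 2 :=
        Finset.sum_le_sum (fun i _ => sum_ite_inj_le hb _ (by positivity))

theorem inFace_of_near {w : Fin 3 → Bool} {y : unitCube}
    (h : Dist.dist (corner w).1 y.1 < 1) : InFace y (corner w) :=
  (deep_corner w).inFace h

theorem Psi_glue (hK : IsCAT0 K.dist) (b : J → K.Vtx) {c c' : ι} {w w' : Fin 3 → Bool}
    {y y' : unitCube} (ha : K.vx c w = K.vx c' w') (hy : K.pt c y = K.pt c' y')
    (hd : Dist.dist (corner w).1 y.1 < 1) : Psi K b c w y = Psi K b c' w' y' := by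
  classical
  have hf := inFace_of_near hd
  obtain ⟨g, hg1, hg2⟩ := K.pt_glue hy
  have hw : g.actB w = w' := by
    have := hg2 _ hf
    rw [act_corner] at this
    apply pt_corner_inj hK (c := c')
    rw [← this]
    exact congrArg Subtype.val ha
  ext j
  rw [Psi_apply, Psi_apply, ← Equiv.sum_comp g.perm]
  refine Finset.sum_congr rfl (fun k _ => ?_)
  have ht : |y.1 (g.perm k) - (corner w).1 (g.perm k)| = |y'.1 k - (corner w').1 k| := by
    rw [← hg1, ← hw, ← act_corner, act_apply, act_apply]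
    split_ifs
    · rw [abs_sub_comm]; congr 1; ring
    · rfl
  rw [ht]
  by_cases h0 : |y'.1 k - (corner w').1 k| = 0
  · rw [h0]; simp
  · have hface : InFace y (corner (fl w (g.perm k))) := by
      intro l
      rw [corner_apply, fl_apply]
      have hl := hf l
      rw [corner_apply] at hl
      by_cases hlk : l = g.perm k
      · subst hlk
        rw [← ht] at h0
        have hlt := coord_le_dist (corner w).1 y.1 (g.perm k)
        rw [corner_apply] at hlt h0
        constructor
        · intro h1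
          exfalso
          have := hl.1 h1
          rw [h1, this] at h0
          simp at h0
        · intro h1
          exfalso
          have := hl.2 h1
          rw [h1, this] at h0
          simp at h0
      · rw [if_neg hlk]
        exact hl
    have := hg2 _ hface
    rw [act_corner, actB_fl, hw, Equiv.symm_apply_apply] at this
    have hv : K.vx c (fl w (g.perm k)) = K.vx c' (fl w' k) := Subtype.ext this
    rw [hv]

theorem star_string (hK : IsCAT0 K.dist) {b : J → K.Vtx} (hb : Function.Injective b)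
    {a : K.Vtx} {p q : K.Point} {L : ℝ} (h : K.Str p q L) {c0 : ι} {w0 : Fin 3 → Bool}
    {y0 : unitCube} (ha : K.vx c0 w0 = a) (hq : q = K.pt c0 y0) {r : ℝ}
    (hr : Dist.dist (corner w0).1 y0.1 ≤ r) (hrL : r + L < 1) :
    ∃ c w y, K.vx c w = a ∧ K.pt c y = p ∧ Dist.dist (corner w).1 y.1 ≤ r + L ∧
      Dist.dist (Psi K b c w y) (Psi K b c0 w0 y0) ≤ L := by
  induction h with
  | refl p => exact ⟨c0, w0, y0, ha, hq.symm, by simpa using hr, by simp⟩
  | cons c u v q L h ih =>
    have hnn : 0 ≤ Dist.dist u.1 v.1 := dist_nonneg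
    obtain ⟨c1, w1, y1, h1, h2, h3, h4⟩ := ih hq (by linarith)
    have hlt : Dist.dist (corner w1).1 y1.1 < 1 := by linarith
    obtain ⟨g, hg1, hg2⟩ := K.pt_glue h2
    have hw := hg2 _ (inFace_of_near hlt)
    rw [act_corner] at hw
    have hv : K.vx c1 w1 = K.vx c (g.actB w1) := Subtype.ext hw
    have hP := Psi_glue hK b hv h2 hlt
    refine ⟨c, g.actB w1, u, by rw [← hv, h1], rfl, ?_, ?_⟩
    · have e1 : Dist.dist (corner (g.actB w1)).1 v.1 = Dist.dist (corner w1).1 y1.1 := by
        rw [← hg1, ← act_corner, act_dist]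
      have := dist_triangle (corner (g.actB w1)).1 v.1 u.1
      rw [dist_comm v.1 u.1] at this
      linarith
    · have e1 := Psi_lip hK hb c (g.actB w1) u v
      have e2 := dist_triangle (Psi K b c (g.actB w1) u) (Psi K b c (g.actB w1) v)
        (Psi K b c0 w0 y0)
      rw [← hP] at e2 e1
      linarith

theorem star_dist (hK : IsCAT0 K.dist) {b : J → K.Vtx} (hb : Function.Injective b)
    {c c' : ι} {w w' : Fin 3 → Bool} {y y' : unitCube} (ha : K.vx c w = K.vx c' w')
    (hy : Dist.dist (corner w).1 y.1 ≤ 1 / 4) (hy' : Dist.dist (corner w').1 y'.1 ≤ 1 / 4) :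
    Dist.dist (Psi K b c w y) (Psi K b c' w' y') ≤ K.dist (K.pt c y) (K.pt c' y') := by
  apply le_dist hK
  intro L hL
  rcases le_or_gt (1 / 2) L with h | h
  · have e1 := Psi_lip hK hb c w y (corner w)
    have e2 := Psi_lip hK hb c' w' (corner w') y'
    rw [Psi_self] at e1 e2
    rw [dist_comm y.1] at e1
    have := dist_triangle (Psi K b c w y) 0 (Psi K b c' w' y')
    linarith
  · obtain ⟨c1, w1, y1, h1, h2, h3, h4⟩ := star_string hK hb hL rfl rfl hy' (by linarith)
    have hP := Psi_glue hK b (h1.trans ha.symm) h2 (by linarith)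
    rwa [hP] at h4

theorem flag_lemma (hK : IsCAT0 K.dist) {b : J → K.Vtx} (hb : Function.Injective b)
    {c c' : ι} {w w' : Fin 3 → Bool} {y y' : unitCube} (ha : K.vx c w = K.vx c' w')
    (hy : Dist.dist (corner w).1 y.1 ≤ 1 / 8) (hy' : Dist.dist (corner w').1 y'.1 ≤ 1 / 8)
    (hle : K.dist (K.pt c y) (K.pt c' y') ≤
      Dist.dist (Psi K b c w y) (Psi K b c' w' y'))
    (hpos : ∀ j, 0 < Psi K b c w y j ∨ 0 < Psi K b c' w' y' j) :
    ∃ c1 w1, K.vx c1 w1 = K.vx c w ∧ ∀ j, ∃ i, K.vx c1 (fl w1 i) = b j := by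
  classical
  have hm := isMet hK
  set p := K.pt c y with hp
  set q := K.pt c' y' with hq
  obtain ⟨m, m1, m2⟩ := hK.exists_between hm p q half_mem
  have ap : K.dist (K.pt c (corner w)) p ≤ 1 / 8 := by rw [hp, dist_pt hK]; exact hy
  have ha' : K.pt c (corner w) = K.pt c' (corner w') := congrArg Subtype.val ha
  have aq : K.dist (K.pt c (corner w)) q ≤ 1 / 8 := by rw [ha', hq, dist_pt hK]; exact hy'
  have hpq : K.dist p q ≤ 1 / 4 := by
    have := hm.tri p (K.pt c (corner w)) q
    rw [hm.symm p (K.pt c (corner w))] at this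
    linarith
  have ham : K.dist m (K.pt c (corner w)) ≤ 1 / 4 := by
    have := hm.tri m p (K.pt c (corner w))
    rw [hm.symm m p, m1, hm.symm p (K.pt c (corner w))] at this
    linarith
  obtain ⟨L, hL, hstr⟩ := exists_str_lt hK (show K.dist m (K.pt c (corner w)) < 1 by linarith)
  obtain ⟨c1, x1, y1, e1, e2, e3, e4⟩ := short_string hstr rfl (deep_corner w) hL
  obtain ⟨w1, rfl⟩ := corner_of_deep e4
  have hv : K.vx c1 w1 = K.vx c w := Subtype.ext e1
  have hd1 : Dist.dist (corner w1).1 y1.1 ≤ 1 / 4 := by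
    rw [← dist_pt hK c1, e1, e2, hm.symm]
    exact ham
  refine ⟨c1, w1, hv, ?_⟩
  have s1 := star_dist hK hb hv hd1 (show Dist.dist (corner w).1 y.1 ≤ 1 / 4 by linarith)
  have s2 := star_dist hK hb (hv.trans ha) hd1
    (show Dist.dist (corner w').1 y'.1 ≤ 1 / 4 by linarith)
  rw [e2, ← hp, hm.symm m p, m1] at s1
  rw [e2, ← hq, hm.symm m q, m2] at s2
  have hst := dist_lineMap_sq (Psi K b c w y) (Psi K b c' w' y') (Psi K b c1 w1 y1) (1 / 2)
  rw [dist_comm (Psi K b c w y) (Psi K b c1 w1 y1),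
    dist_comm (Psi K b c' w' y') (Psi K b c1 w1 y1)] at hst
  set A := Dist.dist (Psi K b c1 w1 y1) (Psi K b c w y) with hA
  set B := Dist.dist (Psi K b c1 w1 y1) (Psi K b c' w' y') with hB
  set E := Dist.dist (Psi K b c w y) (Psi K b c' w' y') with hE
  have hA0 : 0 ≤ A := dist_nonneg
  have hB0 : 0 ≤ B := dist_nonneg
  have hD0 : 0 ≤ K.dist p q := hm.nonneg _ _
  have hAE : A ^ 2 ≤ (E / 2) ^ 2 := pow_le_pow_left₀ hA0 (by linarith) 2
  have hBE : B ^ 2 ≤ (E / 2) ^ 2 := pow_le_pow_left₀ hB0 (by linarith) 2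
  have hz : Dist.dist (AffineMap.lineMap (Psi K b c w y) (Psi K b c' w' y') (1 / 2 : ℝ))
      (Psi K b c1 w1 y1) = 0 := by
    have h0 : Dist.dist (AffineMap.lineMap (Psi K b c w y) (Psi K b c' w' y') (1 / 2 : ℝ))
      (Psi K b c1 w1 y1) ^ 2 ≤ 0 := by
      rw [hst]; nlinarith
    exact pow_eq_zero_iff (two_ne_zero) |>.1 (le_antisymm h0 (sq_nonneg _))
  have heq := dist_eq_zero.1 hz
  intro j
  by_contra hcon
  push Not at hcon
  have h0 : Psi K b c1 w1 y1 j = 0 := by
    rw [Psi_apply]
    exact Finset.sum_eq_zero (fun i _ => if_neg (hcon i))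
  have h1 := congrArg (fun v : EuclideanSpace ℝ J => v j) heq
  simp only [AffineMap.lineMap_apply, vsub_eq_sub, vadd_eq_add, PiLp.add_apply, PiLp.smul_apply,
    PiLp.sub_apply, smul_eq_mul] at h1
  rw [h0] at h1
  have n1 := Psi_nonneg b c w y j
  have n2 := Psi_nonneg b c' w' y' j
  rcases hpos j with h | h <;> linarith

end Star

end CubeComplex

end Pool.Agent.H41
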