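import Pool.Agent.H41.Flag

/-! The cube condition and the dimension condition in a CAT(0) cube complex. -/

namespace Pool.Agent.H41

open Set

theorem eucl_dist_sq {J : Type} [Fintype J] (x y : EuclideanSpace ℝ J) :
    Dist.dist x y ^ 2 = ∑ i, (x i - y i) ^ 2 := by
  rw [EuclideanSpace.dist_eq, Real.sq_sqrt (Finset.sum_nonneg (fun _ _ => sq_nonneg _))]
  exact Finset.sum_congr rfl (fun i _ => by rw [Real.dist_eq, sq_abs])

/-- The point at distance `1/8` from the corner `w` on the edge in direction `i`. -/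
noncomputable def epv (w : Fin 3 → Bool) (i : Fin 3) : unitCube :=
  seg (corner w) (corner (fl w i)) (1 / 8)

theorem eighth_mem : (1 / 8 : ℝ) ∈ Icc (0 : ℝ) 1 := ⟨by norm_num, by norm_num⟩

theorem epv_apply (w : Fin 3 → Bool) (i k : Fin 3) :
    (epv w i).1 k = (corner w).1 k + if k = i then (1 / 8) * (1 - 2 * (corner w).1 k) else 0 := by
  rw [epv, seg_apply _ _ eighth_mem, corner_apply, corner_apply, fl_apply]
  by_cases h : k = i
  · rw [if_pos h, if_pos h]
    cases w k <;> norm_num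
  · rw [if_neg h, if_neg h]; ring

noncomputable def sqv (w : Fin 3 → Bool) (i j : Fin 3) : unitCube :=
  seg (epv w i) (epv w j) (1 / 2)

theorem sqv_apply (w : Fin 3 → Bool) {i j : Fin 3} (k : Fin 3) :
    (sqv w i j).1 k = (corner w).1 k + ((if k = i then (1 / 16) * (1 - 2 * (corner w).1 k) else 0)
      + if k = j then (1 / 16) * (1 - 2 * (corner w).1 k) else 0) := by
  rw [sqv, seg_apply _ _ half_mem, epv_apply, epv_apply]
  split_ifs <;> ring

theorem corner_sq (w : Fin 3 → Bool) (k : Fin 3) : (1 - 2 * (corner w).1 k) ^ 2 = 1 := by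
  rw [corner_apply]; cases w k <;> norm_num

theorem corner_abs (w : Fin 3 → Bool) (k : Fin 3) : |1 - 2 * (corner w).1 k| = 1 := by
  rw [corner_apply]; cases w k <;> norm_num

theorem epv_abs (w : Fin 3 → Bool) (i k : Fin 3) :
    |(epv w i).1 k - (corner w).1 k| = if k = i then 1 / 8 else 0 := by
  rw [epv_apply, add_sub_cancel_left]
  split_ifs
  · rw [abs_mul, corner_abs]; norm_num
  · simp

theorem sqv_abs (w : Fin 3 → Bool) {i j : Fin 3} (hij : i ≠ j) (k : Fin 3) :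
    |(sqv w i j).1 k - (corner w).1 k| =
      (if k = i then 1 / 16 else 0) + (if k = j then 1 / 16 else 0) := by
  rw [sqv_apply, add_sub_cancel_left]
  by_cases h1 : k = i
  · have h2 : k ≠ j := fun h => hij (h1.symm.trans h)
    rw [if_pos h1, if_neg h2, if_pos h1, if_neg h2, add_zero, abs_mul, corner_abs]
    norm_num
  · rw [if_neg h1, if_neg h1]
    by_cases h2 : k = j
    · rw [if_pos h2, if_pos h2, zero_add, abs_mul, corner_abs]
      norm_num
    · rw [if_neg h2, if_neg h2]; simp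

theorem epv_dist_corner (w : Fin 3 → Bool) (i : Fin 3) :
    Dist.dist (corner w).1 (epv w i).1 ≤ 1 / 8 := by
  apply (abs_le_of_sq_le_sq' _ (by norm_num : (0:ℝ) ≤ 1 / 8)).2
  rw [eucl_dist_sq]
  have : ∀ k, ((corner w).1 k - (epv w i).1 k) ^ 2 = if k = i then 1 / 64 else 0 := by
    intro k
    rw [← sq_abs, abs_sub_comm, epv_abs]
    split_ifs <;> norm_num
  simp only [this, Finset.sum_ite_eq', Finset.mem_univ, if_true]
  norm_num

theorem sqv_dist_corner (w : Fin 3 → Bool) {i j : Fin 3} (hij : i ≠ j) :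
    Dist.dist (corner w).1 (sqv w i j).1 ≤ 1 / 8 := by
  apply (abs_le_of_sq_le_sq' _ (by norm_num : (0:ℝ) ≤ 1 / 8)).2
  rw [eucl_dist_sq]
  have : ∀ k, ((corner w).1 k - (sqv w i j).1 k) ^ 2 =
      (if k = i then 1 / 256 else 0) + (if k = j then 1 / 256 else 0) := by
    intro k
    rw [← sq_abs, abs_sub_comm, sqv_abs w hij]
    by_cases h1 : k = i
    · have h2 : k ≠ j := fun h => hij (h1.symm.trans h)
      rw [if_pos h1, if_neg h2, if_pos h1, if_neg h2]; norm_num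
    · rw [if_neg h1, if_neg h1]
      split_ifs <;> norm_num
  simp only [this, Finset.sum_add_distrib, Finset.sum_ite_eq', Finset.mem_univ, if_true]
  norm_num

theorem epv_epv (w : Fin 3 → Bool) {i j : Fin 3} (hij : i ≠ j) :
    Dist.dist (epv w i).1 (epv w j).1 ^ 2 = 1 / 32 := by
  rw [eucl_dist_sq]
  have : ∀ k, ((epv w i).1 k - (epv w j).1 k) ^ 2 =
      (if k = i then 1 / 64 else 0) + (if k = j then 1 / 64 else 0) := by
    intro k
    rw [epv_apply, epv_apply]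
    have hc := corner_sq w k
    by_cases h1 : k = i
    · have h2 : k ≠ j := fun h => hij (h1.symm.trans h)
      rw [if_pos h1, if_neg h2, if_pos h1, if_neg h2]
      linear_combination (1 / 64) * hc
    · rw [if_neg h1, if_neg h1]
      split_ifs
      · linear_combination (1 / 64) * hc
      · ring
  simp only [this, Finset.sum_add_distrib, Finset.sum_ite_eq', Finset.mem_univ, if_true]
  norm_num

namespace CubeComplex

variable {ι : Type} {K : CubeComplex ι}

/-- `p` is the point at distance `1/8` from `a` on the edge `a b`. -/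
def IsEP (K : CubeComplex ι) (a b : K.Vtx) (p : K.Point) : Prop :=
  ∃ c w i, a = K.vx c w ∧ b = K.vx c (fl w i) ∧ p = K.pt c (epv w i)

theorem ep_eq (hK : IsCAT0 K.dist) {a b : K.Vtx} {p p' : K.Point} (h : K.IsEP a b p)
    (h' : K.IsEP a b p') : p = p' := by
  obtain ⟨c, w, i, ha, hb, rfl⟩ := h
  obtain ⟨c', w', i', ha', hb', rfl⟩ := h'
  exact pt_seg hK (congrArg Subtype.val (ha.symm.trans ha'))
    (congrArg Subtype.val (hb.symm.trans hb')) eighth_mem

theorem Adj.exists_ep {a b : K.Vtx} (h : K.Adj a b) : ∃ p, K.IsEP a b p := by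
  obtain ⟨c, w, i, rfl, rfl⟩ := h
  exact ⟨_, c, w, i, rfl, rfl, rfl⟩

theorem sq_ep (hK : IsCAT0 K.dist) {a b e d : K.Vtx} (h : K.Sq a b e d) {p p' : K.Point}
    (hp : K.IsEP a b p) (hp' : K.IsEP a d p') : K.dist p p' ^ 2 = 1 / 32 := by
  obtain ⟨c, w, i, j, hij, ha, hb, he, hd⟩ := h
  have h1 := ep_eq hK hp ⟨c, w, i, ha, hb, rfl⟩
  have h2 := ep_eq hK hp' ⟨c, w, j, ha, hd, rfl⟩
  rw [h1, h2, dist_pt hK, epv_epv w hij]

open Classical in
theorem ep_data {a b : K.Vtx} {p : K.Point} (h : K.IsEP a b p) :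
    ∃ c w y, K.vx c w = a ∧ K.pt c y = p ∧ Dist.dist (corner w).1 y.1 ≤ 1 / 8 ∧
      ∀ (J : Type) [Fintype J] (β : J → K.Vtx) (j : J),
        Psi K β c w y j = if b = β j then 1 / 8 else 0 := by
  obtain ⟨c, w, i, ha, hb, hp⟩ := h
  refine ⟨c, w, epv w i, ha.symm, hp.symm, epv_dist_corner w i, ?_⟩
  intro J _ β j
  rw [Psi_apply]
  simp only [epv_abs]
  rw [Finset.sum_eq_single i]
  · rw [if_pos rfl, hb]
  · intro k _ hk
    rw [if_neg hk]; simp
  · intro h; exact absurd (Finset.mem_univ _) h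

open Classical in
theorem sq_data (hK : IsCAT0 K.dist) {a b e d : K.Vtx} (h : K.Sq a b e d) {p p' : K.Point}
    (hp : K.IsEP a b p) (hp' : K.IsEP a d p') :
    ∃ c w y, K.vx c w = a ∧ Dist.dist (corner w).1 y.1 ≤ 1 / 8 ∧
      K.dist p (K.pt c y) = (1 / 2) * K.dist p p' ∧
      K.dist p' (K.pt c y) = (1 - 1 / 2) * K.dist p p' ∧
      ∀ (J : Type) [Fintype J] (β : J → K.Vtx) (j : J),
        Psi K β c w y j = (if b = β j then 1 / 16 else 0) + (if d = β j then 1 / 16 else 0) := by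
  obtain ⟨c, w, i, j, hij, ha, hb, he, hd⟩ := h
  have h1 := ep_eq hK hp ⟨c, w, i, ha, hb, rfl⟩
  have h2 := ep_eq hK hp' ⟨c, w, j, ha, hd, rfl⟩
  have m0 : (0 : ℝ) ∈ Icc (0 : ℝ) 1 := ⟨le_rfl, zero_le_one⟩
  have m1 : (1 : ℝ) ∈ Icc (0 : ℝ) 1 := ⟨zero_le_one, le_rfl⟩
  refine ⟨c, w, sqv w i j, ha.symm, sqv_dist_corner w hij, ?_, ?_, ?_⟩
  · rw [h1, h2, dist_pt hK, dist_pt hK, sqv]
    have := dist_seg_seg (epv w i) (epv w j) m0 half_mem
    rw [seg_zero] at this
    rw [this]; norm_num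
  · rw [h1, h2, dist_pt hK, dist_pt hK, sqv]
    have := dist_seg_seg (epv w i) (epv w j) m1 half_mem
    rw [seg_one] at this
    rw [this]; norm_num
  · intro J _ β l
    rw [Psi_apply]
    simp only [sqv_abs w hij]
    have : ∀ k, (if K.vx c (fl w k) = β l then
        ((if k = i then (1 / 16 : ℝ) else 0) + (if k = j then (1 / 16 : ℝ) else 0)) else 0) =
        (if k = i then (if K.vx c (fl w k) = β l then (1 / 16 : ℝ) else 0) else 0) +
        (if k = j then (if K.vx c (fl w k) = β l then (1 / 16 : ℝ) else 0) else 0) := by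
      intro k
      split_ifs <;> simp
    simp only [this, Finset.sum_add_distrib, Finset.sum_ite_eq', Finset.mem_univ, if_true]
    rw [hb, hd]

/-- If three squares pairwise share edges at a vertex, they lie in a common cube. -/
theorem corner_cube (hK : IsCAT0 K.dist) {a b1 b2 b3 c12 c23 c31 : K.Vtx}
    (h12 : K.Sq a b1 c12 b2) (h23 : K.Sq a b2 c23 b3) (h31 : K.Sq a b3 c31 b1) :
    ∃ c w i1 i2 i3, K.vx c w = a ∧ K.vx c (fl w i1) = b1 ∧ K.vx c (fl w i2) = b2 ∧
      K.vx c (fl w i3) = b3 ∧ i1 ≠ i2 ∧ i2 ≠ i3 ∧ i1 ≠ i3 := by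
  classical
  have hm := isMet hK
  have n12 : b1 ≠ b2 := Sq.ne hK h12.rot
  have n23 : b2 ≠ b3 := Sq.ne hK h23.rot
  have n31 : b3 ≠ b1 := Sq.ne hK h31.rot
  obtain ⟨p1, hp1⟩ := h12.adj.exists_ep
  obtain ⟨p2, hp2⟩ := h23.adj.exists_ep
  obtain ⟨p3, hp3⟩ := h31.adj.exists_ep
  have d12 := sq_ep hK h12 hp1 hp2
  have d23 := sq_ep hK h23 hp2 hp3
  have d31 := sq_ep hK h31 hp3 hp1
  obtain ⟨c, w, y, e1, e2, e3, e4⟩ := ep_data hp1
  obtain ⟨c', w', y', f1, f2, f3, f4, f5⟩ := sq_data hK h23 hp2 hp3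
  set β : Fin 3 → K.Vtx := ![b1, b2, b3] with hβ
  have hb : Function.Injective β := by
    intro i j hij
    fin_cases i <;> fin_cases j <;> simp_all [β]
  have hcn := hK.cn' hm half_mem f3 f4 p1
  have e4' := e4 (Fin 3) β
  have f5' := f5 (Fin 3) β
  have hPsi : Dist.dist (Psi K β c w y) (Psi K β c' w' y') ^ 2 = 3 / 128 := by
    rw [eucl_dist_sq, Fin.sum_univ_three, e4', e4', e4', f5', f5', f5']
    simp only [β, Matrix.cons_val_zero, Matrix.cons_val_one, Matrix.cons_val]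
    simp only [n12, n12.symm, n23, n23.symm, n31, n31.symm, if_true, if_false]
    norm_num
  have hK2 : K.dist (K.pt c y) (K.pt c' y') ^ 2 ≤ 3 / 128 := by
    rw [e2, hm.symm]
    refine hcn.trans ?_
    rw [hm.symm p2 p1, d12, d31, d23]
    norm_num
  have hle : K.dist (K.pt c y) (K.pt c' y') ≤
      Dist.dist (Psi K β c w y) (Psi K β c' w' y') := by
    apply (abs_le_of_sq_le_sq' _ dist_nonneg).2
    rw [hPsi]; exact hK2
  obtain ⟨c1, w1, g1, g2⟩ := flag_lemma hK hb (e1.trans f1.symm) e3 f2 hle (by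
    intro j
    rw [e4', f5']
    fin_cases j
    · left; simp [β]
    · right; simp only [β]; simp; split_ifs <;> norm_num
    · right; simp only [β]; simp; split_ifs <;> norm_num)
  obtain ⟨i1, hi1⟩ := g2 0
  obtain ⟨i2, hi2⟩ := g2 1
  obtain ⟨i3, hi3⟩ := g2 2
  simp only [β, Matrix.cons_val_zero, Matrix.cons_val_one, Matrix.cons_val] at hi1 hi2 hi3
  refine ⟨c1, w1, i1, i2, i3, g1.trans e1, hi1, hi2, hi3, ?_, ?_, ?_⟩
  · rintro rfl; exact n12 (hi1.symm.trans hi2)
  · rintro rfl; exact n23 (hi2.symm.trans hi3)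
  · rintro rfl; exact n31 (hi3.symm.trans hi1)

theorem cube_cond (hK : IsCAT0 K.dist) {a b1 b2 b3 c12 c23 c31 : K.Vtx}
    (h12 : K.Sq a b1 c12 b2) (h23 : K.Sq a b2 c23 b3) (h31 : K.Sq a b3 c31 b1) :
    ∃ x, K.Sq b1 c12 x c31 ∧ K.Sq b2 c12 x c23 ∧ K.Sq b3 c31 x c23 := by
  obtain ⟨c, w, i1, i2, i3, ha, hb1, hb2, hb3, n12, n23, n13⟩ := corner_cube hK h12 h23 h31
  subst ha hb1 hb2 hb3
  have e12 : c12 = K.vx c (fl (fl w i1) i2) :=
    h12.uniq hK ⟨c, w, i1, i2, n12, rfl, rfl, rfl, rfl⟩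
  have e23 : c23 = K.vx c (fl (fl w i2) i3) :=
    h23.uniq hK ⟨c, w, i2, i3, n23, rfl, rfl, rfl, rfl⟩
  have e31 : c31 = K.vx c (fl (fl w i3) i1) :=
    h31.uniq hK ⟨c, w, i3, i1, n13.symm, rfl, rfl, rfl, rfl⟩
  subst e12 e23 e31
  refine ⟨K.vx c (anti w), ?_, ?_, ?_⟩
  · exact ⟨c, fl w i1, i2, i3, n23, rfl, rfl, by rw [anti_eq w n12 n13 n23],
      by rw [fl_comm]⟩
  · exact ⟨c, fl w i2, i1, i3, n13, rfl, by rw [fl_comm],
      by rw [anti_eq w n12.symm n23 n13], rfl⟩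
  · exact ⟨c, fl w i3, i1, i2, n12, rfl, rfl,
      by rw [anti_eq w n13.symm n23.symm n12], by rw [fl_comm]⟩

/-- There are no four edges at a vertex that pairwise span squares. -/
theorem no_four (hK : IsCAT0 K.dist) {a b1 b2 b3 b4 c12 c23 c34 c13 c24 c14 : K.Vtx}
    (h12 : K.Sq a b1 c12 b2) (h23 : K.Sq a b2 c23 b3) (h34 : K.Sq a b3 c34 b4)
    (h13 : K.Sq a b1 c13 b3) (h24 : K.Sq a b2 c24 b4) (h14 : K.Sq a b1 c14 b4) : False := by
  classical
  have hm := isMet hK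
  have n12 : b1 ≠ b2 := Sq.ne hK h12.rot
  have n23 : b2 ≠ b3 := Sq.ne hK h23.rot
  have n34 : b3 ≠ b4 := Sq.ne hK h34.rot
  have n13 : b1 ≠ b3 := Sq.ne hK h13.rot
  have n24 : b2 ≠ b4 := Sq.ne hK h24.rot
  have n14 : b1 ≠ b4 := Sq.ne hK h14.rot
  obtain ⟨p1, hp1⟩ := h12.adj.exists_ep
  obtain ⟨p2, hp2⟩ := h23.adj.exists_ep
  obtain ⟨p3, hp3⟩ := h34.adj.exists_ep
  obtain ⟨p4, hp4⟩ := h14.rev.adj.exists_ep
  have d12 := sq_ep hK h12 hp1 hp2
  have d23 := sq_ep hK h23 hp2 hp3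
  have d34 := sq_ep hK h34 hp3 hp4
  have d13 := sq_ep hK h13 hp1 hp3
  have d24 := sq_ep hK h24 hp2 hp4
  have d14 := sq_ep hK h14 hp1 hp4
  obtain ⟨c, w, y, e1, e2, e3, e4, e5⟩ := sq_data hK h12 hp1 hp2
  obtain ⟨c', w', y', f1, f2, f3, f4, f5⟩ := sq_data hK h34 hp3 hp4
  set β : Fin 4 → K.Vtx := ![b1, b2, b3, b4] with hβ
  have hb : Function.Injective β := by
    intro i j hij
    fin_cases i <;> fin_cases j <;> simp_all [β]
  have hcn3 := hK.cn' hm half_mem e3 e4 p3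
  have hcn4 := hK.cn' hm half_mem e3 e4 p4
  have hcn := hK.cn' hm half_mem f3 f4 (K.pt c y)
  have e5' := e5 (Fin 4) β
  have f5' := f5 (Fin 4) β
  have hPsi : Dist.dist (Psi K β c w y) (Psi K β c' w' y') ^ 2 = 1 / 64 := by
    rw [eucl_dist_sq, Fin.sum_univ_four, e5', e5', e5', e5', f5', f5', f5', f5']
    simp only [β, Matrix.cons_val_zero, Matrix.cons_val_one, Matrix.cons_val]
    simp only [n12, n12.symm, n23, n23.symm, n34, n34.symm, n13, n13.symm, n24, n24.symm,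
      n14, n14.symm, if_true, if_false]
    norm_num
  have hK2 : K.dist (K.pt c y) (K.pt c' y') ^ 2 ≤ 1 / 64 := by
    rw [hm.symm]
    refine hcn.trans ?_
    rw [hm.symm p3 (K.pt c y), hm.symm p4 (K.pt c y), d34]
    rw [d12, d13, d23] at hcn3
    rw [d12, d14, d24] at hcn4
    linarith
  have hle : K.dist (K.pt c y) (K.pt c' y') ≤
      Dist.dist (Psi K β c w y) (Psi K β c' w' y') := by
    apply (abs_le_of_sq_le_sq' _ dist_nonneg).2
    rw [hPsi]; exact hK2
  obtain ⟨c1, w1, g1, g2⟩ := flag_lemma hK hb (e1.trans f1.symm) e2 f2 hle (by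
    intro j
    rw [e5', f5']
    fin_cases j
    · left; simp only [β]; simp; split_ifs <;> norm_num
    · left; simp only [β]; simp; split_ifs <;> norm_num
    · right; simp only [β]; simp; split_ifs <;> norm_num
    · right; simp only [β]; simp; split_ifs <;> norm_num)
  choose f hf using g2
  have hinj : Function.Injective f := by
    intro i j hij
    apply hb
    rw [← hf i, ← hf j, hij]
  have := Fintype.card_le_of_injective f hinj
  simp at this

end CubeComplex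

end Pool.Agent.H41
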