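import Pool.Agent.H41.Median

/-! Corners of hyperplane systems and the Helly property. -/

namespace Pool.Agent.H41

section

variable {W : Type} {G : SimpleGraph W} {Sq : W → W → W → W → Prop}

/-- Squares between a crossing edge and an edge towards another crossing edge. -/
theorem sq_towards (M : Med G Sq) {H : Set W} (hH : IsHalf G H) {x x' h h' y : W}
    (hx : x ∉ H) (hx' : x' ∉ H) (hxh : G.Adj x h) (hh : h ∈ H) (hxh' : G.Adj x' h')
    (hh' : h' ∈ H) (hxy : G.Adj x y) (hd : G.dist x' y + 1 = G.dist x' x) :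
    ∃ z, Sq x h z y := by
  have e1 : Hᶜ = Ws G x' h' := (hH.compl M).cross M hxh' hx' (by simpa using hh')
  have e2 : H = Ws G h x := hH.cross M hxh.symm hh hx
  have hy : y ∈ Hᶜ := (hH.compl M).convex M hx' hx (by
    rw [SimpleGraph.dist_eq_one_iff_adj.2 hxy.symm]; exact hd)
  have f1 : G.dist x h' = G.dist x x' + 1 := by
    have : x ∈ Hᶜ := hx
    rw [e1, mem_Ws_iff M hxh'] at this
    exact this
  have f2 : G.dist y h' = G.dist y x' + 1 := by
    rw [e1, mem_Ws_iff M hxh'] at hy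
    exact hy
  have f3 : G.dist h' x = G.dist h' h + 1 := by
    rw [e2, mem_Ws_iff M hxh.symm] at hh'
    exact hh'
  have s1 : G.dist x h' = G.dist h' x := SimpleGraph.dist_comm
  have s2 : G.dist y h' = G.dist h' y := SimpleGraph.dist_comm
  have s3 : G.dist y x' = G.dist x' y := SimpleGraph.dist_comm
  have s4 : G.dist x x' = G.dist x' x := SimpleGraph.dist_comm
  have hne : h ≠ y := by
    rintro rfl
    exact hy hh
  obtain ⟨z, hz, _⟩ := quad M (x := h') hxh.symm hxy.symm hne (by omega) (by omega)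
  exact ⟨z, hz⟩

/-- A vertex with edges crossing three half-spaces pairwise spanning squares is determined by
the half-spaces (on a given side of all of them). -/
theorem corner_unique (M : Med G Sq) {H1 H2 H3 : Set W} (hH1 : IsHalf G H1)
    (hH2 : IsHalf G H2) (hH3 : IsHalf G H3) {x x' h1 h2 h3 h1' h2' h3' e12 e23 e13 : W}
    (x1 : x ∉ H1) (x2 : x ∉ H2) (x3 : x ∉ H3) (x1' : x' ∉ H1) (x2' : x' ∉ H2)
    (x3' : x' ∉ H3) (a1 : G.Adj x h1) (a2 : G.Adj x h2) (a3 : G.Adj x h3)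
    (b1 : G.Adj x' h1') (b2 : G.Adj x' h2') (b3 : G.Adj x' h3')
    (c1 : h1 ∈ H1) (c2 : h2 ∈ H2) (c3 : h3 ∈ H3) (d1 : h1' ∈ H1) (d2 : h2' ∈ H2)
    (d3 : h3' ∈ H3) (s12 : Sq x h1 e12 h2) (s23 : Sq x h2 e23 h3) (s13 : Sq x h1 e13 h3) :
    x = x' := by
  by_contra hne
  obtain ⟨y, hy, hd⟩ := exists_closer M (Ne.symm hne)
  obtain ⟨z1, k1⟩ := sq_towards M hH1 x1 x1' a1 c1 b1 d1 hy.symm hd
  obtain ⟨z2, k2⟩ := sq_towards M hH2 x2 x2' a2 c2 b2 d2 hy.symm hd
  obtain ⟨z3, k3⟩ := sq_towards M hH3 x3 x3' a3 c3 b3 d3 hy.symm hd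
  exact M.no_four s12 s23 k3 s13 k2 k1

/-- The neighbour of `x` across a half-space is unique. -/
theorem nbr_unique (M : Med G Sq) {H : Set W} (hH : IsHalf G H) {x h h' : W} (hx : x ∉ H)
    (a : G.Adj x h) (a' : G.Adj x h') (b : h ∈ H) (b' : h' ∈ H) : h = h' := by
  have e : H = Ws G h' x := hH.cross M a'.symm b' hx
  rw [e, mem_Ws_iff M a'.symm] at b
  have h1 : G.dist h x = 1 := SimpleGraph.dist_eq_one_iff_adj.2 a.symm
  exact M.conn.dist_eq_zero_iff.1 (by omega)

/-- Convex sets. -/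
def Cvx (G : SimpleGraph W) (C : Set W) : Prop :=
  ∀ x ∈ C, ∀ y ∈ C, ∀ m, G.dist x m + G.dist m y = G.dist x y → m ∈ C

theorem IsHalf.cvx (M : Med G Sq) {H : Set W} (h : IsHalf G H) : Cvx G H :=
  fun _ hx _ hy _ hm => h.convex M hx hy hm

theorem helly3 (M : Med G Sq) {A B C : Set W} (hA : Cvx G A) (hB : Cvx G B) (hC : Cvx G C)
    (hAB : (A ∩ B).Nonempty) (hBC : (B ∩ C).Nonempty) (hAC : (A ∩ C).Nonempty) :
    ∃ m, m ∈ A ∧ m ∈ B ∧ m ∈ C := by
  obtain ⟨x, xA, xB⟩ := hAB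
  obtain ⟨y, yB, yC⟩ := hBC
  obtain ⟨z, zA, zC⟩ := hAC
  obtain ⟨m, m1, m2, m3⟩ := exists_median M x y z
  exact ⟨m, hA x xA z zA m m3, hB x xB y yB m m1, hC y yC z zC m m2⟩

theorem helly4 (M : Med G Sq) {A B C D : Set W} (hA : Cvx G A) (hB : Cvx G B) (hC : Cvx G C)
    (hD : Cvx G D) (hAB : (A ∩ B).Nonempty) (hBC : (B ∩ C).Nonempty) (hAC : (A ∩ C).Nonempty)
    (hAD : (A ∩ D).Nonempty) (hBD : (B ∩ D).Nonempty) (hCD : (C ∩ D).Nonempty) :
    ∃ m, m ∈ A ∧ m ∈ B ∧ m ∈ C ∧ m ∈ D := by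
  obtain ⟨p, pA, pB, pC⟩ := helly3 M hA hB hC hAB hBC hAC
  obtain ⟨q, qA, qB, qD⟩ := helly3 M hA hB hD hAB hBD hAD
  obtain ⟨r, rA, rC, rD⟩ := helly3 M hA hC hD hAC hCD hAD
  obtain ⟨m, m1, m2, m3⟩ := exists_median M p q r
  exact ⟨m, hA p pA q qA m m1, hB p pB q qB m m1, hC p pC r rC m m3, hD q qD r rD m m2⟩

/-- One side of a half-space. -/
def side (H : Set W) (a : Bool) : Set W := {x | x ∈ H ↔ a = true}

theorem side_true (H : Set W) : side H true = H := by
  ext x; simp [side]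

theorem side_false (H : Set W) : side H false = Hᶜ := by
  ext x; simp [side]

theorem cvx_side (M : Med G Sq) {H : Set W} (h : IsHalf G H) (a : Bool) : Cvx G (side H a) := by
  cases a
  · rw [side_false]; exact (h.compl M).cvx M
  · rw [side_true]; exact h.cvx M

/-- Four pairwise crossing half-spaces do not exist. -/
theorem no_four_half (M : Med G Sq) (H : Fin 4 → Set W) (hH : ∀ i, IsHalf G (H i))
    (hq : ∀ i j, i ≠ j → ∀ a b : Bool, (side (H i) a ∩ side (H j) b).Nonempty) : False := by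
  classical
  have sector : ∀ σ : Fin 4 → Bool, ∃ x, ∀ i, x ∈ side (H i) (σ i) := by
    intro σ
    obtain ⟨m, m0, m1, m2, m3⟩ := helly4 M (cvx_side M (hH 0) (σ 0)) (cvx_side M (hH 1) (σ 1))
      (cvx_side M (hH 2) (σ 2)) (cvx_side M (hH 3) (σ 3)) (hq 0 1 (by decide) _ _)
      (hq 1 2 (by decide) _ _) (hq 0 2 (by decide) _ _) (hq 0 3 (by decide) _ _)
      (hq 1 3 (by decide) _ _) (hq 2 3 (by decide) _ _)
    refine ⟨m, ?_⟩
    intro i
    fin_cases i
    · exact m0
    · exact m1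
    · exact m2
    · exact m3
  have hex : ∃ n x y, (∀ i, x ∈ side (H i) false) ∧ (∀ i, y ∈ side (H i) true) ∧
      G.dist x y = n := by
    obtain ⟨x, hx⟩ := sector (fun _ => false)
    obtain ⟨y, hy⟩ := sector (fun _ => true)
    exact ⟨_, x, y, hx, hy, rfl⟩
  obtain ⟨x, y, hx, hy, hxy⟩ := Nat.find_spec hex
  have hmin : ∀ x', (∀ i, x' ∈ side (H i) false) → G.dist x y ≤ G.dist x' y := by
    intro x' hx'
    rw [hxy]
    exact Nat.find_min' hex ⟨x', y, hx', hy, rfl⟩
  simp only [side_false, side_true, Set.mem_compl_iff] at hx hy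
  have hnb : ∀ i, ∃ h, G.Adj x h ∧ h ∈ H i ∧ G.dist y h + 1 = G.dist y x := by
    intro i
    obtain ⟨z, hz⟩ := sector (fun k => decide (k = i))
    obtain ⟨m, m1, m2, m3⟩ := exists_median M x y z
    have hmi : m ∈ H i := by
      have hzi := hz i
      simp only [decide_true, side_true] at hzi
      exact (hH i).convex M (hy i) hzi m2
    have hmk : ∀ k, k ≠ i → m ∉ H k := by
      intro k hk
      have hzk := hz k
      simp only [hk, decide_false, side_false, Set.mem_compl_iff] at hzk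
      exact ((hH k).compl M).convex M (hx k) hzk m3
    have hxm : m ≠ x := by
      rintro rfl
      exact hx i hmi
    obtain ⟨x1, hadj, hd⟩ := exists_closer M hxm
    have s1 : G.dist m x = G.dist x m := SimpleGraph.dist_comm
    have s2 : G.dist m x1 = G.dist x1 m := SimpleGraph.dist_comm
    have s3 : G.dist y x = G.dist x y := SimpleGraph.dist_comm
    have s4 : G.dist y x1 = G.dist x1 y := SimpleGraph.dist_comm
    have h1 : G.dist x x1 = 1 := SimpleGraph.dist_eq_one_iff_adj.2 hadj.symm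
    have t1 := M.conn.dist_triangle (u := x1) (v := m) (w := y)
    have t2 := bip M y hadj
    refine ⟨x1, hadj.symm, ?_, by omega⟩
    by_contra hcon
    have hx1 : ∀ k, x1 ∈ side (H k) false := by
      intro k
      rw [side_false]
      by_cases hk : k = i
      · subst hk; exact hcon
      · exact ((hH k).compl M).convex M (hx k) (hmk k hk) (by omega)
    have := hmin x1 hx1
    omega
  choose h ha hb hc using hnb
  have hne : ∀ i j, i ≠ j → h i ≠ h j := by
    intro i j hij heq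
    have e1 : H i = Ws G (h i) x := (hH i).cross M (ha i).symm (hb i) (hx i)
    have e2 : H j = Ws G (h j) x := (hH j).cross M (ha j).symm (hb j) (hx j)
    obtain ⟨p, p1, p2⟩ := hq i j hij true false
    rw [side_true] at p1
    rw [side_false] at p2
    apply p2
    rw [e2, ← heq, ← e1]
    exact p1
  have hsq : ∀ i j, i ≠ j → ∃ z, Sq x (h i) z (h j) := by
    intro i j hij
    obtain ⟨z, hz, _⟩ := quad M (x := y) (ha i).symm (ha j).symm (hne i j hij) (hc i) (hc j)
    exact ⟨z, hz⟩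
  obtain ⟨z01, k01⟩ := hsq 0 1 (by decide)
  obtain ⟨z12, k12⟩ := hsq 1 2 (by decide)
  obtain ⟨z23, k23⟩ := hsq 2 3 (by decide)
  obtain ⟨z02, k02⟩ := hsq 0 2 (by decide)
  obtain ⟨z13, k13⟩ := hsq 1 3 (by decide)
  obtain ⟨z03, k03⟩ := hsq 0 3 (by decide)
  exact M.no_four k01 k12 k23 k02 k13 k03

end

end Pool.Agent.H41
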