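import Pool.Agent.H41.Helly

/-! The hyperplanes of a CAT(0) cube complex built from 3-cubes. -/

namespace Pool.Agent.H41

open Set

namespace CubeComplex

variable {ι : Type} {K : CubeComplex ι}

/-- The 1-skeleton. -/
def gr (hK : IsCAT0 K.dist) : SimpleGraph K.Vtx where
  Adj := K.Adj
  symm := ⟨fun _ _ h => h.symm⟩
  loopless := ⟨fun _ h => h.ne hK rfl⟩

theorem reach_upd (hK : IsCAT0 K.dist) (c : ι) (w : Fin 3 → Bool) (k : Fin 3) (b : Bool) :
    (gr hK).Reachable (K.vx c w) (K.vx c (Function.update w k b)) := by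
  by_cases h : w k = b
  · rw [← h, Function.update_eq_self]
  · have : Function.update w k b = fl w k := by
      unfold fl
      congr 1
      cases hw : w k <;> cases b <;> simp_all
    rw [this]
    exact SimpleGraph.Adj.reachable (show (gr hK).Adj _ _ from ⟨c, w, k, rfl, rfl⟩)

theorem upd3 (w u : Fin 3 → Bool) :
    Function.update (Function.update (Function.update w 0 (u 0)) 1 (u 1)) 2 (u 2) = u := by
  funext k
  fin_cases k <;> simp [Function.update]

theorem reach_cube (hK : IsCAT0 K.dist) (c : ι) (w u : Fin 3 → Bool) :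
    (gr hK).Reachable (K.vx c w) (K.vx c u) := by
  have h1 := reach_upd hK c w 0 (u 0)
  have h2 := reach_upd hK c (Function.update w 0 (u 0)) 1 (u 1)
  have h3 := reach_upd hK c (Function.update (Function.update w 0 (u 0)) 1 (u 1)) 2 (u 2)
  rw [upd3] at h3
  exact h1.trans (h2.trans h3)

theorem reach_pt (hK : IsCAT0 K.dist) {c c' : ι} {x x' : unitCube} (h : K.pt c x = K.pt c' x')
    (w u : Fin 3 → Bool) : (gr hK).Reachable (K.vx c w) (K.vx c' u) := by
  classical
  obtain ⟨g, _, hg⟩ := K.pt_glue h
  have hf : InFace x (corner (fun i => decide (1 / 2 ≤ x.1 i))) := by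
    apply inFace_of_sup
    intro i
    have := x.2 i
    rw [corner_apply, abs_lt]
    by_cases h : 1 / 2 ≤ x.1 i
    · simp only [h, decide_true, if_true]
      constructor <;> linarith [this.1, this.2]
    · simp only [h, decide_false]
      push Not at h
      constructor <;> simp <;> linarith [this.1, this.2]
  have e := hg _ hf
  rw [act_corner] at e
  have e' : K.vx c (fun i => decide (1 / 2 ≤ x.1 i)) =
      K.vx c' (g.actB (fun i => decide (1 / 2 ≤ x.1 i))) := Subtype.ext e
  have h1 := reach_cube hK c w (fun i => decide (1 / 2 ≤ x.1 i))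
  rw [e'] at h1
  exact h1.trans (reach_cube hK c' _ u)

theorem reach_str (hK : IsCAT0 K.dist) {p q : K.Point} {L : ℝ} (h : K.Str p q L) :
    ∀ {c : ι} {x : unitCube}, p = K.pt c x → ∀ {c' : ι} {x' : unitCube}, q = K.pt c' x' →
      ∀ w u, (gr hK).Reachable (K.vx c w) (K.vx c' u) := by
  induction h with
  | refl p =>
    intro c x hp c' x' hq w u
    exact reach_pt hK (hp.symm.trans hq) w u
  | cons c1 a b q L _ ih =>
    intro c x hp c' x' hq w u
    have h1 := reach_pt hK hp.symm w w
    exact h1.trans (ih rfl hq w u)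

theorem gr_connected (hK : IsCAT0 K.dist) [Nonempty ι] : (gr hK).Connected := by
  rw [SimpleGraph.connected_iff]
  refine ⟨?_, ⟨K.vx (Classical.arbitrary ι) (fun _ => false)⟩⟩
  intro u v
  obtain ⟨c, w, rfl⟩ := exists_vx u
  obtain ⟨c', w', rfl⟩ := exists_vx v
  obtain ⟨L, hL⟩ := conn hK (K.pt c (corner w)) (K.pt c' (corner w'))
  exact reach_str hK hL rfl rfl w w'

theorem med (hK : IsCAT0 K.dist) [Finite ι] [Nonempty ι] : Med (gr hK) K.Sq where
  ax := sqAx hK
  sq_adj h := h.adj
  conn := gr_connected hK
  uniq hp hq ip iq := irr_unique hK hp hq ip iq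
  no_four h12 h23 h34 h13 h24 h14 := no_four hK h12 h23 h34 h13 h24 h14

section

variable (hK : IsCAT0 K.dist) (o : K.Vtx)

/-- The lower side of the hyperplane of `c` in direction `i`. -/
def low (c : ι) (i : Fin 3) (w : Fin 3 → Bool) : Set K.Vtx :=
  Ws (gr hK) (K.vx c (Function.update w i false)) (K.vx c (Function.update w i true))

theorem low_upd [Finite ι] [Nonempty ι] (c : ι) (i : Fin 3) (w : Fin 3 → Bool) (j : Fin 3)
    (b : Bool) : low hK c i (Function.update w j b) = low hK c i w := by
  by_cases hji : j = i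
  · subst hji
    unfold low
    rw [Function.update_idem, Function.update_idem]
  · by_cases hb : w j = b
    · rw [← hb, Function.update_eq_self]
    · unfold low
      have M := med hK
      have hs : K.Sq (K.vx c (Function.update w i false)) (K.vx c (Function.update w i true))
          (K.vx c (Function.update (Function.update w j b) i true))
          (K.vx c (Function.update (Function.update w j b) i false)) := by
        refine ⟨c, Function.update w i false, i, j, Ne.symm hji, rfl, ?_, ?_, ?_⟩
        · congr 1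
          funext k
          by_cases hk : k = i
          · subst hk; simp [fl]
          · simp [fl, hk]
        · congr 1
          funext k
          by_cases hk : k = i
          · subst hk; simp [fl, Ne.symm hji]
          · by_cases hk' : k = j
            · subst hk'
              simp [fl, hk]
              cases h1 : w k <;> cases b <;> simp_all
            · simp [fl, hk, hk']
        · congr 1
          funext k
          by_cases hk : k = i
          · subst hk; simp [fl, Ne.symm hji]
          · by_cases hk' : k = j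
            · subst hk'
              simp [fl, hk]
              cases h1 : w k <;> cases b <;> simp_all
            · simp [fl, hk, hk']
      exact (Ws_sq M hs).symm

theorem low_eq [Finite ι] [Nonempty ι] (c : ι) (i : Fin 3) (w u : Fin 3 → Bool) :
    low hK c i w = low hK c i u := by
  conv_rhs => rw [← upd3 w u, low_upd, low_upd, low_upd]

theorem mem_low [Finite ι] [Nonempty ι] (c : ι) (i : Fin 3) (w u : Fin 3 → Bool) :
    K.vx c w ∈ low hK c i u ↔ w i = false := by
  have M := med hK
  have hadj : (gr hK).Adj (K.vx c (Function.update w i false))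
      (K.vx c (Function.update w i true)) := by
    refine ⟨c, Function.update w i false, i, rfl, ?_⟩
    congr 1
    funext k
    by_cases hk : k = i
    · subst hk; simp [fl]
    · simp [fl, hk]
  rw [low_eq hK c i u w]
  unfold low
  cases hw : w i
  · have : Function.update w i false = w := by rw [← hw, Function.update_eq_self]
    rw [this] at hadj ⊢
    exact iff_of_true (left_mem M hadj) rfl
  · have : Function.update w i true = w := by rw [← hw, Function.update_eq_self]
    rw [this] at hadj ⊢
    exact iff_of_false (right_not_mem M hadj) (by simp)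

theorem isHalf_low [Finite ι] [Nonempty ι] (c : ι) (i : Fin 3) (u : Fin 3 → Bool) :
    IsHalf (gr hK) (low hK c i u) := by
  refine ⟨_, _, ?_, rfl⟩
  refine ⟨c, Function.update u i false, i, rfl, ?_⟩
  congr 1
  funext k
  by_cases hk : k = i
  · subst hk; simp [fl]
  · simp [fl, hk]

open Classical in
/-- The hyperplane of the cube `c` in direction `i`, represented by its side not containing the
base vertex `o`. -/
noncomputable def Hc (c : ι) (i : Fin 3) : Set K.Vtx :=
  if o ∈ low hK c i (fun _ => false) then (low hK c i (fun _ => false))ᶜ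
  else low hK c i (fun _ => false)

open Classical in
noncomputable def sgn (c : ι) (i : Fin 3) : Bool :=
  if o ∈ low hK c i (fun _ => false) then true else false

variable [Finite ι] [Nonempty ι]

theorem o_not_mem (c : ι) (i : Fin 3) : o ∉ Hc hK o c i := by
  unfold Hc
  split_ifs with h
  · simpa using h
  · exact h

theorem isHalf_Hc (c : ι) (i : Fin 3) : IsHalf (gr hK) (Hc hK o c i) := by
  unfold Hc
  split_ifs with h
  · exact (isHalf_low hK c i _).compl (med hK)
  · exact isHalf_low hK c i _

theorem mem_Hc (c : ι) (i : Fin 3) (w : Fin 3 → Bool) :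
    K.vx c w ∈ Hc hK o c i ↔ w i = sgn hK o c i := by
  unfold Hc sgn
  split_ifs with h
  · rw [mem_compl_iff, mem_low]
    simp
  · rw [mem_low]

theorem Hc_ne (c : ι) {i j : Fin 3} (hij : i ≠ j) : Hc hK o c i ≠ Hc hK o c j := by
  intro h
  have h1 := mem_Hc hK o c i (Function.update (fun _ => sgn hK o c i) j (!sgn hK o c j))
  have h2 := mem_Hc hK o c j (Function.update (fun _ => sgn hK o c i) j (!sgn hK o c j))
  rw [h] at h1
  rw [h1] at h2
  simp [hij] at h2

theorem quadrant (c : ι) {i j : Fin 3} (hij : i ≠ j) (a b : Bool) :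
    (side (Hc hK o c i) a ∩ side (Hc hK o c j) b).Nonempty := by
  refine ⟨K.vx c (Function.update (fun _ => xor (!a) (sgn hK o c i)) j
    (xor (!b) (sgn hK o c j))), ?_, ?_⟩
  · show _ ↔ _
    rw [mem_Hc]
    simp [hij]
    cases a <;> cases sgn hK o c i <;> simp
  · show _ ↔ _
    rw [mem_Hc]
    simp
    cases b <;> cases sgn hK o c j <;> simp

/-- The crossing graph of the hyperplanes. -/
def crs : SimpleGraph (Set K.Vtx) where
  Adj H H' := ∃ c i j, i ≠ j ∧ Hc hK o c i = H ∧ Hc hK o c j = H'
  symm := ⟨by
    rintro _ _ ⟨c, i, j, hij, rfl, rfl⟩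
    exact ⟨c, j, i, hij.symm, rfl, rfl⟩⟩
  loopless := ⟨by
    rintro _ ⟨c, i, j, hij, h1, h2⟩
    exact Hc_ne hK o c hij (h1.trans h2.symm)⟩

theorem crs_cliqueFree : (crs hK o).CliqueFree 4 := by
  classical
  rw [SimpleGraph.cliqueFree_iff]
  constructor
  intro f
  apply no_four_half (med hK) (fun i => f i)
  · intro i
    have hne : i ≠ i + 1 := by revert i; decide
    obtain ⟨c, a, b, _, h1, _⟩ := f.toHom.map_adj (show (⊤ : SimpleGraph (Fin 4)).Adj i (i + 1) from hne)
    have h1' : Hc hK o c a = f i := h1
    show IsHalf (gr hK) (f i)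
    rw [← h1']
    exact isHalf_Hc hK o c a
  · intro i j hij a b
    obtain ⟨c, k, l, hkl, h1, h2⟩ := f.toHom.map_adj (show (⊤ : SimpleGraph (Fin 4)).Adj i j from hij)
    have h1' : Hc hK o c k = f i := h1
    have h2' : Hc hK o c l = f j := h2
    show (side (f i) a ∩ side (f j) b).Nonempty
    rw [← h1', ← h2']
    exact quadrant hK o c hkl a b

/-- The opposite corner to all hyperplanes of a cube. -/
noncomputable def bc (c : ι) : Fin 3 → Bool := fun i => !sgn hK o c i

theorem bc_not_mem (c : ι) (i : Fin 3) : K.vx c (bc hK o c) ∉ Hc hK o c i := by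
  rw [mem_Hc]
  unfold bc
  cases sgn hK o c i <;> simp

theorem bc_fl_mem (c : ι) (i : Fin 3) : K.vx c (fl (bc hK o c) i) ∈ Hc hK o c i := by
  rw [mem_Hc, fl_same]
  unfold bc
  cases sgn hK o c i <;> simp

/-- A cube is determined by its three hyperplanes. -/
theorem cube_of_hyp {c c' : ι} (π : Fin 3 → Fin 3)
    (hπ : ∀ i, Hc hK o c i = Hc hK o c' (π i)) : c = c' := by
  have M := med hK
  have key : K.vx c (bc hK o c) = K.vx c' (bc hK o c') := by
    apply corner_unique M (isHalf_Hc hK o c 0) (isHalf_Hc hK o c 1) (isHalf_Hc hK o c 2)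
      (h1 := K.vx c (fl (bc hK o c) 0)) (h2 := K.vx c (fl (bc hK o c) 1))
      (h3 := K.vx c (fl (bc hK o c) 2)) (h1' := K.vx c' (fl (bc hK o c') (π 0)))
      (h2' := K.vx c' (fl (bc hK o c') (π 1))) (h3' := K.vx c' (fl (bc hK o c') (π 2)))
      (e12 := K.vx c (fl (fl (bc hK o c) 0) 1)) (e23 := K.vx c (fl (fl (bc hK o c) 1) 2))
      (e13 := K.vx c (fl (fl (bc hK o c) 0) 2))
    · exact bc_not_mem hK o c 0
    · exact bc_not_mem hK o c 1
    · exact bc_not_mem hK o c 2
    · rw [hπ 0]; exact bc_not_mem hK o c' _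
    · rw [hπ 1]; exact bc_not_mem hK o c' _
    · rw [hπ 2]; exact bc_not_mem hK o c' _
    · exact ⟨c, _, 0, rfl, rfl⟩
    · exact ⟨c, _, 1, rfl, rfl⟩
    · exact ⟨c, _, 2, rfl, rfl⟩
    · exact ⟨c', _, π 0, rfl, rfl⟩
    · exact ⟨c', _, π 1, rfl, rfl⟩
    · exact ⟨c', _, π 2, rfl, rfl⟩
    · exact bc_fl_mem hK o c 0
    · exact bc_fl_mem hK o c 1
    · exact bc_fl_mem hK o c 2
    · rw [hπ 0]; exact bc_fl_mem hK o c' _
    · rw [hπ 1]; exact bc_fl_mem hK o c' _
    · rw [hπ 2]; exact bc_fl_mem hK o c' _
    · exact ⟨c, _, 0, 1, by decide, rfl, rfl, rfl, rfl⟩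
    · exact ⟨c, _, 1, 2, by decide, rfl, rfl, rfl, rfl⟩
    · exact ⟨c, _, 0, 2, by decide, rfl, rfl, rfl, rfl⟩
  apply cube_uniq hK key π
  intro i
  apply nbr_unique M (isHalf_Hc hK o c i) (bc_not_mem hK o c i)
  · exact ⟨c, _, i, rfl, rfl⟩
  · rw [key]; exact ⟨c', _, π i, rfl, rfl⟩
  · exact bc_fl_mem hK o c i
  · rw [hπ i]; exact bc_fl_mem hK o c' _

open Classical in
/-- The triple of hyperplanes of a cube. -/
noncomputable def triple (c : ι) : Finset (Set K.Vtx) := Finset.univ.image (Hc hK o c)

theorem triple_card (c : ι) : (triple hK o c).card = 3 := by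
  classical
  unfold triple
  rw [Finset.card_image_of_injective]
  · simp
  · intro i j h
    by_contra hne
    exact Hc_ne hK o c hne h

theorem triple_clique (c : ι) : (crs hK o).IsNClique 3 (triple hK o c) := by
  classical
  refine ⟨?_, triple_card hK o c⟩
  intro H hH H' hH' hne
  simp only [triple, Finset.coe_image, Finset.coe_univ, image_univ, mem_range] at hH hH'
  obtain ⟨i, rfl⟩ := hH
  obtain ⟨j, rfl⟩ := hH'
  refine ⟨c, i, j, ?_, rfl, rfl⟩
  rintro rfl
  exact hne rfl

theorem triple_inj : Function.Injective (triple hK o) := by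
  classical
  intro c c' h
  have : ∀ i, ∃ j, Hc hK o c i = Hc hK o c' j := by
    intro i
    have h1 : Hc hK o c i ∈ triple hK o c := Finset.mem_image_of_mem _ (Finset.mem_univ _)
    rw [h, triple, Finset.mem_image] at h1
    obtain ⟨j, _, hj⟩ := h1
    exact ⟨j, hj.symm⟩
  choose π hπ using this
  exact cube_of_hyp hK o π hπ

end

end CubeComplex

end Pool.Agent.H41
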