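import Pool.Agent.H41.CubeDefs

/-!
# Boundary squares of a downset of lattice cubes
-/

namespace Pool.Agent.H41

open Finset

theorem latticeSquare_subset {i : Fin 3} {v u : Fin 3 → ℤ}
    (h : latticeSquare i v ⊆ latticeCube u) : u = v ∨ u = v - Pi.single i 1 := by
  have h1 := h (show (fun j => (v j : ℝ)) ∈ latticeSquare i v from
    ⟨rfl, fun j _ => ⟨le_rfl, by linarith⟩⟩)
  have h2 := h (show (fun j => if j = i then (v j : ℝ) else v j + 1) ∈ latticeSquare i v from
    ⟨by simp, fun j hj => by simp [hj]⟩)
  have hj : ∀ j, j ≠ i → u j = v j := by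
    intro j hj
    have a := (h1 j).1
    have b := (h2 j).2
    simp only [hj, if_false] at b
    simp only at a
    have a' : u j ≤ v j := by exact_mod_cast a
    have b' : v j + 1 ≤ u j + 1 := by exact_mod_cast b
    omega
  have hi1 := (h1 i).1
  have hi2 := (h1 i).2
  simp only at hi1 hi2
  have hi1' : u i ≤ v i := by exact_mod_cast hi1
  have hi2' : v i ≤ u i + 1 := by exact_mod_cast hi2
  rcases (by omega : u i = v i ∨ u i = v i - 1) with h3 | h3
  · left
    funext j
    by_cases hji : j = i
    · rw [hji, h3]
    · exact hj j hji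
  · right
    funext j
    by_cases hji : j = i
    · subst hji; simp [h3]
    · simp [hj j hji, hji]

theorem latticeSquare_subset_self (i : Fin 3) (v : Fin 3 → ℤ) :
    latticeSquare i v ⊆ latticeCube v := by
  rintro x ⟨h1, h2⟩ j
  by_cases hj : j = i
  · subst hj; rw [h1]; exact ⟨le_rfl, by linarith⟩
  · exact h2 j hj

theorem latticeSquare_subset_sub (i : Fin 3) (v : Fin 3 → ℤ) :
    latticeSquare i v ⊆ latticeCube (v - Pi.single i 1) := by
  rintro x ⟨h1, h2⟩ j
  by_cases hj : j = i
  · subst hj; rw [h1]; simp
  · have := h2 j hj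
    simpa [hj] using this

/-- The projection of a set of lattice cubes along the direction `i`. -/
def proj (S : Finset (Fin 3 → ℤ)) (i : Fin 3) : Finset (Fin 3 → ℤ) :=
  S.image (fun v => Function.update v i 0)

/-- The lower boundary squares. -/
def lowS (S : Finset (Fin 3 → ℤ)) (i : Fin 3) : Finset (Fin 3 → ℤ) :=
  S.filter (fun v => v - Pi.single i 1 ∉ S)

/-- The upper boundary squares. -/
def uppS (S : Finset (Fin 3 → ℤ)) (i : Fin 3) : Finset (Fin 3 → ℤ) :=
  (S.filter (fun w => w + Pi.single i 1 ∉ S)).image (fun w => w + Pi.single i 1)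

variable {S : Finset (Fin 3 → ℤ)}

theorem lowS_card (hpos : ∀ v ∈ S, 0 ≤ v) (hdown : ∀ v ∈ S, ∀ w, 0 ≤ w → w ≤ v → w ∈ S)
    (i : Fin 3) : (lowS S i).card ≤ (proj S i).card := by
  apply Finset.card_le_card
  intro v hv
  rw [lowS, mem_filter] at hv
  rw [proj, mem_image]
  refine ⟨v, hv.1, ?_⟩
  have h0 := hpos v hv.1
  have hvi : v i = 0 := by
    by_contra hne
    apply hv.2
    apply hdown v hv.1
    · intro j
      by_cases hj : j = i
      · subst hj
        have := h0 j
        simp only [Pi.zero_apply] at this
        simp only [Pi.zero_apply, Pi.sub_apply, Pi.single_eq_same]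
        omega
      · have := h0 j
        simpa [hj] using this
    · intro j
      by_cases hj : j = i
      · subst hj; simp
      · simp [hj]
  rw [← hvi]
  exact Function.update_eq_self i v

theorem uppS_card (hpos : ∀ v ∈ S, 0 ≤ v) (hdown : ∀ v ∈ S, ∀ w, 0 ≤ w → w ≤ v → w ∈ S)
    (i : Fin 3) : (uppS S i).card ≤ (proj S i).card := by
  unfold uppS
  refine card_image_le.trans ?_
  apply Finset.card_le_card_of_injOn (fun v => Function.update v i 0)
  · intro v hv
    simp only [coe_filter, Set.mem_ofPred_eq] at hv
    exact mem_image_of_mem _ hv.1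
  · -- an auxiliary asymmetric statement
    have key : ∀ v w : Fin 3 → ℤ, v + Pi.single i 1 ∉ S → w ∈ S →
        Function.update v i 0 = Function.update w i 0 → v ∈ S → w i ≤ v i := by
      intro v w h1 h2 h3 h4
      by_contra hlt
      apply h1
      apply hdown w h2
      · intro j
        have := hpos v h4 j
        by_cases hj : j = i
        · subst hj
          simp only [Pi.zero_apply] at this
          simp only [Pi.zero_apply, Pi.add_apply, Pi.single_eq_same]
          omega
        · simpa [hj] using this
      · intro j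
        by_cases hj : j = i
        · subst hj
          simp only [Pi.add_apply, Pi.single_eq_same]
          omega
        · have := congrFun h3 j
          simp only [ne_eq, hj, not_false_eq_true, Function.update_of_ne] at this
          simp [hj, this]
    intro v hv w hw heq
    simp only [coe_filter, Set.mem_ofPred_eq] at hv hw
    simp only at heq
    have a := key v w hv.2 hw.1 heq hv.1
    have b := key w v hw.2 hv.1 heq.symm hw.1
    funext j
    by_cases hj : j = i
    · subst hj; exact le_antisymm b a
    · have := congrFun heq j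
      simpa [hj] using this

open Classical in
/-- **Boundary squares of a downset.** -/
theorem latticeBoundary_encard_le (hpos : ∀ v ∈ S, 0 ≤ v)
    (hdown : ∀ v ∈ S, ∀ w, 0 ≤ w → w ≤ v → w ∈ S) :
    (latticeBoundary S).encard ≤ (2 * ∑ i, (proj S i).card : ℕ) := by
  have hsub : latticeBoundary S ⊆
      ((univ.biUnion fun i => (lowS S i ∪ uppS S i).image (latticeSquare i) :
        Finset (Set (Fin 3 → ℝ))) : Set (Set (Fin 3 → ℝ))) := by
    rintro s ⟨⟨i, v, rfl⟩, u, ⟨huS, hu⟩, huniq⟩
    simp only [coe_biUnion, Set.mem_iUnion, coe_image, Set.mem_image, mem_coe, mem_union]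
    refine ⟨i, mem_univ _, v, ?_, rfl⟩
    have hne : v ≠ v - Pi.single i 1 := by
      intro h
      have := congrFun h i
      simp only [Pi.sub_apply, Pi.single_eq_same] at this
      omega
    rcases latticeSquare_subset hu with rfl | rfl
    · left
      rw [lowS, mem_filter]
      refine ⟨huS, fun h => hne ?_⟩
      exact (huniq _ ⟨h, latticeSquare_subset_sub i _⟩).symm
    · right
      rw [uppS, mem_image]
      refine ⟨v - Pi.single i 1, ?_, by simp⟩
      rw [mem_filter]
      refine ⟨huS, fun h => hne ?_⟩
      rw [sub_add_cancel] at h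
      exact huniq _ ⟨h, latticeSquare_subset_self i _⟩
  refine (Set.encard_le_encard hsub).trans ?_
  rw [Set.encard_coe_eq_coe_finsetCard, Nat.cast_le]
  refine card_biUnion_le.trans ?_
  rw [mul_sum]
  apply sum_le_sum
  intro i _
  refine card_image_le.trans ((card_union_le _ _).trans ?_)
  have a := lowS_card hpos hdown i
  have b := uppS_card hpos hdown i
  omega

end Pool.Agent.H41
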