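import Pool.Agent.H41.Cover2

/-! Combinatorial consequences: distances, half-spaces and medians. -/

namespace Pool.Agent.H41

/-- The combinatorial system of vertices, edges and squares of a CAT(0) cube 3-complex. -/
structure Med {W : Type} (G : SimpleGraph W) (Sq : W → W → W → W → Prop) : Prop where
  ax : SqAx Sq
  sq_adj : ∀ {a b c d}, Sq a b c d → G.Adj a b
  conn : G.Connected
  uniq : ∀ {v0 v : W} {p q : List W}, Path G.Adj v0 (v :: p) → Path G.Adj v0 (v :: q) →
    Irr Sq (v :: p) → Irr Sq (v :: q) → Eqv Sq (v :: p) (v :: q)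
  no_four : ∀ {a b1 b2 b3 b4 c12 c23 c34 c13 c24 c14 : W}, Sq a b1 c12 b2 → Sq a b2 c23 b3 →
    Sq a b3 c34 b4 → Sq a b1 c13 b3 → Sq a b2 c24 b4 → Sq a b1 c14 b4 → False

section PathLemmas

variable {W : Type} {G : SimpleGraph W} {Sq : W → W → W → W → Prop}

theorem Path.prepend {Adj : W → W → Prop} {u v : W} {l : List W} (h : Path Adj v l)
    (huv : Adj u v) : Path Adj u (l ++ [u]) := by
  induction h with
  | base => exact Path.step u v [] Path.base huv
  | step a b p _ hab ih => exact Path.step a b (p ++ [u]) ih hab

theorem path_of_walk {u v : W} (w : G.Walk u v) :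
    ∃ p, Path G.Adj u (v :: p) ∧ p.length = w.length := by
  induction w with
  | nil => exact ⟨[], Path.base, rfl⟩
  | cons h w ih =>
    obtain ⟨p, hp, hl⟩ := ih
    have h2 := hp.prepend h
    rw [List.cons_append] at h2
    exact ⟨_, h2, by simp [hl]⟩

theorem walk_of_path {v0 : W} {l : List W} (h : Path G.Adj v0 l) :
    ∀ v p, l = v :: p → ∃ w : G.Walk v0 v, w.length = p.length := by
  induction h with
  | base =>
    intro v p hl
    simp at hl
    obtain ⟨rfl, rfl⟩ := hl
    exact ⟨SimpleGraph.Walk.nil, rfl⟩
  | step a b p _ hab ih =>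
    intro v q hl
    simp at hl
    obtain ⟨rfl, rfl⟩ := hl
    obtain ⟨w, hw⟩ := ih a p rfl
    exact ⟨w.concat hab, by simp [SimpleGraph.Walk.length_concat, hw]⟩

theorem Path.dist_le {v0 v : W} {p : List W} (h : Path G.Adj v0 (v :: p)) :
    G.dist v0 v ≤ p.length := by
  obtain ⟨w, hw⟩ := walk_of_path h v p rfl
  rw [← hw]
  exact SimpleGraph.dist_le w

theorem Path.tail {v0 u v : W} {p : List W} (h : Path G.Adj v0 (v :: u :: p)) :
    Path G.Adj v0 (u :: p) := by
  cases h with
  | step a b p h _ => exact h

theorem Path.adj {v0 u v : W} {p : List W} (h : Path G.Adj v0 (v :: u :: p)) : G.Adj u v := by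
  cases h with
  | step a b p h hab => exact hab

theorem Flip.path (M : Med G Sq) {v0 : W} {l l' : List W} (h : Flip Sq l l')
    (hp : Path G.Adj v0 l) : Path G.Adj v0 l' := by
  induction h with
  | here a b c d r h =>
    have h1 : G.Adj a d := M.sq_adj (M.ax.rev h)
    have h2 : G.Adj d c := (M.sq_adj (M.ax.rot (M.ax.rot h))).symm
    exact Path.step d c _ (Path.step a d _ hp.tail.tail h1) h2
  | cons x l l' h ih =>
    cases h with
    | here a b c d r h =>
      exact Path.step _ _ _ (ih hp.tail) hp.adj
    | cons y l l' h =>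
      exact Path.step _ _ _ (ih hp.tail) hp.adj

theorem Flip.path_iff (M : Med G Sq) {v0 : W} {l l' : List W} (h : Flip Sq l l') :
    Path G.Adj v0 l ↔ Path G.Adj v0 l' :=
  ⟨fun hp => h.path M hp, fun hp => (h.symm M.ax).path M hp⟩

theorem Eqv.path_iff (M : Med G Sq) {v0 : W} {l l' : List W} (h : Eqv Sq l l') :
    Path G.Adj v0 l ↔ Path G.Adj v0 l' := by
  induction h with
  | rel l l' h => exact h.path_iff M
  | refl l => exact Iff.rfl
  | symm l l' _ ih => exact ih.symm
  | trans l l' l'' _ _ ih1 ih2 => exact ih1.trans ih2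

theorem HasBT.shorten {v0 : W} {l : List W} (h : HasBT l) (hp : Path G.Adj v0 l) :
    ∃ l', Path G.Adj v0 l' ∧ l'.head? = l.head? ∧ l'.length + 2 = l.length := by
  induction h with
  | here a b r => exact ⟨a :: r, hp.tail.tail, rfl, rfl⟩
  | cons x l h ih =>
    cases h with
    | here a b r => exact ⟨x :: a :: r, Path.step _ _ _ hp.tail.tail.tail hp.adj, rfl, rfl⟩
    | cons y l h =>
      obtain ⟨l', h1, h2, h3⟩ := ih hp.tail
      cases l' with
      | nil => simp at h2
      | cons z l' =>
        simp at h2
        subst h2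
        exact ⟨x :: z :: l', Path.step _ _ _ h1 hp.adj, rfl, by simp at h3 ⊢; omega⟩

theorem geod_irr (M : Med G Sq) {v0 v : W} {p : List W} (h : Path G.Adj v0 (v :: p))
    (hl : p.length = G.dist v0 v) : Irr Sq (v :: p) := by
  intro l' hl' hb
  obtain ⟨l'', h1, h2, h3⟩ := hb.shorten ((hl'.path_iff M).1 h)
  have h4 := hl'.length
  have h5 := hl'.head
  cases l'' with
  | nil => rw [← h5] at h2; simp at h2
  | cons z q =>
    rw [← h5] at h2
    simp at h2
    subst h2
    have := h1.dist_le
    simp at h3 h4
    omega

theorem exists_geod (M : Med G Sq) (v0 v : W) :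
    ∃ p, Path G.Adj v0 (v :: p) ∧ p.length = G.dist v0 v ∧ Irr Sq (v :: p) := by
  obtain ⟨w, hw⟩ := M.conn.exists_walk_length_eq_dist v0 v
  obtain ⟨p, hp, hl⟩ := path_of_walk w
  exact ⟨p, hp, hl.trans hw, geod_irr M hp (hl.trans hw)⟩

theorem irr_geod (M : Med G Sq) {v0 v : W} {p : List W} (h : Path G.Adj v0 (v :: p))
    (hi : Irr Sq (v :: p)) : p.length = G.dist v0 v := by
  obtain ⟨q, h1, h2, h3⟩ := exists_geod M v0 v
  have := (M.uniq h h1 hi h3).length
  simp at this
  omega

/-- Distances to adjacent vertices differ by exactly one. -/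
theorem bip (M : Med G Sq) (x : W) {y z : W} (h : G.Adj y z) :
    G.dist x z = G.dist x y + 1 ∨ G.dist x y = G.dist x z + 1 := by
  have h1 : G.dist y z = 1 := SimpleGraph.dist_eq_one_iff_adj.2 h
  have h2 := M.conn.dist_triangle (u := x) (v := y) (w := z)
  have h3 := M.conn.dist_triangle (u := x) (v := z) (w := y)
  rw [SimpleGraph.dist_comm (u := z) (v := y)] at h3
  by_cases heq : G.dist x y = G.dist x z
  · exfalso
    obtain ⟨p, p1, p2, p3⟩ := exists_geod M x y
    have hp : Path G.Adj x (z :: y :: p) := Path.step _ _ _ p1 h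
    by_cases hi : Irr Sq (z :: y :: p)
    · have := irr_geod M hp hi
      simp at this
      omega
    · obtain ⟨q, hq⟩ := exchange M.ax _ z y p rfl p3 hi
      have h5 := ((hq.path_iff M).1 p1).tail.dist_le
      have h6 := hq.length
      simp at h6
      omega
  · omega

/-- The quadrangle condition. -/
theorem quad (M : Med G Sq) {x v s t : W} (hs : G.Adj s v) (ht : G.Adj t v) (hst : s ≠ t)
    (ds : G.dist x s + 1 = G.dist x v) (dt : G.dist x t + 1 = G.dist x v) :
    ∃ z, Sq v s z t ∧ G.dist x z + 2 = G.dist x v := by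
  obtain ⟨p, p1, p2, p3⟩ := exists_geod M x s
  obtain ⟨q, q1, q2, q3⟩ := exists_geod M x t
  have hp : Path G.Adj x (v :: s :: p) := Path.step _ _ _ p1 hs
  have hq : Path G.Adj x (v :: t :: q) := Path.step _ _ _ q1 ht
  have ip := geod_irr M hp (by simp; omega)
  have iq := geod_irr M hq (by simp; omega)
  rcases (M.uniq hp hq ip iq).dd M.ax with ⟨h, _⟩ | ⟨_, z, r, h1, h2, h3⟩
  · exact absurd h hst
  · refine ⟨z, h1, ?_⟩
    have h4 := ((h2.path_iff M).1 p1).tail.dist_le
    have h5 := h2.length
    simp at h5
    have h6 : G.Adj s z := M.sq_adj (M.ax.rot h1)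
    have h7 := bip M x h6
    omega

end PathLemmas

section HalfSpaces

variable {W : Type} {G : SimpleGraph W} {Sq : W → W → W → W → Prop}

/-- The vertices closer to `a` than to `b`. -/
def Ws (G : SimpleGraph W) (a b : W) : Set W := {x | G.dist x a < G.dist x b}

theorem mem_Ws {a b x : W} : x ∈ Ws G a b ↔ G.dist x a < G.dist x b := Iff.rfl

theorem mem_Ws_iff (M : Med G Sq) {a b x : W} (h : G.Adj a b) :
    x ∈ Ws G a b ↔ G.dist x b = G.dist x a + 1 := by
  rw [mem_Ws]
  have := bip M x h
  omega

theorem not_mem_Ws (M : Med G Sq) {a b x : W} (h : G.Adj a b) :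
    x ∉ Ws G a b ↔ x ∈ Ws G b a := by
  rw [mem_Ws, mem_Ws]
  have := bip M x h
  omega

theorem Ws_compl (M : Med G Sq) {a b : W} (h : G.Adj a b) : (Ws G a b)ᶜ = Ws G b a := by
  ext x
  exact not_mem_Ws M h

theorem left_mem (M : Med G Sq) {a b : W} (h : G.Adj a b) : a ∈ Ws G a b := by
  rw [mem_Ws, SimpleGraph.dist_self, SimpleGraph.dist_eq_one_iff_adj.2 h]
  exact one_pos

theorem right_not_mem (M : Med G Sq) {a b : W} (h : G.Adj a b) : b ∉ Ws G a b := by
  rw [not_mem_Ws M h]
  exact left_mem M h.symm

theorem Ws_sq_sub (M : Med G Sq) {a b c d : W} (h : Sq a b c d) : Ws G a b ⊆ Ws G d c := by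
  intro x hx
  by_contra hcon
  have hab : G.Adj a b := M.sq_adj h
  have hbc : G.Adj b c := M.sq_adj (M.ax.rot h)
  have hcd : G.Adj c d := M.sq_adj (M.ax.rot (M.ax.rot h))
  have hda : G.Adj d a := M.sq_adj (M.ax.rot (M.ax.rot (M.ax.rot h)))
  rw [mem_Ws_iff M hab] at hx
  rw [not_mem_Ws M hcd.symm, mem_Ws_iff M hcd] at hcon
  have b1 := bip M x hda
  have b2 := bip M x hbc
  obtain ⟨z, hz, hd⟩ := quad M (x := x) hab hbc.symm (M.ax.ne h) (by omega) (by omega)
  have : z = d := M.ax.uniq hz (M.ax.rev (M.ax.rot h))
  subst this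
  omega

theorem Ws_sq (M : Med G Sq) {a b c d : W} (h : Sq a b c d) : Ws G a b = Ws G d c := by
  apply Set.Subset.antisymm (Ws_sq_sub M h)
  exact Ws_sq_sub M (M.ax.rev (M.ax.rot (M.ax.rot (M.ax.rot h))))

/-- An edge crossing the boundary of a half-space defines the same half-space. -/
theorem crossing (M : Med G Sq) : ∀ (n : ℕ) {a b c d : W}, G.Adj a b → G.Adj c d →
    G.dist a c = n → c ∈ Ws G a b → d ∉ Ws G a b → Ws G a b = Ws G c d := by
  intro n
  induction n with
  | zero =>
    intro a b c d hab hcd hn hc hd
    have hac : a = c := M.conn.dist_eq_zero_iff.1 hn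
    subst hac
    rw [not_mem_Ws M hab, mem_Ws_iff M hab.symm] at hd
    have h1 : G.dist d a = 1 := SimpleGraph.dist_eq_one_iff_adj.2 hcd.symm
    have h2 : G.dist d b = 0 := by omega
    have : d = b := M.conn.dist_eq_zero_iff.1 h2
    rw [this]
  | succ n ih =>
    intro a b c d hab hcd hn hc hd
    rw [mem_Ws_iff M hab] at hc
    rw [not_mem_Ws M hab, mem_Ws_iff M hab.symm] at hd
    have e1 : G.dist c a = n + 1 := by rw [SimpleGraph.dist_comm]; exact hn
    have e2 : G.dist a d = G.dist d a := SimpleGraph.dist_comm
    have e3 : G.dist b c = G.dist c b := SimpleGraph.dist_comm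
    have e4 : G.dist b d = G.dist d b := SimpleGraph.dist_comm
    have k1 := bip M a hcd
    have k2 := bip M b hcd
    -- a neighbour `y` of `d` closer to `b`
    obtain ⟨p, p1, p2, _⟩ := exists_geod M b d
    have hdb : G.dist b d = n + 1 := by omega
    cases p with
    | nil => simp at p2; omega
    | cons y p =>
      have hyd : G.Adj y d := p1.adj
      have hy1 := p1.tail.dist_le
      simp at p2
      have hby := bip M b hyd
      have hby' : G.dist b y = n := by omega
      have hay := bip M a hyd
      have hab1 : G.dist a b = 1 := SimpleGraph.dist_eq_one_iff_adj.2 hab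
      have tri := M.conn.dist_triangle (u := a) (v := b) (w := y)
      have hcy : c ≠ y := by
        rintro rfl
        omega
      obtain ⟨z, hz, hdz⟩ := quad M (x := a) hcd hyd hcy (by omega) (by omega)
      have hcz : G.Adj c z := M.sq_adj (M.ax.rot hz)
      have hzy : G.Adj z y := M.sq_adj (M.ax.rot (M.ax.rot hz))
      have q1 := bip M b hcz
      have q2 := bip M b hzy
      have f1 : G.dist z a = G.dist a z := SimpleGraph.dist_comm
      have f2 : G.dist z b = G.dist b z := SimpleGraph.dist_comm
      have f3 : G.dist y a = G.dist a y := SimpleGraph.dist_comm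
      have f4 : G.dist y b = G.dist b y := SimpleGraph.dist_comm
      have hzW : z ∈ Ws G a b := by rw [mem_Ws_iff M hab]; omega
      have hyW : y ∉ Ws G a b := by rw [not_mem_Ws M hab, mem_Ws_iff M hab.symm]; omega
      rw [ih hab hzy (by omega) hzW hyW]
      -- hz : Sq d c z y
      exact Ws_sq M (M.ax.rot (M.ax.rot hz))

/-- Half-spaces. -/
def IsHalf (G : SimpleGraph W) (H : Set W) : Prop := ∃ a b, G.Adj a b ∧ H = Ws G a b

theorem IsHalf.compl (M : Med G Sq) {H : Set W} (h : IsHalf G H) : IsHalf G Hᶜ := by
  obtain ⟨a, b, hab, rfl⟩ := h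
  exact ⟨b, a, hab.symm, Ws_compl M hab⟩

theorem IsHalf.cross (M : Med G Sq) {H : Set W} (h : IsHalf G H) {c d : W} (hcd : G.Adj c d)
    (hc : c ∈ H) (hd : d ∉ H) : H = Ws G c d := by
  obtain ⟨a, b, hab, rfl⟩ := h
  exact crossing M _ hab hcd rfl hc hd

/-- There is a neighbour closer to a given vertex. -/
theorem exists_closer (M : Med G Sq) {x y : W} (h : x ≠ y) :
    ∃ z, G.Adj z y ∧ G.dist x z + 1 = G.dist x y := by
  obtain ⟨p, p1, p2, _⟩ := exists_geod M x y
  cases p with
  | nil =>
    exfalso
    simp at p2
    exact h (M.conn.dist_eq_zero_iff.1 p2.symm)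
  | cons z p =>
    have := p1.tail.dist_le
    simp at p2
    have := bip M x p1.adj
    exact ⟨z, p1.adj, by omega⟩

/-- Half-spaces are convex. -/
theorem IsHalf.convex (M : Med G Sq) {H : Set W} (h : IsHalf G H) {x y m : W} (hx : x ∈ H)
    (hy : y ∈ H) (hm : G.dist x m + G.dist m y = G.dist x y) : m ∈ H := by
  have key : ∀ n m, G.dist m y = n → G.dist x m + G.dist m y = G.dist x y → m ∈ H := by
    intro n
    induction n with
    | zero =>
      intro m hn _
      rwa [M.conn.dist_eq_zero_iff.1 hn]
    | succ n ih =>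
      intro m hn hm
      have hne : y ≠ m := by
        rintro rfl
        simp at hn
      obtain ⟨m', hadj, hd⟩ := exists_closer M hne
      have c1 : G.dist y m = G.dist m y := SimpleGraph.dist_comm
      have c2 : G.dist y m' = G.dist m' y := SimpleGraph.dist_comm
      have t1 := M.conn.dist_triangle (u := x) (v := m') (w := y)
      have t2 := bip M x hadj
      have hm' : m' ∈ H := ih m' (by omega) (by omega)
      by_contra hcon
      have := h.cross M hadj hm' hcon
      rw [this, mem_Ws_iff M hadj] at hx
      omega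
  exact key _ m rfl hm

/-- Existence of medians. -/
theorem exists_median (M : Med G Sq) (u v w : W) :
    ∃ m, G.dist u m + G.dist m v = G.dist u v ∧ G.dist v m + G.dist m w = G.dist v w ∧
      G.dist u m + G.dist m w = G.dist u w := by
  classical
  -- a point of the interval `[u,v]` closest to `w`
  have hex : ∃ n, ∃ m, G.dist u m + G.dist m v = G.dist u v ∧ G.dist w m = n :=
    ⟨_, u, by simp, rfl⟩
  obtain ⟨m, hm1, hm2⟩ := Nat.find_spec hex
  have hmin : ∀ m', G.dist u m' + G.dist m' v = G.dist u v → G.dist w m ≤ G.dist w m' := by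
    intro m' hm'
    rw [hm2]
    exact Nat.find_min' hex ⟨m', hm', rfl⟩
  have key : ∀ n (t x : W), (t = u ∨ t = v) → G.dist m x = n →
      G.dist m x + G.dist x t = G.dist m t → G.dist w x = G.dist w m + n := by
    intro n
    induction n using Nat.strong_induction_on with
    | _ n ih =>
      intro t x ht hn hx
      have sm : G.dist t m + G.dist m t = 2 * G.dist m t := by
        rw [SimpleGraph.dist_comm (u := t)]; omega
      -- points of the segment from `m` to `t` lie in the interval `[u,v]`
      have hin : ∀ x', G.dist m x' + G.dist x' t = G.dist m t →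
          G.dist u x' + G.dist x' v = G.dist u v := by
        intro x' hx'
        have a1 := M.conn.dist_triangle (u := u) (v := m) (w := x')
        have a2 := M.conn.dist_triangle (u := u) (v := x') (w := v)
        have a3 := M.conn.dist_triangle (u := x') (v := m) (w := v)
        have a4 : G.dist x' m = G.dist m x' := SimpleGraph.dist_comm
        have a5 : G.dist u x' = G.dist x' u := SimpleGraph.dist_comm
        have a6 : G.dist u m = G.dist m u := SimpleGraph.dist_comm
        rcases ht with rfl | rfl
        · omega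
        · omega
      rcases Nat.eq_zero_or_pos n with h0 | h0
      · subst h0
        have : m = x := M.conn.dist_eq_zero_iff.1 hn
        rw [this]; simp
      · have hmx : m ≠ x := by
          rintro rfl
          simp at hn; omega
        obtain ⟨y, hyx, hdy⟩ := exists_closer M hmx
        have t1 := bip M t hyx
        have s1 : G.dist t x = G.dist x t := SimpleGraph.dist_comm
        have s2 : G.dist t y = G.dist y t := SimpleGraph.dist_comm
        have tr1 := M.conn.dist_triangle (u := m) (v := y) (w := t)
        have hyseg : G.dist m y + G.dist y t = G.dist m t := by omega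
        have ihy := ih (n - 1) (by omega) t y ht (by omega) hyseg
        have t2 := bip M w hyx
        rcases t2 with t2 | t2
        · omega
        · exfalso
          -- `x` is closer to `w` than `y`
          by_cases h1 : n = 1
          · have hym : m = y := M.conn.dist_eq_zero_iff.1 (by omega)
            subst hym
            have := hmin x (hin x hx)
            omega
          · have hmy : m ≠ y := by
              rintro rfl
              simp at hdy; omega
            obtain ⟨z, hzy, hdz⟩ := exists_closer M hmy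
            have r1 := bip M t hzy
            have s3 : G.dist t z = G.dist z t := SimpleGraph.dist_comm
            have tr2 := M.conn.dist_triangle (u := m) (v := z) (w := t)
            have hzseg : G.dist m z + G.dist z t = G.dist m t := by omega
            have ihz := ih (n - 2) (by omega) t z ht (by omega) hzseg
            have hzx : z ≠ x := by
              rintro rfl
              omega
            obtain ⟨z', hz', hdz'⟩ := quad M (x := w) hzy hyx.symm hzx (by omega) (by omega)
            have q1 : G.Adj z z' := M.sq_adj (M.ax.rot hz')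
            have q2 : G.Adj z' x := M.sq_adj (M.ax.rot (M.ax.rot hz'))
            have b1 := bip M m q1
            have b2 := bip M m q2
            have b3 := bip M t q1
            have b4 := bip M t q2
            have s4 : G.dist t z' = G.dist z' t := SimpleGraph.dist_comm
            have tr3 := M.conn.dist_triangle (u := m) (v := z') (w := t)
            have ihz' := ih (n - 1) (by omega) t z' ht (by omega) (by omega)
            omega
  have k1 := key _ u u (Or.inl rfl) rfl (by simp)
  have k2 := key _ v v (Or.inr rfl) rfl (by simp)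
  have s1 : G.dist w u = G.dist u w := SimpleGraph.dist_comm
  have s2 : G.dist w v = G.dist v w := SimpleGraph.dist_comm
  have s3 : G.dist w m = G.dist m w := SimpleGraph.dist_comm
  have s4 : G.dist m u = G.dist u m := SimpleGraph.dist_comm
  have s5 : G.dist m v = G.dist v m := SimpleGraph.dist_comm
  exact ⟨m, hm1, by omega, by omega⟩

end HalfSpaces

end Pool.Agent.H41
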